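import Pool.Agent.Q152.QT.Mom
import Pool.Agent.Q282.MM.Main
import Pool.Agent.Q282.MM.Emp

/-! # The law over integer windows -/

set_option autoImplicit false

namespace Pool.Agent.Q152.QT

open Finset Pool.Agent.Y293.SF Filter

lemma exists_lb (f : ℕ → ℝ) (hf : ∀ k, 0 < f k) (n : ℕ) : ∃ c : ℝ, 0 < c ∧ ∀ k ≤ n, c ≤ f k := by
  induction n with
  | zero => exact ⟨f 0, hf 0, fun k hk => by rw [Nat.le_zero.1 hk]⟩
  | succ n ih =>
    obtain ⟨c, hc, h⟩ := ih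
    refine ⟨min c (f (n + 1)), lt_min hc (hf _), fun k hk => ?_⟩
    rcases Nat.lt_or_ge k (n + 1) with h1 | h1
    · exact (min_le_left _ _).trans (h k (by omega))
    · rw [le_antisymm hk h1]
      exact min_le_right _ _

lemma exists_ub (f : ℕ → ℝ) (n : ℕ) : ∃ C : ℝ, 0 ≤ C ∧ ∀ k ≤ n, f k ≤ C := by
  refine ⟨∑ k ∈ range (n + 1), |f k|, sum_nonneg fun _ _ => abs_nonneg _, fun k hk => ?_⟩
  exact (le_abs_self _).trans (single_le_sum (f := fun k => |f k|) (fun _ _ => abs_nonneg _)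
    (mem_range.2 (by omega)))

lemma exists_ubn (f : ℕ → ℕ) (n : ℕ) : ∃ C : ℕ, ∀ k ≤ n, f k ≤ C := by
  refine ⟨∑ k ∈ range (n + 1), f k, fun k hk => ?_⟩
  exact single_le_sum (f := f) (fun _ _ => Nat.zero_le _) (mem_range.2 (by omega))

lemma gm_eq (k : ℕ) : gm k = Q282MM.gm k := rfl

open Classical in
theorem law_int (h3 : S_Cnt) (h4 : S_Odd) (h5 : S_Char) (h7 : S_Mean) (h8 : S_Pairs)
    (ε δ : ℝ) (hε : 0 < ε) (hδ : 0 < δ) :
    ∃ (c : ℝ) (A N₀ : ℕ), 0 < c ∧ ∀ (g : ℕ → ℝ) (N h P : ℕ), (∀ n, g n = 1 ∨ g n = -1) → N₀ ≤ N →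
      (N : ℝ) ^ ε ≤ h → (h : ℝ) ≤ (N : ℝ) ^ (1 - ε) → N ^ A ≤ P →
      ∃ E : Finset ℕ, (E.card : ℝ) ≤ P * (N : ℝ) ^ (-c) ∧ ∀ m ≤ P, Odd m → Cop N m → m ∉ E →
        ∀ t : ℝ, |(((Ico N (2 * N)).filter fun x => Wm g h m x / √(6 / Real.pi ^ 2 * h) ≤ t).card : ℝ) / N -
          Q282MM.Phi t| ≤ δ := by
  -- the number of the moments
  obtain ⟨n, hn1, hn⟩ : ∃ n : ℕ, 1 ≤ n ∧ 4 / √(n : ℝ) ≤ δ / 2 := by
    obtain ⟨n, hn⟩ := exists_nat_ge ((8 / δ) ^ 2)
    refine ⟨n + 1, by omega, ?_⟩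
    have h1 : 8 / δ ≤ √((n + 1 : ℕ) : ℝ) := by
      rw [Real.le_sqrt (by positivity) (by positivity)]
      push_cast
      linarith
    rw [div_le_iff₀ (lt_of_lt_of_le (by positivity) h1)]
    calc (4 : ℝ) = δ / 2 * (8 / δ) := by field_simp; norm_num
      _ ≤ _ := mul_le_mul_of_nonneg_left h1 (by positivity)
  obtain ⟨C0, hC0, hemp, -⟩ := Q282MM.emp Q282MM.fin_true n hn1
  choose c1 C1 hc1 hC1 H1 using fun k => mom h3 h4 h7 k ε hε
  choose c2 A2 N2 hc2 H2 using fun k => exc h5 h8 k ε hε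
  obtain ⟨ca, hca, hca'⟩ := exists_lb c1 hc1 (2 * n)
  obtain ⟨cb, hcb, hcb'⟩ := exists_lb c2 hc2 (2 * n)
  obtain ⟨Ca, hCa, hCa'⟩ := exists_ub C1 (2 * n)
  obtain ⟨Aa, hAa⟩ := exists_ubn A2 (2 * n)
  obtain ⟨Na, hNa⟩ := exists_ubn N2 (2 * n)
  set κ : ℝ := 6 / Real.pi ^ 2 with hκ
  have hκ0 : 0 < κ := by positivity
  set K : ℝ := ∑ k ∈ range (2 * n + 1), (√κ ^ k)⁻¹ with hK
  have hK' : ∀ k ≤ 2 * n, (√κ ^ k)⁻¹ ≤ K := fun k hk =>
    single_le_sum (f := fun k => (√κ ^ k)⁻¹) (fun _ _ => by positivity) (mem_range.2 (by omega))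
  have hK0 : 0 ≤ K := sum_nonneg fun _ _ => by positivity
  set c0 := min ca cb with hc0
  have hc00 : 0 < c0 := lt_min hca hcb
  set η : ℝ := δ / (2 * (C0 + 1)) with hη
  have hη0 : 0 < η := by positivity
  -- large N
  obtain ⟨N3, hN3⟩ : ∃ N3 : ℕ, ∀ N : ℕ, N3 ≤ N →
      K * (Ca + 1) / η + (2 * n + 1) ≤ (N : ℝ) ^ (c0 / 2) := by
    have := (tendsto_rpow_atTop (by positivity : 0 < c0 / 2)).comp tendsto_natCast_atTop_atTop
    obtain ⟨N₁, h⟩ := (Filter.tendsto_atTop.1 this (K * (Ca + 1) / η + (2 * n + 1))).exists_forall_of_atTop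
    exact ⟨N₁, h⟩
  refine ⟨c0 / 2, Aa, max (max Na N3) 1, by positivity, fun g N h P hg hN h1 h2 hP => ?_⟩
  have hNNa : Na ≤ N := (le_max_left _ _).trans ((le_max_left _ _).trans hN)
  have hNN3 : N3 ≤ N := (le_max_right _ _).trans ((le_max_left _ _).trans hN)
  have hN1' : 1 ≤ N := (le_max_right _ _).trans hN
  have hN0 : (0 : ℝ) < N := by exact_mod_cast hN1'
  have hN1 : (1 : ℝ) ≤ N := by exact_mod_cast hN1'
  have hbig := hN3 N hNN3
  have hh1R : (1 : ℝ) ≤ h := le_trans (Real.one_le_rpow hN1 hε.le) h1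
  have hh0 : (0 : ℝ) < h := by linarith
  set Ek' : ℕ → Finset ℕ := fun k => (range (P + 1)).filter fun m => Odd m ∧
        N * √(h : ℝ) ^ k * (N : ℝ) ^ (-(c2 k)) < |Tk (at' (k := k) g) N h m| with hEk'
  have hEc : ∀ k ≤ 2 * n, ((Ek' k).card : ℝ) ≤ P * (N : ℝ) ^ (-c0) := by
    intro k hk
    have q1 : N ^ A2 k ≤ P := le_trans (Nat.pow_le_pow_right hN1' (hAa k hk)) hP
    refine (H2 k g N h P hg ((hNa k hk).trans hNNa) h1 h2 q1).trans ?_
    refine mul_le_mul_of_nonneg_left ?_ (Nat.cast_nonneg P)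
    refine Real.rpow_le_rpow_of_exponent_le hN1 ?_
    have := hcb' k hk
    have := min_le_right ca cb
    linarith
  have hsplit : (N : ℝ) ^ (-c0) = (N : ℝ) ^ (-(c0 / 2)) * (N : ℝ) ^ (-(c0 / 2)) := by
    rw [← Real.rpow_add hN0]
    congr 1
    ring
  have hinv : (N : ℝ) ^ (-(c0 / 2)) * (N : ℝ) ^ (c0 / 2) = 1 := by
    rw [← Real.rpow_add hN0, neg_add_cancel, Real.rpow_zero]
  have hρ : 0 < (N : ℝ) ^ (-(c0 / 2)) := by positivity
  have hquo : 0 ≤ K * (Ca + 1) / η := by positivity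
  refine ⟨(range (2 * n + 1)).biUnion Ek', ?_, fun m hmP hmo hmc hmE t => ?_⟩
  · calc (((range (2 * n + 1)).biUnion Ek').card : ℝ) ≤ ∑ k ∈ range (2 * n + 1), ((Ek' k).card : ℝ) := by
          exact_mod_cast card_biUnion_le
      _ ≤ ∑ _k ∈ range (2 * n + 1), P * (N : ℝ) ^ (-c0) :=
          sum_le_sum fun k hk => hEc k (by have := mem_range.1 hk; omega)
      _ = P * (N : ℝ) ^ (-(c0 / 2)) * ((2 * n + 1) * (N : ℝ) ^ (-(c0 / 2))) := by
          rw [sum_const, card_range, nsmul_eq_mul, hsplit]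
          push_cast
          ring
      _ ≤ P * (N : ℝ) ^ (-(c0 / 2)) * 1 := by
          refine mul_le_mul_of_nonneg_left ?_ (by positivity)
          nlinarith
      _ = _ := mul_one _
  · have hIne : (Ico N (2 * N)).Nonempty := nonempty_Ico.2 (by omega)
    have hcard : ((Ico N (2 * N)).card : ℝ) = N := by
      rw [Nat.card_Ico]
      congr 1
      omega
    have hmom : ∀ k ≤ 2 * n, |(∑ x ∈ Ico N (2 * N), (Wm g h m x / √(κ * h)) ^ k) /
        ((Ico N (2 * N)).card : ℝ) - (Q282MM.gm k : ℝ)| ≤ η := by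
      intro k hk
      have a1 := H1 k g N h m hg hN1' h1 h2 hmc
      have a2 : |Tk (at' (k := k) g) N h m| ≤ N * √(h : ℝ) ^ k * (N : ℝ) ^ (-(c2 k)) := by
        by_contra hc
        apply hmE
        rw [mem_biUnion]
        refine ⟨k, mem_range.2 (by omega), ?_⟩
        rw [hEk', mem_filter]
        exact ⟨mem_range.2 (by omega), hmo, not_le.1 hc⟩
      have hpow : 0 < √(κ * h) ^ k := by positivity
      have e1 : (∑ x ∈ Ico N (2 * N), (Wm g h m x / √(κ * h)) ^ k) / ((Ico N (2 * N)).card : ℝ) -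
          (Q282MM.gm k : ℝ) = ((∑ x ∈ Ico N (2 * N), Wm g h m x ^ k) / N -
            gm k * √(κ * h) ^ k) / √(κ * h) ^ k := by
        rw [hcard, ← gm_eq]
        simp only [div_pow]
        rw [← sum_div]
        field_simp
      rw [e1, abs_div, abs_of_pos hpow, div_le_iff₀ hpow]
      refine a1.trans ?_
      have e2 : √(κ * h) ^ k = √κ ^ k * √(h : ℝ) ^ k := by
        rw [Real.sqrt_mul hκ0.le, mul_pow]
      have hs : 0 < √(h : ℝ) ^ k := by positivity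
      have b1 : (N : ℝ) ^ (-(c1 k)) ≤ (N : ℝ) ^ (-c0) := by
        refine Real.rpow_le_rpow_of_exponent_le hN1 ?_
        have := hca' k hk
        have := min_le_left ca cb
        linarith
      have b2 : (N : ℝ) ^ (-(c2 k)) ≤ (N : ℝ) ^ (-c0) := by
        refine Real.rpow_le_rpow_of_exponent_le hN1 ?_
        have := hcb' k hk
        have := min_le_right ca cb
        linarith
      have b3 : C1 k * √(h : ℝ) ^ k * (N : ℝ) ^ (-(c1 k)) + |Tk (at' (k := k) g) N h m| / N ≤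
          √(h : ℝ) ^ k * ((Ca + 1) * (N : ℝ) ^ (-c0)) := by
        have d1 : |Tk (at' (k := k) g) N h m| / N ≤ √(h : ℝ) ^ k * (N : ℝ) ^ (-c0) := by
          rw [div_le_iff₀ hN0]
          refine a2.trans ?_
          have := mul_le_mul_of_nonneg_left b2 (by positivity : 0 ≤ N * √(h : ℝ) ^ k)
          refine this.trans (le_of_eq (by ring))
        have d2 : C1 k * √(h : ℝ) ^ k * (N : ℝ) ^ (-(c1 k)) ≤ √(h : ℝ) ^ k * (Ca * (N : ℝ) ^ (-c0)) := by
          have d3 : C1 k * (N : ℝ) ^ (-(c1 k)) ≤ Ca * (N : ℝ) ^ (-c0) :=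
            mul_le_mul (hCa' k hk) b1 (by positivity) hCa
          have := mul_le_mul_of_nonneg_left d3 hs.le
          refine le_trans (le_of_eq (by ring)) this
        refine (add_le_add d2 d1).trans (le_of_eq (by ring))
      refine b3.trans ?_
      rw [e2]
      -- `(Ca + 1) N^(-c0) ≤ η √κ^k`
      have b4 : (Ca + 1) * (N : ℝ) ^ (-c0) ≤ η * √κ ^ k := by
        have f1 : 1 ≤ K * √κ ^ k := by
          have := mul_le_mul_of_nonneg_right (hK' k hk) (by positivity : 0 ≤ √κ ^ k)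
          rwa [inv_mul_cancel₀ (by positivity)] at this
        have f2 : K * (Ca + 1) * (N : ℝ) ^ (-(c0 / 2)) ≤ η := by
          have g1 : K * (Ca + 1) / η ≤ (N : ℝ) ^ (c0 / 2) := by
            have : (0 : ℝ) ≤ 2 * n + 1 := by positivity
            linarith
          rw [div_le_iff₀ hη0] at g1
          have g2 := mul_le_mul_of_nonneg_right g1 hρ.le
          refine g2.trans (le_of_eq ?_)
          rw [mul_comm ((N : ℝ) ^ (c0 / 2)) η, mul_assoc, mul_comm ((N : ℝ) ^ (c0 / 2)), hinv, mul_one]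
        have f3 : (N : ℝ) ^ (-(c0 / 2)) ≤ 1 :=
          Real.rpow_le_one_of_one_le_of_nonpos hN1 (by linarith)
        have f4 : K * (Ca + 1) * (N : ℝ) ^ (-c0) ≤ η := by
          rw [hsplit]
          have : K * (Ca + 1) * ((N : ℝ) ^ (-(c0 / 2)) * (N : ℝ) ^ (-(c0 / 2))) =
            (K * (Ca + 1) * (N : ℝ) ^ (-(c0 / 2))) * (N : ℝ) ^ (-(c0 / 2)) := by ring
          rw [this]
          have h0 : 0 ≤ K * (Ca + 1) * (N : ℝ) ^ (-(c0 / 2)) := by positivity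
          exact (mul_le_of_le_one_right h0 f3).trans f2
        have f5 : 0 ≤ (Ca + 1) * (N : ℝ) ^ (-c0) := by positivity
        have h0 : 0 ≤ √κ ^ k := by positivity
        calc (Ca + 1) * (N : ℝ) ^ (-c0) ≤ (Ca + 1) * (N : ℝ) ^ (-c0) * (K * √κ ^ k) :=
              le_mul_of_one_le_right f5 f1
          _ = (K * (Ca + 1) * (N : ℝ) ^ (-c0)) * √κ ^ k := by ring
          _ ≤ η * √κ ^ k := mul_le_mul_of_nonneg_right f4 h0
      calc √(h : ℝ) ^ k * ((Ca + 1) * (N : ℝ) ^ (-c0)) ≤ √(h : ℝ) ^ k * (η * √κ ^ k) :=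
            mul_le_mul_of_nonneg_left b4 hs.le
        _ = η * (√κ ^ k * √(h : ℝ) ^ k) := by ring
    have hfin := hemp ℕ (Ico N (2 * N)) (fun x => Wm g h m x / √(κ * h)) η hIne hη0.le hmom t
    rw [hcard] at hfin
    have hCη : C0 * η ≤ δ / 2 := by
      rw [hη, mul_div_assoc', div_le_iff₀ (by positivity)]
      nlinarith
    have : (((Ico N (2 * N)).filter fun x => Wm g h m x / √(κ * h) ≤ t).card : ℝ) =
      (({v ∈ Ico N (2 * N) | Wm g h m v / √(κ * h) ≤ t} : Finset ℕ).card : ℝ) := rfl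
    refine le_trans ?_ (by linarith : 4 / √(n : ℝ) + C0 * η ≤ δ)
    convert hfin using 5

end Pool.Agent.Q152.QT
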