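import Pool.Agent.Q152.QT.LawAll

/-! # From integer windows to windows with real centre and length -/

set_option autoImplicit false

namespace Pool.Agent.Q152.QT

open Finset Pool.Agent.Y293.SF Filter MeasureTheory
open Pool.Agent.Q163.GC (Mf W)

theorem to_real (ε δ : ℝ) (hε : 0 < ε) (hε1 : ε < 1 / 2) (hδ : 0 < δ) : ∃ X₀ : ℝ, 10 ≤ X₀ ∧
    ∀ (f : ℕ → ℝ) (X H : ℝ), X₀ ≤ X → X ^ ε ≤ H → H ≤ X ^ (1 - ε) →
      (∀ h : ℕ, (h = ⌊H⌋₊ ∨ h = ⌊H⌋₊ + 1) →
        (⌊X⌋₊ : ℝ) ^ (ε / 2) ≤ h ∧ (h : ℝ) ≤ (⌊X⌋₊ : ℝ) ^ (1 - ε / 2)) ∧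
      ((∀ h : ℕ, (h = ⌊H⌋₊ ∨ h = ⌊H⌋₊ + 1) → ∀ t : ℝ, |Fc f ⌊X⌋₊ h t - Q282MM.Phi t| ≤ δ / 4) →
        ∀ t : ℝ, |(volume {x : ℝ | x ∈ Set.Icc X (2 * X) ∧ Mf f x H ≤
          t * √(6 / Real.pi ^ 2 * H)}).toReal / X - Q282MM.Phi t| ≤ δ) := by
  obtain ⟨δ1, hδ1, -, hΦ⟩ := Q282LT.Phi_affine (δ / 8) (by positivity)
  set κ : ℝ := 6 / Real.pi ^ 2 with hκ
  have hκ0 : 0 < κ := by positivity
  -- large `X`
  obtain ⟨X1, hX1⟩ : ∃ X1 : ℝ, ∀ X : ℝ, X1 ≤ X → 4 + 2 / δ1 ≤ X ^ (ε / 2) ∧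
      16 / δ ≤ X ^ ε ∧ 80 / δ + 10 ≤ X := by
    have t1 := Filter.tendsto_atTop.1 (tendsto_rpow_atTop (by positivity : 0 < ε / 2)) (4 + 2 / δ1)
    have t3 := Filter.tendsto_atTop.1 (tendsto_rpow_atTop hε) (16 / δ)
    have t4 := eventually_ge_atTop (80 / δ + 10)
    exact (t1.and (t3.and t4)).exists_forall_of_atTop
  refine ⟨max X1 10, le_max_right _ _, fun f X H hX h1 h2 => ?_⟩
  obtain ⟨x1, x3, x4⟩ := hX1 X ((le_max_left _ _).trans hX)
  have hX10 : 10 ≤ X := by
    have : 0 < 80 / δ := by positivity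
    linarith
  have hX0 : 0 < X := by linarith
  have hX1' : 1 ≤ X := by linarith
  have hδ1' : 0 < 2 / δ1 := by positivity
  set N := ⌊X⌋₊ with hN
  have n1 : (N : ℝ) ≤ X := Nat.floor_le hX0.le
  have n2 : X < N + 1 := Nat.lt_floor_add_one X
  have hN1 : (1 : ℝ) ≤ N := by linarith
  have hN0 : (0 : ℝ) < N := by linarith
  have hNX : X / 2 ≤ N := by linarith
  -- the length
  have e1 : X ^ ε = X ^ (ε / 2) * X ^ (ε / 2) := by
    rw [← Real.rpow_add hX0]; congr 1; ring
  have hH16 : 4 * X ^ (ε / 2) ≤ H := by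
    refine le_trans ?_ h1
    rw [e1]
    nlinarith
  have hH4 : 16 ≤ H := by nlinarith
  have hHX : H ≤ X := h2.trans (by
    calc X ^ (1 - ε) ≤ X ^ (1 : ℝ) := Real.rpow_le_rpow_of_exponent_le hX1' (by linarith)
      _ = X := Real.rpow_one _)
  set k := ⌊H⌋₊ with hk
  have k1 : (k : ℝ) ≤ H := Nat.floor_le (by linarith)
  have k2 : H < k + 1 := Nat.lt_floor_add_one H
  have hk0 : (0 : ℝ) < k := by linarith
  have kk : ∀ h : ℕ, (h = k ∨ h = k + 1) → (N : ℝ) ^ (ε / 2) ≤ h ∧ (h : ℝ) ≤ (N : ℝ) ^ (1 - ε / 2) := by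
    intro h hh
    have b1 : (k : ℝ) ≤ h := by
      rcases hh with rfl | rfl
      · exact le_rfl
      · push_cast; linarith
    have b2 : (h : ℝ) ≤ k + 1 := by
      rcases hh with rfl | rfl
      · linarith
      · push_cast; linarith
    constructor
    · have : (N : ℝ) ^ (ε / 2) ≤ X ^ (ε / 2) := Real.rpow_le_rpow hN0.le n1 (by positivity)
      linarith
    · have q1 : (X / 2) ^ (1 - ε / 2) ≤ (N : ℝ) ^ (1 - ε / 2) :=
        Real.rpow_le_rpow (by positivity) hNX (by linarith)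
      have q2 : X ^ (1 - ε / 2) / 2 ≤ (X / 2) ^ (1 - ε / 2) := by
        rw [Real.div_rpow hX0.le (by norm_num)]
        refine div_le_div_of_nonneg_left (by positivity) (by positivity) ?_
        calc (2 : ℝ) ^ (1 - ε / 2) ≤ 2 ^ (1 : ℝ) :=
              Real.rpow_le_rpow_of_exponent_le (by norm_num) (by linarith)
          _ = 2 := Real.rpow_one _
      have q3 : X ^ (1 - ε / 2) = X ^ (1 - ε) * X ^ (ε / 2) := by
        rw [← Real.rpow_add hX0]; congr 1; ring
      have q4 : 1 ≤ X ^ (1 - ε) := Real.one_le_rpow hX1' (by linarith)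
      have q5 : 4 * X ^ (1 - ε) ≤ X ^ (1 - ε) * X ^ (ε / 2) := by nlinarith
      rw [q3] at q2
      linarith
  refine ⟨kk, fun hlaw t => ?_⟩
  set s := t * √(κ * H) with hs
  -- one integer length
  have one : ∀ h : ℕ, (h = k ∨ h = k + 1) → (∀ t : ℝ, |Fc f N h t - Q282MM.Phi t| ≤ δ / 4) →
      |(∑ j ∈ Ico N (2 * N), (fun v : ℝ => if v ≤ s then (1 : ℝ) else 0) (W f j h)) / N -
        Q282MM.Phi t| ≤ 3 * δ / 8 := by
    intro h hh hl
    have b1 : (k : ℝ) ≤ h := by
      rcases hh with rfl | rfl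
      · exact le_rfl
      · push_cast; linarith
    have hh0 : (0 : ℝ) < h := by linarith
    set a := √(H / h) with ha
    have hsq : 0 < √(κ * h) := Real.sqrt_pos.2 (by positivity)
    have e2 : √(κ * H) = a * √(κ * h) := by
      rw [ha, ← Real.sqrt_mul (by positivity)]
      congr 1
      field_simp
    have e3 : (∑ j ∈ Ico N (2 * N), (fun v : ℝ => if v ≤ s then (1 : ℝ) else 0) (W f j h)) / N =
        Fc f N h (a * t) := by
      unfold Fc
      rw [card_filter]
      push_cast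
      congr 1
      refine sum_congr rfl fun j _ => ?_
      have : s = a * t * √(κ * h) := by
        rw [hs, e2]; ring
      rw [this]
    rw [e3]
    have ha1 : |a - 1| ≤ δ1 := by
      have hk1 : 1 / (k : ℝ) ≤ δ1 := by
        rw [div_le_iff₀ hk0]
        have : 2 / δ1 ≤ k := by linarith
        rw [div_le_iff₀ hδ1] at this
        linarith
      have hr1 : H / h ≤ 1 + 1 / k := by
        rw [div_le_iff₀ hh0]
        have : (1 + 1 / (k : ℝ)) * k ≤ (1 + 1 / k) * h :=
          mul_le_mul_of_nonneg_left b1 (by positivity)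
        have e : (1 + 1 / (k : ℝ)) * k = k + 1 := by field_simp
        linarith
      have hr2 : 1 - 1 / k ≤ H / h := by
        rw [le_div_iff₀ hh0]
        have b2 : (h : ℝ) ≤ k + 1 := by
          rcases hh with rfl | rfl
          · linarith
          · push_cast; linarith
        have hk4 : 1 / (k : ℝ) ≤ 1 := by
          rw [div_le_one hk0]; linarith
        have : (1 - 1 / (k : ℝ)) * h ≤ (1 - 1 / k) * (k + 1) :=
          mul_le_mul_of_nonneg_left b2 (by linarith)
        have e : (1 - 1 / (k : ℝ)) * (k + 1) = k - 1 / k := by field_simp; ring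
        have : 0 < 1 / (k : ℝ) := by positivity
        linarith
      have hk5 : 0 < 1 / (k : ℝ) := by positivity
      exact (sqrt_close (H / h) (1 / k) hk5 hr2 hr1).trans hk1
    have p1 := hl (a * t)
    have p2 := hΦ a 0 t ha1 (by simpa using hδ1.le)
    rw [add_zero] at p2
    rw [abs_le] at p1 p2 ⊢
    constructor <;> linarith [p1.1, p1.2, p2.1, p2.2]
  have o1 := one k (Or.inl rfl) (hlaw k (Or.inl rfl))
  have o2 := one (k + 1) (Or.inr rfl) (hlaw (k + 1) (Or.inr rfl))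
  have ri := real_int f (fun v : ℝ => if v ≤ s then (1 : ℝ) else 0)
    (fun v => by split_ifs <;> norm_num)
    (fun v => by split_ifs <;> norm_num) X H (by linarith) hHX
  rw [← meas_int f X H s hX0] at ri
  rw [← hN, ← hk] at ri
  set S1 := ∑ j ∈ Ico N (2 * N), (fun v : ℝ => if v ≤ s then (1 : ℝ) else 0) (W f j k) with hS1
  set S2 := ∑ j ∈ Ico N (2 * N), (fun v : ℝ => if v ≤ s then (1 : ℝ) else 0) (W f j (k + 1)) with hS2
  set V := (volume {x : ℝ | x ∈ Set.Icc X (2 * X) ∧ Mf f x H ≤ s}).toReal with hV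
  set θ := H - (k : ℝ) with hθ
  have θ0 : 0 ≤ θ := by rw [hθ]; linarith
  have θ1 : θ ≤ 1 := by rw [hθ]; linarith
  have hcard : ((Ico N (2 * N)).card : ℝ) = N := by
    rw [Nat.card_Ico]
    congr 1
    omega
  have S1b : 0 ≤ S1 ∧ S1 ≤ N := by
    constructor
    · exact sum_nonneg fun _ _ => by simp only; split_ifs <;> norm_num
    · rw [hS1]
      refine (sum_le_sum (g := fun _ => (1 : ℝ)) fun j _ => by simp only; split_ifs <;> norm_num).trans ?_
      rw [sum_const, nsmul_eq_mul, mul_one, hcard]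
  have S2b : 0 ≤ S2 ∧ S2 ≤ N := by
    constructor
    · exact sum_nonneg fun _ _ => by simp only; split_ifs <;> norm_num
    · rw [hS2]
      refine (sum_le_sum (g := fun _ => (1 : ℝ)) fun j _ => by simp only; split_ifs <;> norm_num).trans ?_
      rw [sum_const, nsmul_eq_mul, mul_one, hcard]
  set S := (1 - θ) * S1 + θ * S2 with hSdef
  have hSN : |S / N - Q282MM.Phi t| ≤ 3 * δ / 8 := by
    have e4 : S / N - Q282MM.Phi t = (1 - θ) * (S1 / N - Q282MM.Phi t) + θ * (S2 / N - Q282MM.Phi t) := by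
      rw [hSdef]; field_simp; ring
    rw [e4]
    refine (abs_add_le _ _).trans ?_
    rw [abs_mul, abs_mul, abs_of_nonneg (by linarith : 0 ≤ 1 - θ), abs_of_nonneg θ0]
    have := mul_le_mul_of_nonneg_left o1 (by linarith : 0 ≤ 1 - θ)
    have := mul_le_mul_of_nonneg_left o2 θ0
    linarith
  have hS0 : 0 ≤ S ∧ S ≤ N := by
    have t1 : 0 ≤ 1 - θ := by linarith
    constructor
    · have := mul_nonneg t1 S1b.1
      have := mul_nonneg θ0 S2b.1
      rw [hSdef]; linarith
    · have := mul_le_mul_of_nonneg_left S1b.2 t1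
      have := mul_le_mul_of_nonneg_left S2b.2 θ0
      rw [hSdef]; linarith
  have hSX : |S / X - S / N| ≤ 1 / X := by
    have e5 : S / N - S / X = (S / N) * ((X - N) / X) := by field_simp
    rw [abs_sub_comm, e5, abs_mul, abs_of_nonneg (div_nonneg hS0.1 hN0.le),
      abs_of_nonneg (div_nonneg (by linarith) hX0.le)]
    have f1 : S / N ≤ 1 := (div_le_one hN0).2 hS0.2
    have f2 : (X - N) / X ≤ 1 / X := div_le_div_of_nonneg_right (by linarith) hX0.le
    calc S / N * ((X - N) / X) ≤ 1 * (1 / X) :=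
          mul_le_mul f1 f2 (div_nonneg (by linarith) hX0.le) (by norm_num)
      _ = 1 / X := one_mul _
  have hVX : |V / X - S / X| ≤ (H + 8) / X := by
    rw [← sub_div, abs_div, abs_of_pos hX0]
    exact div_le_div_of_nonneg_right ri hX0.le
  have hsmall : (H + 8) / X + 1 / X ≤ δ / 4 := by
    have f1 : H / X ≤ δ / 16 := by
      have g1 : H / X ≤ X ^ (-ε) := by
        rw [div_le_iff₀ hX0]
        refine h2.trans (le_of_eq ?_)
        nth_rewrite 3 [← Real.rpow_one X]
        rw [← Real.rpow_add hX0]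
        congr 1
        ring
      have g2 : X ^ (-ε) ≤ δ / 16 := by
        rw [Real.rpow_neg hX0.le]
        rw [inv_le_comm₀ (by positivity) (by positivity)]
        rw [inv_div]
        exact x3
      exact g1.trans g2
    have f2 : 9 / X ≤ 9 * δ / 80 := by
      rw [div_le_div_iff₀ hX0 (by norm_num)]
      have : 80 / δ ≤ X := by linarith
      rw [div_le_iff₀ hδ] at this
      nlinarith
    have f3 : (H + 8) / X + 1 / X = H / X + 9 / X := by ring
    rw [f3]
    linarith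
  have e6 : V / X - Q282MM.Phi t = (V / X - S / X) + (S / X - S / N) + (S / N - Q282MM.Phi t) := by ring
  rw [e6]
  refine (abs_add_three _ _ _).trans ?_
  linarith

end Pool.Agent.Q152.QT
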