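import Pool.Agent.Q152.QT.Var
import Pool.Agent.Q163.CL.Var

/-! # The square products -/

set_option autoImplicit false

namespace Pool.Agent.Q152.QT

open Finset Pool.Agent.Y293.SF

/-- the twisted function -/
noncomputable def fm (g : ℕ → ℝ) (m n : ℕ) : ℝ := g n * mu n * ((jacobiSym (n : ℤ) m : ℤ) : ℝ)

/-- the sum over the window -/
noncomputable def Wm (g : ℕ → ℝ) (h m x : ℕ) : ℝ := ∑ n ∈ Ioc x (x + h), fm g m n

/-- the coefficient of a tuple -/
noncomputable def at' (g : ℕ → ℝ) {k : ℕ} (t : Fin k → ℕ) : ℝ := ∏ i, (g (t i) * mu (t i))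

lemma mu_abs (n : ℕ) : |mu n| ≤ 1 := by
  unfold mu
  have := ArithmeticFunction.abs_moebius_le_one (n := n)
  exact_mod_cast this

lemma mu_sqf {n : ℕ} (h : Squarefree n) : mu n ^ 2 = 1 := by
  rw [Pool.Agent.Q163.GC.mu_sq, if_pos h]

lemma mu_nsqf {n : ℕ} (h : ¬ Squarefree n) : mu n = 0 := by
  have := Pool.Agent.Q163.GC.mu_sq n
  rw [if_neg h] at this
  exact pow_eq_zero_iff (two_ne_zero) |>.1 this

lemma at_abs {g : ℕ → ℝ} (hg : ∀ n, g n = 1 ∨ g n = -1) {k : ℕ} (t : Fin k → ℕ) : |at' g t| ≤ 1 := by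
  unfold at'
  rw [abs_prod]
  refine prod_le_one (fun _ _ => abs_nonneg _) fun i _ => ?_
  rw [abs_mul]
  have : |g (t i)| = 1 := by rcases hg (t i) with h | h <;> rw [h] <;> simp
  rw [this, one_mul]
  exact mu_abs _

lemma Wm_eq (g : ℕ → ℝ) (h m x : ℕ) : Wm g h m x = ∑ n ∈ Sf x h, fm g m n := by
  unfold Wm Sf
  rw [sum_filter_of_ne]
  intro n _ hn
  by_contra hc
  apply hn
  unfold fm
  rw [mu_nsqf hc]
  ring

lemma Wm_pow (g : ℕ → ℝ) (h m x k : ℕ) : Wm g h m x ^ k =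
    ∑ t ∈ Fintype.piFinset fun _ : Fin k => Sf x h,
      at' g t * ((jacobiSym ((∏ i, t i : ℕ) : ℤ) m : ℤ) : ℝ) := by
  have h1 : Wm g h m x ^ k = ∏ _i : Fin k, ∑ n ∈ Sf x h, fm g m n := by
    rw [prod_const, card_univ, Fintype.card_fin, Wm_eq]
  rw [h1, prod_univ_sum]
  refine sum_congr rfl fun t _ => ?_
  unfold fm at'
  rw [prod_mul_distrib]
  congr 1
  have h2 : ∀ s : Finset (Fin k), ∏ i ∈ s, ((jacobiSym (t i : ℤ) m : ℤ) : ℝ) =
      ((jacobiSym ((∏ i ∈ s, t i : ℕ) : ℤ) m : ℤ) : ℝ) := by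
    intro s
    induction s using Finset.induction_on with
    | empty => simp
    | insert i s hi ih =>
      rw [prod_insert hi, prod_insert hi, ih, Nat.cast_mul, jacobiSym.mul_left]
      push_cast
      ring
  exact h2 univ

/-- coprime to all the integers up to `3 N` -/
def Cop (N m : ℕ) : Prop := ∀ n, 1 ≤ n → n ≤ 3 * N → Nat.Coprime n m

lemma jac_square {k h x N m : ℕ} (hm : Cop N m) (hx : x ∈ Ico N (2 * N)) (hh : h ≤ N)
    {t : Fin k → ℕ} (ht : t ∈ Fintype.piFinset fun _ : Fin k => Sf x h)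
    (hsq : IsSquare (∏ i, t i)) : jacobiSym ((∏ i, t i : ℕ) : ℤ) m = 1 := by
  have hc : Nat.Coprime (∏ i, t i) m := by
    refine Nat.Coprime.prod_left fun i _ => ?_
    have h2 := (mem_Sf.1 ((Fintype.mem_piFinset.1 ht) i)).1
    have := mem_Ico.1 hx
    exact hm _ (by omega) (by omega)
  obtain ⟨r, hr⟩ := hsq
  rw [hr] at hc ⊢
  have hr' : Nat.Coprime r m := Nat.Coprime.coprime_mul_right hc
  push_cast
  rw [← sq]
  exact jacobiSym.sq_one' (by exact_mod_cast hr')

lemma even_prod {ι : Type} [Fintype ι] {t : ι → ℕ} (ht : EvenT t) (φ : ℕ → ℝ)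
    (hφ : ∀ i, φ (t i) ^ 2 = 1) : ∏ i, φ (t i) = 1 := by
  classical
  rw [← prod_fiberwise_of_maps_to (s := univ) (t := univ.image t) (g := t)
    (fun i _ => mem_image_of_mem t (mem_univ i)) (fun i => φ (t i))]
  refine prod_eq_one fun v hv => ?_
  obtain ⟨i0, -, rfl⟩ := mem_image.1 hv
  have h1 : ∏ i ∈ univ.filter (fun i => t i = t i0), φ (t i) =
      φ (t i0) ^ (univ.filter (fun i => t i = t i0)).card := by
    rw [← prod_const]
    refine prod_congr rfl fun i hi => ?_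
    rw [(mem_filter.1 hi).2]
  rw [h1]
  have h2 := ht (t i0)
  rw [Nat.card_eq_fintype_card, Fintype.card_subtype] at h2
  obtain ⟨r, hr⟩ := h2
  rw [hr, ← two_mul, pow_mul, hφ, one_pow]

lemma even_square {ι : Type} [Fintype ι] {t : ι → ℕ} (ht : EvenT t) : IsSquare (∏ i, t i) := by
  classical
  rw [← prod_fiberwise_of_maps_to (s := univ) (t := univ.image t) (g := t)
    (fun i _ => mem_image_of_mem t (mem_univ i)) (fun i => t i)]
  refine Finset.isSquare_prod _ fun v hv => ?_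
  obtain ⟨i0, -, rfl⟩ := mem_image.1 hv
  have h1 : ∏ i ∈ univ.filter (fun i => t i = t i0), t i =
      (t i0) ^ (univ.filter (fun i => t i = t i0)).card := by
    rw [← prod_const]
    refine prod_congr rfl fun i hi => ?_
    rw [(mem_filter.1 hi).2]
  rw [h1]
  have h2 := ht (t i0)
  rw [Nat.card_eq_fintype_card, Fintype.card_subtype] at h2
  exact Even.isSquare_pow h2 _

open Classical in
/-- the tuples with a square product that are not even -/
noncomputable def Ot (k h x : ℕ) : Finset (Fin k → ℕ) :=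
  (Fintype.piFinset fun _ : Fin k => Sf x h).filter fun t => IsSquare (∏ i, t i) ∧ ¬ EvenT t

lemma Wm_mean {g : ℕ → ℝ} (hg : ∀ n, g n = 1 ∨ g n = -1) {k h N m : ℕ} (hm : Cop N m) (hh : h ≤ N) :
    |∑ x ∈ Ico N (2 * N), Wm g h m x ^ k - ∑ x ∈ Ico N (2 * N), (Ek k (Sf x h) : ℝ)| ≤
      ∑ x ∈ Ico N (2 * N), ((Ot k h x).card : ℝ) + |Tk (at' (k := k) g) N h m| := by
  classical
  have e1 : ∀ x ∈ Ico N (2 * N), |Wm g h m x ^ k - (Ek k (Sf x h) : ℝ) -
      ∑ t ∈ Bt k h x, at' g t * ((jacobiSym ((∏ i, t i : ℕ) : ℤ) m : ℤ) : ℝ)| ≤ ((Ot k h x).card : ℝ) := by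
    intro x hx
    set A := Fintype.piFinset fun _ : Fin k => Sf x h with hA
    set F : (Fin k → ℕ) → ℝ := fun t => at' g t * ((jacobiSym ((∏ i, t i : ℕ) : ℤ) m : ℤ) : ℝ) with hF
    have h1 : Wm g h m x ^ k = ∑ t ∈ A.filter (fun t => IsSquare (∏ i, t i)), F t +
        ∑ t ∈ Bt k h x, F t := by
      rw [Wm_pow, Bt, sum_filter_add_sum_filter_not]
    have h2 : ∑ t ∈ A.filter (fun t => IsSquare (∏ i, t i)), F t =
        ∑ t ∈ A.filter (fun t => EvenT t), F t + ∑ t ∈ Ot k h x, F t := by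
      rw [← sum_filter_add_sum_filter_not (A.filter (fun t => IsSquare (∏ i, t i))) (fun t => EvenT t),
        filter_filter, filter_filter]
      congr 1
      refine sum_congr ?_ fun _ _ => rfl
      refine filter_congr fun t _ => ?_
      exact ⟨fun h => h.2, fun h => ⟨even_square h, h⟩⟩
    have h3 : ∑ t ∈ A.filter (fun t => EvenT t), F t = (Ek k (Sf x h) : ℝ) := by
      unfold Ek
      rw [card_eq_sum_ones]
      push_cast
      refine sum_congr rfl fun t ht => ?_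
      rw [mem_filter] at ht
      rw [hF]
      simp only
      rw [jac_square hm hx hh ht.1 (even_square ht.2)]
      unfold at'
      rw [even_prod ht.2 (fun n => g n * mu n) ?_]
      · simp
      · intro i
        have h4 := (mem_Sf.1 ((Fintype.mem_piFinset.1 ht.1) i)).2
        rw [mul_pow, mu_sqf h4]
        rcases hg (t i) with h | h <;> rw [h] <;> norm_num
    have h5 : |∑ t ∈ Ot k h x, F t| ≤ ((Ot k h x).card : ℝ) := by
      refine (abs_sum_le_sum_abs _ _).trans ?_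
      have : ∀ t ∈ Ot k h x, |F t| ≤ 1 := by
        intro t _
        rw [hF]
        simp only
        rw [abs_mul]
        refine mul_le_one₀ (at_abs hg t) (abs_nonneg _) ?_
        rcases jacobiSym.trichotomy ((∏ i, t i : ℕ) : ℤ) m with h | h | h <;> rw [h] <;> simp
      refine (sum_le_sum this).trans ?_
      simp
    rw [h1, h2, h3]
    have : (Ek k (Sf x h) : ℝ) + ∑ t ∈ Ot k h x, F t + ∑ t ∈ Bt k h x, F t - (Ek k (Sf x h) : ℝ) -
      ∑ t ∈ Bt k h x, F t = ∑ t ∈ Ot k h x, F t := by ring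
    rw [this]
    exact h5
  have e2 : ∑ x ∈ Ico N (2 * N), Wm g h m x ^ k - ∑ x ∈ Ico N (2 * N), (Ek k (Sf x h) : ℝ) =
      ∑ x ∈ Ico N (2 * N), (Wm g h m x ^ k - (Ek k (Sf x h) : ℝ) -
        ∑ t ∈ Bt k h x, at' g t * ((jacobiSym ((∏ i, t i : ℕ) : ℤ) m : ℤ) : ℝ)) +
      Tk (at' (k := k) g) N h m := by
    unfold Tk
    rw [sum_sub_distrib, sum_sub_distrib]
    ring
  rw [e2]
  refine (abs_add_le _ _).trans ?_
  refine add_le_add_left ?_ _
  exact (abs_sum_le_sum_abs _ _).trans (sum_le_sum e1)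

end Pool.Agent.Q152.QT
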