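import Pool.Agent.Q152.QT.StmX
import Pool.Agent.Q152.QT.Diag

/-! # Polynomial phases: all intervals, all heights -/

set_option autoImplicit false

namespace Pool.Agent.Q152.QT

open Finset Filter
open Pool.Agent.Y293.SF (mu)

/-- `e (F n)` -/
noncomputable def eF (F : Polynomial ℝ) (n : ℕ) : ℂ :=
  Complex.exp ((2 * Real.pi * F.eval (n : ℝ) : ℝ) * Complex.I)

/-- `g(n) μ(n) (n / m)` -/
noncomputable def fc (g : ℕ → ℂ) (m n : ℕ) : ℂ :=
  g n * ((mu n : ℝ) : ℂ) * ((jacobiSym (n : ℤ) m : ℤ) : ℂ)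

lemma norm_jac (n m : ℕ) : ‖((jacobiSym (n : ℤ) m : ℤ) : ℂ)‖ ≤ 1 := by
  rcases jacobiSym.trichotomy (n : ℤ) m with h | h | h <;> rw [h] <;> norm_num

lemma norm_mu (n : ℕ) : ‖((mu n : ℝ) : ℂ)‖ ≤ 1 := by
  rw [Complex.norm_real, Real.norm_eq_abs]
  exact mu_abs n

lemma norm_fc (g : ℕ → ℂ) (hg : ∀ n, ‖g n‖ ≤ 1) (m n : ℕ) : ‖fc g m n‖ ≤ 1 := by
  unfold fc
  rw [norm_mul, norm_mul]
  exact mul_le_one₀ (mul_le_one₀ (hg n) (norm_nonneg _) (norm_mu n)) (norm_nonneg _) (norm_jac n m)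

lemma norm_eF (F : Polynomial ℝ) (n : ℕ) : ‖eF F n‖ = 1 := by
  unfold eF
  exact Complex.norm_exp_ofReal_mul_I _

open Classical in
/-- one scale -/
theorem one_scale (h1 : S_MomC) (h2 : S_Net) (d : ℕ) (ε : ℝ) (hε : 0 < ε) (B : ℕ) :
    ∃ A N₀ : ℕ, 1 ≤ A ∧ 1 ≤ N₀ ∧ ∀ (g : ℕ → ℂ) (N P : ℕ), (∀ n, ‖g n‖ ≤ 1) → N₀ ≤ N → N ^ A ≤ P →
      ∃ E : Finset ℕ, (E.card : ℝ) ≤ P / (N : ℝ) ^ B ∧ ∀ m ≤ P, Odd m → m ∉ E →
        ∀ x ∈ Ico N (2 * N), ∀ h ≤ N, ∀ F : Polynomial ℝ, F.natDegree ≤ d →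
          ‖∑ n ∈ Ioc x (x + h), fc g m n * eF F n‖ ≤ √(h : ℝ) * (N : ℝ) ^ ε := by
  obtain ⟨C, D, HN⟩ := h2 d
  obtain ⟨k, hk⟩ := exists_nat_ge (((D : ℝ) + B + 4) / ε)
  have hkε : (D : ℝ) + B + 4 ≤ k * ε := by
    rwa [div_le_iff₀ hε] at hk
  obtain ⟨C1, hC1, HM⟩ := h1 k 1 one_pos
  obtain ⟨N1, hN1⟩ : ∃ N1 : ℕ, ∀ N : ℕ, N1 ≤ N → 2 ≤ (N : ℝ) ^ ε := by
    have := (tendsto_rpow_atTop hε).comp tendsto_natCast_atTop_atTop
    exact (Filter.tendsto_atTop.1 this 2).exists_forall_of_atTop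
  set K : ℝ := C * (4 ^ k * (C1 + 4 * 9 ^ k)) with hK
  have hK0 : 0 ≤ K := by positivity
  obtain ⟨N2, hN2⟩ := exists_nat_ge K
  refine ⟨3 * k + 1, max (max N1 N2) 1, by omega, le_max_right _ _, fun g N P hg hN hNP => ?_⟩
  have hN1' := hN1 N ((le_max_left _ _).trans ((le_max_left _ _).trans hN))
  have hN2' : K ≤ N := hN2.trans (by
    exact_mod_cast (le_max_right _ _).trans ((le_max_left _ _).trans hN))
  have hN1n : 1 ≤ N := (le_max_right _ _).trans hN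
  have hNR : (1 : ℝ) ≤ N := by exact_mod_cast hN1n
  have hN0 : (0 : ℝ) < N := by linarith
  have hP0 : (0 : ℝ) ≤ P := Nat.cast_nonneg _
  obtain ⟨Φ, hΦ1, hΦ2, hΦ3⟩ := HN N hN1n
  set O : Finset ℕ := (range (P + 1)).filter (fun m => Odd m) with hO
  -- the bad moduli for one window and one phase
  set bad : ℕ × ℕ × (ℕ → ℂ) → Finset ℕ := fun t => O.filter fun m =>
    √(t.2.1 : ℝ) * (N : ℝ) ^ ε / 2 < ‖∑ n ∈ Ioc t.1 (t.1 + t.2.1), g n * ((mu n : ℝ) : ℂ) * t.2.2 n *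
      ((jacobiSym (n : ℤ) m : ℤ) : ℂ)‖ with hbad
  set I : Finset (ℕ × ℕ × (ℕ → ℂ)) := (Ico N (2 * N)) ×ˢ ((Icc 1 N) ×ˢ Φ) with hI
  have hNk : (N : ℝ) ^ (2 * (D + B + 4)) ≤ ((N : ℝ) ^ ε) ^ (2 * k) := by
    rw [← Real.rpow_natCast ((N : ℝ) ^ ε), ← Real.rpow_mul hN0.le, ← Real.rpow_natCast]
    refine Real.rpow_le_rpow_of_exponent_le hNR ?_
    push_cast
    nlinarith
  have hb : ∀ t ∈ I, ((bad t).card : ℝ) ≤ 4 ^ k * (C1 + 4 * 9 ^ k) * (P * N) / (N : ℝ) ^ (2 * (D + B + 4)) := by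
    rintro ⟨x, h, φ⟩ ht
    rw [hI, mem_product, mem_product, mem_Icc] at ht
    obtain ⟨hx, ⟨hh1, hhN⟩, hφ⟩ := ht
    dsimp only at hx hh1 hhN hφ
    have hhR : (1 : ℝ) ≤ h := by exact_mod_cast hh1
    have hh0 : (0 : ℝ) < h := by linarith
    have hhN' : (h : ℝ) ≤ N := by exact_mod_cast hhN
    have hm := HM (fun n => g n * ((mu n : ℝ) : ℂ) * φ n) N h x P (fun n => by
      rw [norm_mul, norm_mul]
      exact mul_le_one₀ (mul_le_one₀ (hg n) (norm_nonneg _) (norm_mu n)) (norm_nonneg _) (hΦ2 φ hφ n))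
      (fun n hn => by
        by_contra hs
        apply hn
        have : mu n = 0 := by
          unfold mu
          rw [ArithmeticFunction.moebius_eq_zero_of_not_squarefree hs]
          norm_num
        rw [this]
        simp) hh1 hhN hx
    rw [Real.rpow_one] at hm
    set T : ℝ := √(h : ℝ) * (N : ℝ) ^ ε / 2 with hT
    have hT0 : 0 < T := by
      rw [hT]
      have : 0 < √(h : ℝ) := Real.sqrt_pos.2 hh0
      positivity
    have hT2 : T ^ (2 * k) = (h : ℝ) ^ k * ((N : ℝ) ^ ε) ^ (2 * k) / 4 ^ k := by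
      rw [hT, div_pow, mul_pow, pow_mul √(h : ℝ), Real.sq_sqrt hh0.le, pow_mul (2 : ℝ)]
      norm_num
    have c1 : ((bad (x, h, φ)).card : ℝ) * T ^ (2 * k) ≤
        P * (C1 * (h : ℝ) ^ k * N) + 4 * (3 * (N : ℝ)) ^ (2 * k) * (h : ℝ) ^ (2 * k) := by
      refine le_trans ?_ hm
      rw [← nsmul_eq_mul, ← sum_const]
      refine (sum_le_sum (g := fun m => ‖∑ n ∈ Ioc x (x + h), g n * ((mu n : ℝ) : ℂ) * φ n *
        ((jacobiSym (n : ℤ) m : ℤ) : ℂ)‖ ^ (2 * k)) fun m hm' => ?_).trans ?_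
      · exact pow_le_pow_left₀ hT0.le (mem_filter.1 hm').2.le _
      · exact sum_le_sum_of_subset_of_nonneg (filter_subset _ _) fun _ _ _ => by positivity
    have c2 : P * (C1 * (h : ℝ) ^ k * N) + 4 * (3 * (N : ℝ)) ^ (2 * k) * (h : ℝ) ^ (2 * k) ≤
        (h : ℝ) ^ k * ((C1 + 4 * 9 ^ k) * (P * N)) := by
      have e1 : (3 * (N : ℝ)) ^ (2 * k) = 9 ^ k * (N : ℝ) ^ (2 * k) := by
        rw [mul_pow, pow_mul (3 : ℝ)]
        norm_num
      have e2 : (h : ℝ) ^ (2 * k) = (h : ℝ) ^ k * (h : ℝ) ^ k := by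
        rw [← pow_add]; congr 1; ring
      have e3 : (N : ℝ) ^ (2 * k) * (h : ℝ) ^ k ≤ P * N := by
        calc (N : ℝ) ^ (2 * k) * (h : ℝ) ^ k ≤ (N : ℝ) ^ (2 * k) * (N : ℝ) ^ k :=
              mul_le_mul_of_nonneg_left (pow_le_pow_left₀ hh0.le hhN' k) (by positivity)
          _ = (N : ℝ) ^ (3 * k) := by rw [← pow_add]; congr 1; ring
          _ ≤ (N : ℝ) ^ (3 * k + 1) := pow_le_pow_right₀ hNR (by omega)
          _ ≤ P := by exact_mod_cast hNP
          _ ≤ P * N := le_mul_of_one_le_right hP0 hNR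
      rw [e1, e2]
      have e4 : 4 * (9 ^ k * (N : ℝ) ^ (2 * k)) * ((h : ℝ) ^ k * (h : ℝ) ^ k) =
          (h : ℝ) ^ k * (4 * 9 ^ k * ((N : ℝ) ^ (2 * k) * (h : ℝ) ^ k)) := by ring
      rw [e4]
      have e5 : P * (C1 * (h : ℝ) ^ k * N) = (h : ℝ) ^ k * (C1 * (P * N)) := by ring
      rw [e5, ← mul_add]
      refine mul_le_mul_of_nonneg_left ?_ (by positivity)
      have := mul_le_mul_of_nonneg_left e3 (by positivity : (0 : ℝ) ≤ 4 * 9 ^ k)
      linarith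
    have c3 : ((bad (x, h, φ)).card : ℝ) * ((N : ℝ) ^ ε) ^ (2 * k) ≤ 4 ^ k * (C1 + 4 * 9 ^ k) * (P * N) := by
      have c4 := c1.trans c2
      rw [hT2] at c4
      have hhk : 0 < (h : ℝ) ^ k := by positivity
      have c5 : (h : ℝ) ^ k * (((bad (x, h, φ)).card : ℝ) * ((N : ℝ) ^ ε) ^ (2 * k) / 4 ^ k) ≤
          (h : ℝ) ^ k * ((C1 + 4 * 9 ^ k) * (P * N)) := by
        refine le_trans (le_of_eq ?_) c4
        ring
      have c6 := le_of_mul_le_mul_left c5 hhk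
      rw [div_le_iff₀ (by positivity)] at c6
      refine c6.trans (le_of_eq ?_)
      ring
    rw [le_div_iff₀ (by positivity)]
    exact (mul_le_mul_of_nonneg_left hNk (Nat.cast_nonneg _)).trans c3
  refine ⟨I.biUnion bad, ?_, fun m hmP hmo hmE x hx h hh F hF => ?_⟩
  · have c1 : ((I.biUnion bad).card : ℝ) ≤ ∑ t ∈ I, ((bad t).card : ℝ) := by
      exact_mod_cast card_biUnion_le
    have c2 := c1.trans (sum_le_sum hb)
    rw [sum_const, nsmul_eq_mul] at c2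
    have c3 : (I.card : ℝ) ≤ N * (N * (C * (N : ℝ) ^ D)) := by
      rw [hI, card_product, card_product, Nat.card_Ico, Nat.card_Icc]
      have e1 : 2 * N - N = N := by omega
      rw [e1, Nat.add_sub_cancel]
      push_cast
      have : (Φ.card : ℝ) ≤ C * (N : ℝ) ^ D := by exact_mod_cast hΦ1
      exact mul_le_mul_of_nonneg_left (mul_le_mul_of_nonneg_left this hN0.le) hN0.le
    refine c2.trans ?_
    rw [le_div_iff₀ (by positivity)]
    have hq : (0 : ℝ) < (N : ℝ) ^ (2 * (D + B + 4)) := by positivity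
    have hZ : (0 : ℝ) ≤ 4 ^ k * (C1 + 4 * 9 ^ k) * (P * N) / (N : ℝ) ^ (2 * (D + B + 4)) := by positivity
    calc (I.card : ℝ) * (4 ^ k * (C1 + 4 * 9 ^ k) * (P * N) / (N : ℝ) ^ (2 * (D + B + 4))) * (N : ℝ) ^ B
        ≤ (N * (N * (C * (N : ℝ) ^ D))) * (4 ^ k * (C1 + 4 * 9 ^ k) * (P * N) /
          (N : ℝ) ^ (2 * (D + B + 4))) * (N : ℝ) ^ B :=
          mul_le_mul_of_nonneg_right (mul_le_mul_of_nonneg_right c3 hZ) (by positivity)
      _ = (K * P) * ((N : ℝ) ^ (D + B + 3) / (N : ℝ) ^ (2 * (D + B + 4))) := by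
          rw [hK, pow_add (N : ℝ) (D + B) 3, pow_add (N : ℝ) D B]
          ring
      _ = (K * P) * (1 / (N : ℝ) ^ (D + B + 5)) := by
          congr 1
          rw [div_eq_div_iff (by positivity) (by positivity), one_mul, ← pow_add]
          congr 1
          ring
      _ ≤ (N * P) * (1 / (N : ℝ)) := by
          refine mul_le_mul (mul_le_mul_of_nonneg_right hN2' hP0) ?_ (by positivity) (by positivity)
          exact one_div_le_one_div_of_le hN0 (le_self_pow₀ hNR (by omega))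
      _ = P := by field_simp
  · rcases Nat.eq_zero_or_pos h with rfl | hh1
    · simp
    obtain ⟨φ, hφ, ha⟩ := hΦ3 F hF
    have hhR : (1 : ℝ) ≤ h := by exact_mod_cast hh1
    have hh0 : (0 : ℝ) < h := by linarith
    have hhN' : (h : ℝ) ≤ N := by exact_mod_cast hh
    rw [mem_Ico] at hx
    have hmb : m ∉ bad (x, h, φ) := by
      intro hm
      refine hmE (mem_biUnion.2 ⟨(x, h, φ), ?_, hm⟩)
      rw [hI, mem_product, mem_product, mem_Icc, mem_Ico]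
      exact ⟨hx, ⟨hh1, hh⟩, hφ⟩
    have b1 : ‖∑ n ∈ Ioc x (x + h), g n * ((mu n : ℝ) : ℂ) * φ n *
        ((jacobiSym (n : ℤ) m : ℤ) : ℂ)‖ ≤ √(h : ℝ) * (N : ℝ) ^ ε / 2 := by
      by_contra hcon
      apply hmb
      rw [hbad, mem_filter, hO, mem_filter, mem_range]
      exact ⟨⟨by omega, hmo⟩, not_le.1 hcon⟩
    have b2 : ‖∑ n ∈ Ioc x (x + h), fc g m n * (eF F n - φ n)‖ ≤ 1 := by
      refine (norm_sum_le _ _).trans ?_
      have : ∀ n ∈ Ioc x (x + h), ‖fc g m n * (eF F n - φ n)‖ ≤ 1 / N := by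
        intro n hn
        rw [mem_Ioc] at hn
        rw [norm_mul]
        have h3 := ha n (by omega)
        calc ‖fc g m n‖ * ‖eF F n - φ n‖ ≤ 1 * (1 / N) :=
              mul_le_mul (norm_fc g hg m n) h3 (norm_nonneg _) zero_le_one
          _ = 1 / N := one_mul _
      refine (sum_le_sum this).trans ?_
      rw [sum_const, Nat.card_Ioc, nsmul_eq_mul, Nat.add_sub_cancel_left, mul_one_div, div_le_one hN0]
      exact hhN'
    have b3 : ∑ n ∈ Ioc x (x + h), fc g m n * eF F n =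
        ∑ n ∈ Ioc x (x + h), g n * ((mu n : ℝ) : ℂ) * φ n * ((jacobiSym (n : ℤ) m : ℤ) : ℂ) +
        ∑ n ∈ Ioc x (x + h), fc g m n * (eF F n - φ n) := by
      rw [← sum_add_distrib]
      refine sum_congr rfl fun n _ => ?_
      unfold fc
      ring
    rw [b3]
    refine (norm_add_le _ _).trans ?_
    have hs1 : 1 ≤ √(h : ℝ) := Real.one_le_sqrt.2 hhR
    have : 2 ≤ √(h : ℝ) * (N : ℝ) ^ ε := by nlinarith
    linarith

/-- from windows at dyadic heights to all intervals -/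
theorem dyadic (f : ℕ → ℂ) (hf : ∀ n, ‖f n‖ ≤ 1) (z : ℕ) (R : ℝ) (hR : 0 ≤ R) (X : ℝ)
    (hw : ∀ i : ℕ, z ≤ i → ((2 ^ i : ℕ) : ℝ) ≤ X → ∀ x : ℕ, x ∈ Ico (2 ^ i) (2 * 2 ^ i) → ∀ h : ℕ,
      h ≤ 2 ^ i → ‖∑ n ∈ Ioc x (x + h), f n‖ ≤ √(h : ℝ) * R) :
    ∀ J : ℕ, ∀ u v : ℕ, u ≤ v → v ≤ 2 ^ (z + J) → (v : ℝ) ≤ X →
      ‖∑ n ∈ Ioc u v, f n‖ ≤ √((v : ℝ) - u) * (√((2 : ℝ) ^ z) + J * R) := by
  intro J
  induction J with
  | zero =>
    intro u v huv hv _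
    have huv' : (0 : ℝ) ≤ (v : ℝ) - u := by
      have : (u : ℝ) ≤ v := by exact_mod_cast huv
      linarith
    have h1 : ‖∑ n ∈ Ioc u v, f n‖ ≤ (v : ℝ) - u := by
      refine (norm_sum_le _ _).trans ((sum_le_sum fun n _ => hf n).trans ?_)
      rw [sum_const, Nat.card_Ioc, nsmul_eq_mul, mul_one, Nat.cast_sub huv]
    have h2 : √((v : ℝ) - u) ≤ √((2 : ℝ) ^ z) := by
      apply Real.sqrt_le_sqrt
      have : (v : ℝ) ≤ 2 ^ z := by exact_mod_cast hv
      have : (0 : ℝ) ≤ u := Nat.cast_nonneg _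
      linarith
    calc ‖∑ n ∈ Ioc u v, f n‖ ≤ (v : ℝ) - u := h1
      _ = √((v : ℝ) - u) * √((v : ℝ) - u) := (Real.mul_self_sqrt huv').symm
      _ ≤ √((v : ℝ) - u) * (√((2 : ℝ) ^ z) + ((0 : ℕ) : ℝ) * R) := by
          rw [Nat.cast_zero, zero_mul, add_zero]
          exact mul_le_mul_of_nonneg_left h2 (Real.sqrt_nonneg _)
  | succ J ih =>
    intro u v huv hv hvX
    have huR : (u : ℝ) ≤ v := by exact_mod_cast huv
    have hstep : √((v : ℝ) - u) * (√((2 : ℝ) ^ z) + J * R) ≤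
        √((v : ℝ) - u) * (√((2 : ℝ) ^ z) + ((J + 1 : ℕ) : ℝ) * R) := by
      refine mul_le_mul_of_nonneg_left ?_ (Real.sqrt_nonneg _)
      push_cast
      nlinarith
    rcases le_or_gt v (2 ^ (z + J)) with h | h
    · exact (ih u v huv h hvX).trans hstep
    · have hNX : ((2 ^ (z + J) : ℕ) : ℝ) ≤ X := by
        have : ((2 ^ (z + J) : ℕ) : ℝ) ≤ v := by exact_mod_cast h.le
        linarith
      have h2N : v ≤ 2 * 2 ^ (z + J) := by
        have : 2 ^ (z + (J + 1)) = 2 * 2 ^ (z + J) := by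
          rw [← add_assoc, pow_succ]; ring
        omega
      rcases le_or_gt (2 ^ (z + J)) u with hu | hu
      · rcases Nat.eq_or_lt_of_le huv with rfl | hlt
        · simp
        · have h3 := hw (z + J) (by omega) hNX u (by rw [mem_Ico]; omega) (v - u) (by omega)
          rw [Nat.add_sub_cancel' huv, Nat.cast_sub huv] at h3
          refine h3.trans (mul_le_mul_of_nonneg_left ?_ (Real.sqrt_nonneg _))
          push_cast
          have : (0 : ℝ) ≤ √((2 : ℝ) ^ z) := Real.sqrt_nonneg _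
          have : (0 : ℝ) ≤ J * R := by positivity
          linarith
      · have h3 := hw (z + J) (by omega) hNX (2 ^ (z + J)) (by rw [mem_Ico]; omega)
          (v - 2 ^ (z + J)) (by omega)
        rw [Nat.add_sub_cancel' h.le, Nat.cast_sub h.le] at h3
        have h4 := ih u (2 ^ (z + J)) hu.le le_rfl hNX
        have h5 : ∑ n ∈ Ioc u v, f n = ∑ n ∈ Ioc u (2 ^ (z + J)), f n + ∑ n ∈ Ioc (2 ^ (z + J)) v, f n := by
          rw [← sum_union]
          · congr 1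
            rw [Ioc_union_Ioc_eq_Ioc hu.le h.le]
          · exact Ioc_disjoint_Ioc_of_le le_rfl
        rw [h5]
        refine (norm_add_le _ _).trans ?_
        have e1 : √((((2 ^ (z + J) : ℕ)) : ℝ) - u) ≤ √((v : ℝ) - u) := by
          apply Real.sqrt_le_sqrt
          have : ((2 ^ (z + J) : ℕ) : ℝ) ≤ v := by exact_mod_cast h.le
          linarith
        have e2 : √((v : ℝ) - ((2 ^ (z + J) : ℕ) : ℝ)) ≤ √((v : ℝ) - u) := by
          apply Real.sqrt_le_sqrt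
          have : (u : ℝ) ≤ ((2 ^ (z + J) : ℕ) : ℝ) := by exact_mod_cast hu.le
          linarith
        have e3 : 0 ≤ √((2 : ℝ) ^ z) + J * R := by
          have : (0 : ℝ) ≤ √((2 : ℝ) ^ z) := Real.sqrt_nonneg _
          positivity
        have h6 := h4.trans (mul_le_mul_of_nonneg_right e1 e3)
        have h7 := h3.trans (mul_le_mul_of_nonneg_right e2 hR)
        calc _ ≤ √((v : ℝ) - u) * (√((2 : ℝ) ^ z) + J * R) + √((v : ℝ) - u) * R := add_le_add h6 h7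
          _ = √((v : ℝ) - u) * (√((2 : ℝ) ^ z) + ((J + 1 : ℕ) : ℝ) * R) := by
              push_cast
              ring

end Pool.Agent.Q152.QT
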