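import Pool.Agent.Q152.QT.RealEven
import Pool.Agent.Q208.QT.ChainR

/-! # All moments of order at most `k₀` at the same time -/

set_option autoImplicit false

namespace Pool.Agent.Q152.QT

open Finset Pool.Agent.Y293.SF Filter MeasureTheory
open Pool.Agent.Q163.GC (Mf W)

theorem mom_all (k0 : ℕ) (ε δ : ℝ) (B : ℕ) (hε : 0 < ε) (hε1 : ε < 1 / 2) (hδ : 0 < δ) :
    ∃ A C P₀ : ℕ, 2 ≤ A ∧ ∀ (g : ℕ → ℝ) (P : ℕ), (∀ n, g n = 1 ∨ g n = -1) → P₀ ≤ P →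
      ∃ E : Finset ℕ, (E.card : ℝ) ≤ P / Real.log P ^ B ∧ ∀ m ≤ P, Odd m → m ∉ E →
        ∀ X H : ℝ, Real.log P ^ C ≤ X → X ^ A ≤ P → (∀ q : ℕ, q.Prime → q ∣ m → 12 * X < q) →
          X ^ ε ≤ H → H ≤ X ^ (1 - ε) → ∀ k ≤ k0,
            |(∫ x in X..2 * X, (Mf (fm g m) x H / √(6 / Real.pi ^ 2 * H)) ^ k) / X - gm k| ≤ δ := by
  have H0 := fun k : ℕ => mom_one Pool.Agent.Q208.QT.t_ChainR k ε δ (B + 1) hε hε1 hδ
  choose A C P₀ hA H1 using H0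
  obtain ⟨P₁, hP₁⟩ : ∃ P₁ : ℕ, ∀ P : ℕ, P₁ ≤ P → (k0 : ℝ) + 1 ≤ Real.log P := by
    have := Real.tendsto_log_atTop.comp (tendsto_natCast_atTop_atTop (R := ℝ))
    obtain ⟨P₁, h⟩ := (Filter.tendsto_atTop.1 this ((k0 : ℝ) + 1)).exists_forall_of_atTop
    exact ⟨P₁, h⟩
  have sA : ∀ F : ℕ → ℕ, ∀ k ≤ k0, F k ≤ (range (k0 + 1)).sup F := fun F k hk =>
    Finset.le_sup (f := F) (mem_range.2 (by omega))
  refine ⟨(range (k0 + 1)).sup A, (range (k0 + 1)).sup C, max P₁ ((range (k0 + 1)).sup P₀),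
    (hA 0).trans (sA A 0 (by omega)), fun g P hg hP => ?_⟩
  have hl := hP₁ P ((le_max_left _ _).trans hP)
  have H2 : ∀ k : ℕ, ∃ E : Finset ℕ, (E.card : ℝ) ≤ P / Real.log P ^ (B + 1) ∧ (k ≤ k0 → ∀ m ≤ P, Odd m →
      m ∉ E → ∀ X H : ℝ, Real.log P ^ C k ≤ X → X ^ A k ≤ P →
        (∀ q : ℕ, q.Prime → q ∣ m → 12 * X < q) → X ^ ε ≤ H → H ≤ X ^ (1 - ε) →
          |(∫ x in X..2 * X, (Mf (fm g m) x H / √(6 / Real.pi ^ 2 * H)) ^ k) / X - gm k| ≤ δ) := by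
    intro k
    by_cases hk : k ≤ k0
    · obtain ⟨E, e1, e2⟩ := H1 k g P hg ((sA P₀ k hk).trans ((le_max_right _ _).trans hP))
      exact ⟨E, e1, fun _ => e2⟩
    · refine ⟨∅, ?_, fun h => absurd h hk⟩
      have h0 : (0 : ℝ) ≤ k0 := Nat.cast_nonneg _
      have : 0 < Real.log P := by linarith
      rw [card_empty]
      push_cast
      positivity
  choose E hE L using H2
  set l := Real.log P with hl'
  have hk0 : (0 : ℝ) ≤ k0 := Nat.cast_nonneg _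
  have hl1 : 1 ≤ l := by linarith
  refine ⟨(range (k0 + 1)).biUnion E, ?_, fun m hmP hmo hmE X H hCX hXA hmq hH1 hH2 k hk => ?_⟩
  · have c1 : (((range (k0 + 1)).biUnion E).card : ℝ) ≤ ∑ i ∈ range (k0 + 1), ((E i).card : ℝ) := by
      exact_mod_cast card_biUnion_le
    have c2 : ∑ i ∈ range (k0 + 1), ((E i).card : ℝ) ≤ ((k0 : ℝ) + 1) * (P / l ^ (B + 1)) := by
      refine (sum_le_sum fun i _ => hE i).trans ?_
      rw [sum_const, nsmul_eq_mul, card_range]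
      push_cast
      exact le_rfl
    refine (c1.trans c2).trans ?_
    calc ((k0 : ℝ) + 1) * (P / l ^ (B + 1)) ≤ l * (P / l ^ (B + 1)) :=
          mul_le_mul_of_nonneg_right hl (by positivity)
      _ = P / l ^ B := by
          rw [pow_succ]
          field_simp
  · have hX1 : 1 ≤ X := le_trans (one_le_pow₀ hl1) hCX
    have hmE' : m ∉ E k := fun h => hmE (mem_biUnion.2 ⟨k, mem_range.2 (by omega), h⟩)
    exact L k hk m hmP hmo hmE' X H ((pow_le_pow_right₀ hl1 (sA C k hk)).trans hCX)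
      ((pow_le_pow_right₀ hX1 (sA A k hk)).trans hXA) hmq hH1 hH2

end Pool.Agent.Q152.QT
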