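import Pool.Agent.Q152.QT.StmV

/-! # Upper bounds for the even moments, all heights and all lengths at the same time -/

set_option autoImplicit false

namespace Pool.Agent.Q152.QT

open Finset Pool.Agent.Y293.SF
open Pool.Agent.Q163.GC (W Mf)

lemma five (r j0 J : ℕ) (hr : 1 ≤ r) (h5 : 5 * j0 ≤ J) :
    ((4 : ℝ) ^ r) ^ j0 * (3 / 2 : ℝ) ^ (J - j0) ≤ (2 ^ J) ^ r := by
  have f1 : (3 / 2 : ℝ) ^ (J - j0) ≤ (3 / 2) ^ J := pow_le_pow_right₀ (by norm_num) (by omega)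
  refine (mul_le_mul_of_nonneg_left f1 (by positivity)).trans ?_
  refine le_of_pow_le_pow_left₀ (n := 5) (by norm_num) (by positivity) ?_
  have g1 : (((4 : ℝ) ^ r) ^ j0 * (3 / 2) ^ J) ^ 5 = 2 ^ (2 * r * (5 * j0)) * ((3 / 2) ^ 5) ^ J := by
    have e1 : (4 : ℝ) = 2 ^ 2 := by norm_num
    rw [mul_pow, e1, ← pow_mul, ← pow_mul, ← pow_mul, ← pow_mul, ← pow_mul]
    congr 1
    · congr 1; ring
    · congr 1; ring
  have g2 : ((3 / 2 : ℝ) ^ 5) ^ J ≤ (2 ^ 3) ^ J := pow_le_pow_left₀ (by norm_num) (by norm_num) J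
  have g3 : (2 : ℝ) ^ (2 * r * (5 * j0)) ≤ 2 ^ (2 * r * J) :=
    pow_le_pow_right₀ (by norm_num) (Nat.mul_le_mul_left _ h5)
  rw [g1]
  calc (2 : ℝ) ^ (2 * r * (5 * j0)) * ((3 / 2) ^ 5) ^ J ≤ 2 ^ (2 * r * J) * (2 ^ 3) ^ J :=
        mul_le_mul g3 g2 (by positivity) (by positivity)
    _ = 2 ^ (2 * r * J + 3 * J) := by rw [← pow_mul, ← pow_add]
    _ ≤ 2 ^ (J * r * 5) := by
        apply pow_le_pow_right₀ (by norm_num)
        nlinarith
    _ = ((2 ^ J) ^ r) ^ 5 := by rw [← pow_mul, ← pow_mul, mul_assoc]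

open Classical in
theorem even_all (hR : S_ChainR) (hS : S_SndR) (r : ℕ) (hr : 1 ≤ r) (ε : ℝ) (B : ℕ) (hε : 0 < ε)
    (hε1 : ε ≤ 1 / 2) :
    ∃ (K : ℝ) (A C P₀ : ℕ), 0 ≤ K ∧ 1 ≤ A ∧ ∀ (g : ℕ → ℝ) (P : ℕ), (∀ n, g n = 1 ∨ g n = -1) → P₀ ≤ P →
      ∃ E : Finset ℕ, (E.card : ℝ) ≤ P / Real.log P ^ B ∧ ∀ m ≤ P, Odd m → m ∉ E →
        ∀ N h : ℕ, Real.log P ^ C ≤ N → N ^ A ≤ P → Cop (8 * N) m → (N : ℝ) ^ ε ≤ h →
          (h : ℝ) ≤ (N : ℝ) ^ (1 - ε) →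
            ∑ x ∈ Ico N (4 * N), W (fm g m) x h ^ (2 * r) ≤ K * (h : ℝ) ^ r * N := by
  obtain ⟨C1, hC1, HR⟩ := hR r hr
  obtain ⟨c, K1, A1, N1, hc, hK1, H1⟩ := hS r (ε / 20) (by positivity)
  obtain ⟨N2, hN2⟩ : ∃ N2 : ℕ, ∀ N : ℕ, N2 ≤ N → 2 ≤ (N : ℝ) ^ (ε / 20) := by
    have := (tendsto_rpow_atTop (by positivity : 0 < ε / 20)).comp tendsto_natCast_atTop_atTop
    obtain ⟨N₁, h⟩ := (Filter.tendsto_atTop.1 this 2).exists_forall_of_atTop
    exact ⟨N₁, h⟩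
  obtain ⟨C0, hC0⟩ := exists_nat_ge ((B + 4) / c)
  set C := C0 + 1 with hC
  have hcC : (B : ℝ) + 4 ≤ c * C := by
    rw [div_le_iff₀ hc] at hC0
    rw [hC]; push_cast
    nlinarith
  -- large `P`
  set T : ℝ := 2 * (N1 + N2) + 2 ^ c + 18 with hT
  have h2c : (1 : ℝ) ≤ 2 ^ c := Real.one_le_rpow (by norm_num) hc.le
  obtain ⟨P₁, hP₁⟩ : ∃ P₁ : ℕ, ∀ P : ℕ, P₁ ≤ P → T ≤ Real.log P := by
    have := Real.tendsto_log_atTop.comp (tendsto_natCast_atTop_atTop (R := ℝ))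
    obtain ⟨P₁, h⟩ := (Filter.tendsto_atTop.1 this T).exists_forall_of_atTop
    exact ⟨P₁, h⟩
  refine ⟨7 * ((C1 * (3 * K1) + 1) * 2 ^ r), 4 * A1 + 1, C, max P₁ 3, by positivity, by omega,
    fun g P hg hP => ?_⟩
  have hT1 := hP₁ P ((le_max_left _ _).trans hP)
  have hP3 : 3 ≤ P := (le_max_right _ _).trans hP
  set l := Real.log P with hl
  have hN1R : (0 : ℝ) ≤ N1 := Nat.cast_nonneg _
  have hN2R : (0 : ℝ) ≤ N2 := Nat.cast_nonneg _
  have hl18 : 18 ≤ l := by rw [hT] at hT1; linarith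
  have hl0 : 0 < l := by linarith
  have hlc : 2 ^ c ≤ l := by rw [hT] at hT1; linarith
  have hlN : 2 * ((N1 : ℝ) + N2) ≤ l := by rw [hT] at hT1; linarith
  have hlC : l ≤ l ^ C := le_self_pow₀ (by linarith) (by omega)
  have hP0 : (0 : ℝ) ≤ P := Nat.cast_nonneg P
  have hpow : ∀ M : ℕ, l ^ C / 2 ≤ M → (M : ℝ) ^ (-c) ≤ 1 / l ^ (B + 3) := by
    intro M hM
    have a1 : (M : ℝ) ^ (-c) ≤ (l ^ C / 2) ^ (-c) :=
      Real.rpow_le_rpow_of_nonpos (by positivity) hM (by linarith)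
    have a2 : (l ^ C / 2) ^ (-c) = 2 ^ c / l ^ (c * C) := by
      rw [Real.rpow_neg (by positivity), Real.div_rpow (by positivity) (by norm_num), inv_div,
        ← Real.rpow_natCast l C, ← Real.rpow_mul hl0.le, mul_comm (C : ℝ) c]
    have a3 : l ^ ((B : ℝ) + 4) ≤ l ^ (c * C) := Real.rpow_le_rpow_of_exponent_le (by linarith) hcC
    have a4 : l ^ ((B : ℝ) + 4) = l ^ (B + 3) * l := by
      rw [show ((B : ℝ) + 4) = ((B + 4 : ℕ) : ℝ) by push_cast; ring, Real.rpow_natCast, ← pow_succ]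
    rw [a2] at a1
    refine a1.trans ?_
    rw [div_le_div_iff₀ (by positivity) (by positivity), one_mul]
    calc 2 ^ c * l ^ (B + 3) ≤ l * l ^ (B + 3) := mul_le_mul_of_nonneg_right hlc (by positivity)
      _ = l ^ (B + 3) * l := mul_comm _ _
      _ ≤ l ^ (c * C) := by rw [← a4]; exact a3
  -- the exceptional sets
  have K0 : ∀ p : ℕ × ℕ, ∃ E : Finset ℕ, (E.card : ℝ) ≤ P * (1 / l ^ (B + 3)) ∧
      (l ^ C / 2 ≤ ((2 ^ p.1 : ℕ) : ℝ) → (2 ^ p.1) ^ A1 ≤ P →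
        (((2 ^ p.1 : ℕ) : ℝ)) ^ (ε / 20) ≤ ((2 ^ p.2 : ℕ) : ℝ) →
        ((2 ^ p.2 : ℕ) : ℝ) ≤ (((2 ^ p.1 : ℕ) : ℝ)) ^ (1 - ε / 20) →
        ∀ m ≤ P, Odd m → Cop (2 ^ p.1) m → m ∉ E →
          ∑ x ∈ Ico (2 ^ p.1) (2 * 2 ^ p.1), Wm g (2 ^ p.2) m x ^ (2 * r) ≤
            K1 * ((2 ^ p.2 : ℕ) : ℝ) ^ r * ((2 ^ p.1 : ℕ) : ℝ)) := by
    intro p
    by_cases hp : l ^ C / 2 ≤ ((2 ^ p.1 : ℕ) : ℝ) ∧ (2 ^ p.1) ^ A1 ≤ P ∧
      (((2 ^ p.1 : ℕ) : ℝ)) ^ (ε / 20) ≤ ((2 ^ p.2 : ℕ) : ℝ) ∧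
      ((2 ^ p.2 : ℕ) : ℝ) ≤ (((2 ^ p.1 : ℕ) : ℝ)) ^ (1 - ε / 20)
    · obtain ⟨p1, p2, p3, p4⟩ := hp
      have hMN : N1 ≤ 2 ^ p.1 := by
        have : (N1 : ℝ) ≤ ((2 ^ p.1 : ℕ) : ℝ) := by linarith
        exact_mod_cast this
      obtain ⟨E, e1, e2⟩ := H1 g (2 ^ p.1) (2 ^ p.2) P hg hMN p3 p4 p2
      exact ⟨E, e1.trans (mul_le_mul_of_nonneg_left (hpow _ p1) hP0), fun _ _ _ _ => e2⟩
    · exact ⟨∅, by simp only [card_empty, Nat.cast_zero]; positivity,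
        fun x1 x2 x3 x4 => absurd ⟨x1, x2, x3, x4⟩ hp⟩
  choose S hS' L using K0
  set ℓ := Nat.log 2 P with hℓ
  set I : Finset (ℕ × ℕ) := (range (ℓ + 4)) ×ˢ (range (ℓ + 1)) with hI
  refine ⟨I.biUnion S, ?_, fun m hmP hmo hmE N h hN hNP hcop hh1 hh2 => ?_⟩
  · have c1 : ((I.biUnion S).card : ℝ) ≤ ∑ i ∈ I, ((S i).card : ℝ) := by exact_mod_cast card_biUnion_le
    have c2 : ∑ i ∈ I, ((S i).card : ℝ) ≤ I.card * (P * (1 / l ^ (B + 3))) := by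
      refine (sum_le_sum fun i _ => hS' i).trans ?_
      rw [sum_const, nsmul_eq_mul]
    have c3 : (I.card : ℝ) = ((ℓ : ℝ) + 4) * ((ℓ : ℝ) + 1) := by
      rw [hI, card_product, card_range, card_range]
      push_cast
      ring
    have c4 : ((ℓ : ℝ) + 4) * ((ℓ : ℝ) + 1) ≤ l ^ 3 := by
      have h1 := log_nat_le P hP3
      rw [← hℓ, ← hl] at h1
      have h0 : (0 : ℝ) ≤ ℓ := Nat.cast_nonneg _
      have h2 : ((ℓ : ℝ) + 4) * ((ℓ : ℝ) + 1) ≤ (3 * l + 3) * (3 * l) :=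
        mul_le_mul (by linarith) h1 (by positivity) (by positivity)
      have h3 : (3 * l + 3) * (3 * l) ≤ 18 * l ^ 2 := by nlinarith
      have h4 : 18 * l ^ 2 ≤ l ^ 3 := by nlinarith [sq_nonneg l]
      linarith
    calc ((I.biUnion S).card : ℝ) ≤ I.card * (P * (1 / l ^ (B + 3))) := c1.trans c2
      _ ≤ l ^ 3 * (P * (1 / l ^ (B + 3))) := by
          rw [c3]
          exact mul_le_mul_of_nonneg_right c4 (by positivity)
      _ = P / l ^ B := by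
          rw [pow_add]
          field_simp
  -- the scale
  have hNlb : (l : ℝ) ≤ N := hlC.trans hN
  have hN18 : (18 : ℝ) ≤ N := by linarith
  have hN0 : (0 : ℝ) < N := by linarith
  have hN1' : (1 : ℝ) ≤ N := by linarith
  have hN18' : 18 ≤ N := by exact_mod_cast hN18
  have hN2N : N2 ≤ N := by
    have : (N2 : ℝ) ≤ N := by linarith
    exact_mod_cast this
  set y := (N : ℝ) ^ (ε / 20) with hy
  have hy2 : 2 ≤ y := hN2 N hN2N
  have hy0 : 0 < y := by linarith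
  have p1 : ∀ k : ℕ, 1 ≤ y ^ k := fun k => one_le_pow₀ (by linarith)
  have hyε : (N : ℝ) ^ ε = y ^ 20 := by
    rw [hy, ← Real.rpow_natCast, ← Real.rpow_mul hN0.le]
    congr 1
    push_cast
    ring
  rw [hyε] at hh1
  have hy15 : (1024 : ℝ) ≤ y ^ 15 := by
    calc (1024 : ℝ) ≤ 2 ^ 15 := by norm_num
      _ ≤ y ^ 15 := pow_le_pow_left₀ (by norm_num) hy2 15
  have hh1' : 1 ≤ h := by
    have : (1 : ℝ) ≤ h := (p1 20).trans hh1
    exact_mod_cast this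
  -- the dyadic height
  set i := Nat.log 2 N with hi
  have hi1 : 2 ^ i ≤ N := Nat.pow_log_le_self 2 (by omega)
  have hi2 : N < 2 ^ (i + 1) := Nat.lt_pow_succ_log_self (by norm_num) _
  have hiℓ : i ≤ ℓ := by
    rw [hi, hℓ]
    apply Nat.log_mono_right
    exact (Nat.le_self_pow (by omega) N).trans hNP
  -- the dyadic length
  set J := Nat.log 2 h + 1 with hJ
  have hJ1 : 2 ^ (J - 1) ≤ h := Nat.pow_log_le_self 2 (by omega)
  have hJ2 : h < 2 ^ J := Nat.lt_pow_succ_log_self (by norm_num) _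
  obtain ⟨i0, hj1, hj2⟩ := exists_nat_pow_near (show 1 ≤ 2 * y by linarith) (show (1 : ℝ) < 2 by norm_num)
  set j0 := i0 + 1 with hj0
  have hj0u : (2 : ℝ) ^ j0 ≤ 4 * y := by
    rw [hj0, pow_succ]; linarith
  have h5J : 5 * j0 ≤ J := by
    by_contra hcon
    have e1 : (2 : ℝ) ^ J ≤ 2 ^ (5 * j0) := pow_le_pow_right₀ (by norm_num) (by omega)
    have e2 : (2 : ℝ) ^ (5 * j0) ≤ (4 * y) ^ 5 := by
      rw [mul_comm, pow_mul]
      exact pow_le_pow_left₀ (by positivity) hj0u 5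
    have e3 : (h : ℝ) < 2 ^ J := by exact_mod_cast hJ2
    have e4 : (4 * y) ^ 5 ≤ y ^ 20 := by
      have : y ^ 20 = y ^ 15 * y ^ 5 := by ring
      rw [this]
      have : (4 * y) ^ 5 = 1024 * y ^ 5 := by ring
      rw [this]
      exact mul_le_mul_of_nonneg_right hy15 (by positivity)
    linarith
  have hNε : 2 ≤ (N : ℝ) ^ (ε / 2) := by
    have : (N : ℝ) ^ (ε / 2) = y ^ 10 := by
      rw [hy, ← Real.rpow_natCast, ← Real.rpow_mul hN0.le]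
      congr 1
      push_cast
      ring
    rw [this]
    exact hy2.trans (le_self_pow₀ (by linarith) (by norm_num))
  have hhN : 2 * (h : ℝ) ≤ (N : ℝ) ^ (1 - ε / 2) := by
    have e1 : (N : ℝ) ^ (1 - ε / 2) = (N : ℝ) ^ (ε / 2) * (N : ℝ) ^ (1 - ε) := by
      rw [← Real.rpow_add hN0]; congr 1; ring
    rw [e1]
    have : 0 ≤ (N : ℝ) ^ (1 - ε) := by positivity
    nlinarith
  have hhN' : 2 * h ≤ N := by
    have : 2 * (h : ℝ) ≤ N := hhN.trans (by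
      calc (N : ℝ) ^ (1 - ε / 2) ≤ (N : ℝ) ^ (1 : ℝ) := Real.rpow_le_rpow_of_exponent_le hN1' (by linarith)
        _ = N := Real.rpow_one _)
    exact_mod_cast this
  have hJℓ : J ≤ ℓ + 1 := by
    rw [hJ]
    have : Nat.log 2 h ≤ Nat.log 2 P := by
      apply Nat.log_mono_right
      calc h ≤ N := by omega
        _ ≤ N ^ (4 * A1 + 1) := Nat.le_self_pow (by omega) _
        _ ≤ P := hNP
    omega
  -- one dyadic pair
  have one : ∀ a j : ℕ, i ≤ a → a ≤ i + 3 → j0 ≤ j → j < J →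
      ∑ x ∈ Ico (2 ^ a) (2 * 2 ^ a), W (fm g m) x (2 ^ j) ^ (2 * r) ≤ K1 * (2 ^ j) ^ r * 2 ^ a := by
    intro a j ha1 ha2 hj1' hj2'
    have hmS : m ∉ S (a, j) := by
      intro hm
      refine hmE (mem_biUnion.2 ⟨(a, j), ?_, hm⟩)
      rw [hI, mem_product, mem_range, mem_range]
      constructor
      · show a < ℓ + 4
        omega
      · show j < ℓ + 1
        omega
    have q1 : (2 : ℕ) ^ a ≤ 8 * N := by
      calc 2 ^ a ≤ 2 ^ (i + 3) := Nat.pow_le_pow_right (by norm_num) ha2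
        _ = 8 * 2 ^ i := by rw [pow_add]; ring
        _ ≤ 8 * N := by omega
    have q2 : (2 : ℕ) ^ i ≤ 2 ^ a := Nat.pow_le_pow_right (by norm_num) ha1
    have q3 : N < 2 * 2 ^ a := by
      calc N < 2 ^ (i + 1) := hi2
        _ = 2 * 2 ^ i := by rw [pow_succ]; ring
        _ ≤ 2 * 2 ^ a := by omega
    have q1R : ((2 ^ a : ℕ) : ℝ) ≤ 8 * N := by exact_mod_cast q1
    have q3R : (N : ℝ) < 2 * ((2 ^ a : ℕ) : ℝ) := by exact_mod_cast q3
    have x1 : l ^ C / 2 ≤ ((2 ^ a : ℕ) : ℝ) := by linarith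
    have x2 : (2 ^ a) ^ A1 ≤ P := by
      calc (2 ^ a) ^ A1 ≤ (N ^ 4) ^ A1 := by
            apply Nat.pow_le_pow_left
            refine q1.trans ?_
            calc 8 * N ≤ N ^ 3 * N := by
                  apply Nat.mul_le_mul_right
                  calc 8 ≤ 18 ^ 3 := by norm_num
                    _ ≤ N ^ 3 := Nat.pow_le_pow_left hN18' 3
              _ = N ^ 4 := by ring
        _ = N ^ (4 * A1) := by rw [← pow_mul]
        _ ≤ N ^ (4 * A1 + 1) := Nat.pow_le_pow_right (by omega) (by omega)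
        _ ≤ P := hNP
    have x3 : (((2 ^ a : ℕ) : ℝ)) ^ (ε / 20) ≤ ((2 ^ j : ℕ) : ℝ) := by
      calc (((2 ^ a : ℕ) : ℝ)) ^ (ε / 20) ≤ (8 * (N : ℝ)) ^ (ε / 20) :=
            Real.rpow_le_rpow (Nat.cast_nonneg _) q1R (by positivity)
        _ = 8 ^ (ε / 20) * y := by rw [Real.mul_rpow (by norm_num) hN0.le]
        _ ≤ 2 * y := by
            refine mul_le_mul_of_nonneg_right ?_ hy0.le
            calc (8 : ℝ) ^ (ε / 20) ≤ 8 ^ ((1 : ℝ) / 3) :=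
                  Real.rpow_le_rpow_of_exponent_le (by norm_num) (by linarith)
              _ = 2 := by
                  rw [show (8 : ℝ) = 2 ^ (3 : ℝ) by norm_num, ← Real.rpow_mul (by norm_num)]
                  norm_num
        _ ≤ 2 ^ j0 := hj2.le
        _ ≤ 2 ^ j := pow_le_pow_right₀ (by norm_num) hj1'
        _ = ((2 ^ j : ℕ) : ℝ) := by push_cast; rfl
    have x4 : ((2 ^ j : ℕ) : ℝ) ≤ (((2 ^ a : ℕ) : ℝ)) ^ (1 - ε / 20) := by
      have e1 : ((2 ^ j : ℕ) : ℝ) ≤ h := by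
        have : 2 ^ j ≤ h := (Nat.pow_le_pow_right (by norm_num) (by omega)).trans hJ1
        exact_mod_cast this
      have e2 : (N : ℝ) ^ (1 - ε / 2) ≤ (2 * ((2 ^ a : ℕ) : ℝ)) ^ (1 - ε / 2) :=
        Real.rpow_le_rpow hN0.le q3R.le (by linarith)
      have h2a : (1 : ℝ) ≤ ((2 ^ a : ℕ) : ℝ) := by exact_mod_cast Nat.one_le_two_pow
      have e3 : (2 * ((2 ^ a : ℕ) : ℝ)) ^ (1 - ε / 2) ≤ 2 * (((2 ^ a : ℕ) : ℝ)) ^ (1 - ε / 20) := by
        rw [Real.mul_rpow (by norm_num) (by linarith)]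
        refine mul_le_mul ?_ ?_ (by positivity) (by norm_num)
        · calc (2 : ℝ) ^ (1 - ε / 2) ≤ 2 ^ (1 : ℝ) :=
                Real.rpow_le_rpow_of_exponent_le (by norm_num) (by linarith)
            _ = 2 := Real.rpow_one _
        · exact Real.rpow_le_rpow_of_exponent_le h2a (by linarith)
      linarith
    have := L (a, j) x1 x2 x3 x4 m hmP hmo (Cop_mono q1 hcop) hmS
    simp only [← W_eq] at this
    push_cast at this
    exact this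
  -- one dyadic block
  have blk : ∀ a : ℕ, i ≤ a → a ≤ i + 2 →
      ∑ x ∈ Ico (2 ^ a) (2 * 2 ^ a), W (fm g m) x h ^ (2 * r) ≤
        ((C1 * (3 * K1) + 1) * 2 ^ r) * (h : ℝ) ^ r * 2 ^ a := by
    intro a ha1 ha2
    have hch := HR (fm g m) (2 ^ a) j0 (3 * K1) (fm_le g hg m) (by positivity) J (by omega) ?_ h hJ2 0 ?_
    · simp only [add_zero] at hch
      refine hch.trans ?_
      push_cast
      refine mul_le_mul_of_nonneg_right ?_ (by positivity)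
      have e1 : (2 : ℝ) ^ J ≤ 2 * h := by
        have : 2 ^ J ≤ 2 * h := by
          have : 2 ^ J = 2 * 2 ^ (J - 1) := by
            rw [← pow_succ']
            congr 1
          omega
        exact_mod_cast this
      have e2 : ((2 : ℝ) ^ J) ^ r ≤ 2 ^ r * (h : ℝ) ^ r := by
        rw [← mul_pow]
        exact pow_le_pow_left₀ (by positivity) e1 r
      have e3 := five r j0 J hr h5J
      calc C1 * (3 * K1) * (2 ^ J) ^ r + (4 ^ r) ^ j0 * (3 / 2) ^ (J - j0) ≤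
            C1 * (3 * K1) * (2 ^ J) ^ r + (2 ^ J) ^ r := by linarith
        _ = (C1 * (3 * K1) + 1) * (2 ^ J) ^ r := by ring
        _ ≤ (C1 * (3 * K1) + 1) * (2 ^ r * (h : ℝ) ^ r) :=
            mul_le_mul_of_nonneg_left e2 (by positivity)
        _ = (C1 * (3 * K1) + 1) * 2 ^ r * (h : ℝ) ^ r := by ring
    · intro j hj1' hj2'
      have s1 : Ico (2 ^ a) (4 * 2 ^ a) = Ico (2 ^ a) (2 * 2 ^ a) ∪ Ico (2 ^ (a + 1)) (2 * 2 ^ (a + 1)) := by
        rw [pow_succ, mul_comm (2 ^ a) 2, Ico_union_Ico_eq_Ico (by omega) (by omega)]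
        congr 1
        omega
      have s2 : Disjoint (Ico (2 ^ a) (2 * 2 ^ a)) (Ico (2 ^ (a + 1)) (2 * 2 ^ (a + 1))) := by
        rw [pow_succ, mul_comm (2 ^ a) 2]
        exact Ico_disjoint_Ico_consecutive _ _ _
      rw [s1, sum_union s2]
      have t1 := one a j ha1 (by omega) hj1' hj2'
      have t2 := one (a + 1) j (by omega) (by omega) hj1' hj2'
      rw [pow_succ (2 : ℝ) a] at t2
      push_cast
      linarith
    · have : 2 ^ i ≤ 2 ^ a := Nat.pow_le_pow_right (by norm_num) ha1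
      have : N < 2 * 2 ^ i := by rw [pow_succ] at hi2; omega
      omega
  -- the sum of the three blocks
  have cover : Ico N (4 * N) ⊆ (Ico (2 ^ i) (2 * 2 ^ i) ∪ Ico (2 ^ (i + 1)) (2 * 2 ^ (i + 1))) ∪
      Ico (2 ^ (i + 2)) (2 * 2 ^ (i + 2)) := by
    intro x hx
    rw [mem_Ico] at hx
    rw [mem_union, mem_union, mem_Ico, mem_Ico, mem_Ico]
    have e1 : 2 ^ (i + 1) = 2 * 2 ^ i := by rw [pow_succ]; ring
    have e2 : 2 ^ (i + 2) = 4 * 2 ^ i := by rw [pow_add]; ring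
    rw [e1, e2] at *
    omega
  have nn : ∀ x : ℕ, 0 ≤ W (fm g m) x h ^ (2 * r) := fun x => by
    rw [pow_mul]; positivity
  have b0 := blk i le_rfl (by omega)
  have b1 := blk (i + 1) (by omega) (by omega)
  have b2 := blk (i + 2) (by omega) (by omega)
  have hiR : (2 : ℝ) ^ i ≤ N := by exact_mod_cast hi1
  calc ∑ x ∈ Ico N (4 * N), W (fm g m) x h ^ (2 * r) ≤
        ∑ x ∈ (Ico (2 ^ i) (2 * 2 ^ i) ∪ Ico (2 ^ (i + 1)) (2 * 2 ^ (i + 1))) ∪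
          Ico (2 ^ (i + 2)) (2 * 2 ^ (i + 2)), W (fm g m) x h ^ (2 * r) :=
        sum_le_sum_of_subset_of_nonneg cover fun x _ _ => nn x
    _ ≤ (∑ x ∈ Ico (2 ^ i) (2 * 2 ^ i), W (fm g m) x h ^ (2 * r) +
          ∑ x ∈ Ico (2 ^ (i + 1)) (2 * 2 ^ (i + 1)), W (fm g m) x h ^ (2 * r)) +
          ∑ x ∈ Ico (2 ^ (i + 2)) (2 * 2 ^ (i + 2)), W (fm g m) x h ^ (2 * r) := by
        have u1 := sum_union_inter (s₁ := Ico (2 ^ i) (2 * 2 ^ i) ∪ Ico (2 ^ (i + 1)) (2 * 2 ^ (i + 1)))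
          (s₂ := Ico (2 ^ (i + 2)) (2 * 2 ^ (i + 2))) (f := fun x => W (fm g m) x h ^ (2 * r))
        have u2 := sum_union_inter (s₁ := Ico (2 ^ i) (2 * 2 ^ i)) (s₂ := Ico (2 ^ (i + 1)) (2 * 2 ^ (i + 1)))
          (f := fun x => W (fm g m) x h ^ (2 * r))
        have v1 : 0 ≤ ∑ x ∈ (Ico (2 ^ i) (2 * 2 ^ i) ∪ Ico (2 ^ (i + 1)) (2 * 2 ^ (i + 1))) ∩
          Ico (2 ^ (i + 2)) (2 * 2 ^ (i + 2)), W (fm g m) x h ^ (2 * r) := sum_nonneg fun x _ => nn x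
        have v2 : 0 ≤ ∑ x ∈ Ico (2 ^ i) (2 * 2 ^ i) ∩ Ico (2 ^ (i + 1)) (2 * 2 ^ (i + 1)),
          W (fm g m) x h ^ (2 * r) := sum_nonneg fun x _ => nn x
        linarith
    _ ≤ ((C1 * (3 * K1) + 1) * 2 ^ r) * (h : ℝ) ^ r * (7 * 2 ^ i) := by
        rw [pow_succ (2 : ℝ) i] at b1
        rw [pow_add (2 : ℝ) i 2] at b2
        linarith
    _ ≤ ((C1 * (3 * K1) + 1) * 2 ^ r) * (h : ℝ) ^ r * (7 * N) :=
        mul_le_mul_of_nonneg_left (by linarith) (by positivity)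
    _ = 7 * ((C1 * (3 * K1) + 1) * 2 ^ r) * (h : ℝ) ^ r * N := by ring

end Pool.Agent.Q152.QT
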