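import Pool.Agent.Q152.QT.ToReal
import Pool.Agent.Q14.QT.QT1
import Pool.Agent.Q14.QT.QT5
import Pool.Agent.Q63.QT.QT2
import Pool.Agent.Q63.QT.QT3b
import Pool.Agent.Q63.QT.QT4
import Pool.Agent.Q63.QT.QT7
import Pool.Agent.Q31.QT.Ek
import Pool.Agent.Q31.QT.Triv
import Pool.Agent.Q150.QT.QT8
import Pool.Agent.Q285.QT.Chain
import Pool.Agent.Q285.QT.CompN
import Pool.Agent.Q285.QT.Snd
import Pool.Agent.Q24.QT.CompH

/-! # The law for almost all moduli, all heights and all lengths -/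

set_option autoImplicit false

namespace Pool.Agent.Q152.QT

open Finset Pool.Agent.Y293.SF Filter MeasureTheory
open Pool.Agent.Q163.GC (Mf W)

theorem law_real (ε δ : ℝ) (B : ℕ) (hε : 0 < ε) (hε1 : ε < 1 / 2) (hδ : 0 < δ) :
    ∃ A C P₀ : ℕ, 2 ≤ A ∧ ∀ (g : ℕ → ℝ) (P : ℕ), (∀ n, g n = 1 ∨ g n = -1) → P₀ ≤ P →
      ∃ E : Finset ℕ, (E.card : ℝ) ≤ P / Real.log P ^ B ∧ ∀ m ≤ P, Odd m → m ∉ E →
        ∀ X H : ℝ, Real.log P ^ C ≤ X → X ^ A ≤ P → (∀ q : ℕ, q.Prime → q ∣ m → 6 * X < q) →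
          X ^ ε ≤ H → H ≤ X ^ (1 - ε) → ∀ t : ℝ,
            |(volume {x : ℝ | x ∈ Set.Icc X (2 * X) ∧ Mf (fm g m) x H ≤
              t * √(6 / Real.pi ^ 2 * H)}).toReal / X - Q282MM.Phi t| ≤ δ := by
  have h1 : S_Gcd := Pool.Agent.Q14.QT.t_Gcd
  have h2 : S_Wt := Pool.Agent.Q63.QT.t_Wt
  have h3a : S_Triv := Pool.Agent.Q31.QT.t_Triv h1 h2
  have h3 : S_Cnt := Pool.Agent.Q63.QT.t_Cnt h1 h2
  have h4 : S_Odd := Pool.Agent.Q63.QT.t_Odd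
  have h5 : S_Char := Pool.Agent.Q14.QT.t_Char
  have h6 : S_Ek := Pool.Agent.Q31.QT.t_Ek
  have h7 : S_Mean := Pool.Agent.Q63.QT.t_Mean h6
  have h8 : S_Pairs := Pool.Agent.Q150.QT.t_Pairs h3a h3 h4
  have u1 : S_Chain := Pool.Agent.Q285.QT.t_Chain
  have u2 : S_CompH := Pool.Agent.Q24.QT.t_CompH
  have u3 : S_CompN := Pool.Agent.Q285.QT.t_CompN
  have u4 : S_Snd := Pool.Agent.Q285.QT.t_Snd h3 h4 h5 h7 h8
  obtain ⟨X₀, hX₀, HR⟩ := to_real ε δ hε hε1 hδ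
  obtain ⟨A, C, P₀, hA, HA⟩ := law_all h3 h4 h5 h7 h8 u1 u2 u3 u4 (ε / 2) (δ / 4) B (by positivity)
    (by linarith) (by positivity)
  obtain ⟨P₁, hP₁⟩ : ∃ P₁ : ℕ, ∀ P : ℕ, P₁ ≤ P → X₀ ≤ Real.log P := by
    have := Real.tendsto_log_atTop.comp (tendsto_natCast_atTop_atTop (R := ℝ))
    obtain ⟨P₁, h⟩ := (Filter.tendsto_atTop.1 this X₀).exists_forall_of_atTop
    exact ⟨P₁, h⟩
  refine ⟨A + 1, C + 1, max P₀ P₁, by omega, fun g P hg hP => ?_⟩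
  have hl := hP₁ P ((le_max_right _ _).trans hP)
  obtain ⟨E, hE, L⟩ := HA g P hg ((le_max_left _ _).trans hP)
  refine ⟨E, hE, fun m hmP hmo hmE X H hCX hXA hmq hH1 hH2 => ?_⟩
  set l := Real.log P with hl'
  have hl10 : 10 ≤ l := hX₀.trans hl
  have hlX : l ≤ X := (le_self_pow₀ (by linarith) (by omega)).trans hCX
  have hX0 : 0 < X := by linarith
  obtain ⟨r1, r2⟩ := HR (fm g m) X H (hl.trans hlX) hH1 hH2
  refine r2 fun h hh t => ?_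
  obtain ⟨k1, k2⟩ := r1 h hh
  set N := ⌊X⌋₊ with hN
  have n1 : (N : ℝ) ≤ X := Nat.floor_le hX0.le
  have n2 : X < N + 1 := Nat.lt_floor_add_one X
  have c1 : l ^ C ≤ N := by
    have e1 : l ^ (C + 1) = l ^ C * l := pow_succ _ _
    have e2 : 1 ≤ l ^ C := one_le_pow₀ (by linarith)
    rw [e1] at hCX
    nlinarith
  have c2 : N ^ A ≤ P := by
    have : (N : ℝ) ^ A ≤ P := by
      calc (N : ℝ) ^ A ≤ X ^ A := pow_le_pow_left₀ (Nat.cast_nonneg _) n1 A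
        _ ≤ X ^ (A + 1) := pow_le_pow_right₀ (by linarith) (by omega)
        _ ≤ P := hXA
    exact_mod_cast this
  have hcop : Cop (2 * N) m := by
    intro n hn1 hn2
    rw [Nat.coprime_iff_gcd_eq_one]
    by_contra hne
    obtain ⟨q, hq, hqd⟩ := Nat.exists_prime_and_dvd hne
    have d1 : q ∣ n := hqd.trans (Nat.gcd_dvd_left _ _)
    have d2 : q ∣ m := hqd.trans (Nat.gcd_dvd_right _ _)
    have := hmq q hq d2
    have h5 : q ≤ n := Nat.le_of_dvd (by omega) d1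
    have h6 : (q : ℝ) ≤ 3 * (2 * N) := by exact_mod_cast h5.trans hn2
    linarith
  exact L m hmP hmo hmE N h c1 c2 hcop k1 k2 t

end Pool.Agent.Q152.QT
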