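import Pool.Agent.Q152.QT.LawUni

/-! # The law for all heights and all lengths at the same time -/

set_option autoImplicit false

namespace Pool.Agent.Q152.QT

open Finset Pool.Agent.Y293.SF
open Pool.Agent.Q163.GC (W)

lemma log_nat_le (P : ℕ) (hP : 3 ≤ P) : ((Nat.log 2 P : ℕ) : ℝ) + 1 ≤ 3 * Real.log P := by
  have hN0 : (3 : ℝ) ≤ P := by exact_mod_cast hP
  have hl : 1 ≤ Real.log P := by
    rw [Real.le_log_iff_exp_le (by linarith)]
    linarith [Real.exp_one_lt_three]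
  have e1 : (2 : ℝ) ^ Nat.log 2 P ≤ P := by
    exact_mod_cast Nat.pow_log_le_self 2 (by omega)
  have e2 : (Nat.log 2 P : ℕ) * Real.log 2 ≤ Real.log P := by
    rw [← Real.log_pow]
    exact Real.log_le_log (by positivity) e1
  have := Real.log_two_gt_d9
  nlinarith [Nat.cast_nonneg (α := ℝ) (Nat.log 2 P)]

open Classical in
theorem law_all (h3 : S_Cnt) (h4 : S_Odd) (h5 : S_Char) (h7 : S_Mean) (h8 : S_Pairs) (u1 : S_Chain)
    (u2 : S_CompH) (u3 : S_CompN) (u4 : S_Snd) (ε δ : ℝ) (B : ℕ) (hε : 0 < ε) (hε1 : ε ≤ 1 / 2) (hδ : 0 < δ) :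
    ∃ A C P₀ : ℕ, 1 ≤ A ∧ ∀ (g : ℕ → ℝ) (P : ℕ), (∀ n, g n = 1 ∨ g n = -1) → P₀ ≤ P →
      ∃ E : Finset ℕ, (E.card : ℝ) ≤ P / Real.log P ^ B ∧ ∀ m ≤ P, Odd m → m ∉ E →
        ∀ N h : ℕ, Real.log P ^ C ≤ N → N ^ A ≤ P → Cop (2 * N) m → (N : ℝ) ^ ε ≤ h →
          (h : ℝ) ≤ (N : ℝ) ^ (1 - ε) → ∀ t : ℝ, |Fc (fm g m) N h t - Q282MM.Phi t| ≤ δ := by
  obtain ⟨q, hq, HN⟩ := u3 (δ / 2) (by positivity)
  obtain ⟨c, A1, N1, hc, H1⟩ := law_uni h3 h4 h5 h7 h8 u1 u2 u4 (ε / 2) (δ / 2) (by positivity) (by linarith)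
    (by positivity)
  obtain ⟨N2, hN2⟩ : ∃ N2 : ℕ, ∀ N : ℕ, N2 ≤ N → 2 ≤ (N : ℝ) ^ (ε / 2) := by
    have := (tendsto_rpow_atTop (by positivity : 0 < ε / 2)).comp tendsto_natCast_atTop_atTop
    obtain ⟨N₁, h⟩ := (Filter.tendsto_atTop.1 this 2).exists_forall_of_atTop
    exact ⟨N₁, h⟩
  obtain ⟨C0, hC0⟩ := exists_nat_ge ((B + 3) / c)
  set C := C0 + 1 with hC
  have hcC : (B : ℝ) + 3 ≤ c * C := by
    rw [div_le_iff₀ hc] at hC0
    rw [hC]; push_cast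
    nlinarith
  -- large `P`
  set T : ℝ := 2 * (N1 + N2 + q) + 2 ^ c + 3 * q + 2 with hT
  have h2c : (1 : ℝ) ≤ 2 ^ c := Real.one_le_rpow (by norm_num) hc.le
  have hqR : (1 : ℝ) ≤ q := by exact_mod_cast hq
  obtain ⟨P₁, hP₁⟩ : ∃ P₁ : ℕ, ∀ P : ℕ, P₁ ≤ P → T ≤ Real.log P := by
    have := Real.tendsto_log_atTop.comp (tendsto_natCast_atTop_atTop (R := ℝ))
    obtain ⟨P₁, h⟩ := (Filter.tendsto_atTop.1 this T).exists_forall_of_atTop
    exact ⟨P₁, h⟩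
  refine ⟨A1 + 1, C, max P₁ 3, by omega, fun g P hg hP => ?_⟩
  have hT1 := hP₁ P ((le_max_left _ _).trans hP)
  have hP3 : 3 ≤ P := (le_max_right _ _).trans hP
  set l := Real.log P with hl
  have hN1R : (0 : ℝ) ≤ N1 := Nat.cast_nonneg _
  have hN2R : (0 : ℝ) ≤ N2 := Nat.cast_nonneg _
  have hl2 : 2 ≤ l := by rw [hT] at hT1; linarith
  have hl0 : 0 < l := by linarith
  have hlc : 2 ^ c ≤ l := by rw [hT] at hT1; linarith
  have hlq : 3 * (q : ℝ) ≤ l := by rw [hT] at hT1; linarith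
  have hlN : 2 * ((N1 : ℝ) + N2 + q) ≤ l := by rw [hT] at hT1; linarith
  have hlC : l ≤ l ^ C := le_self_pow₀ (by linarith) (by omega)
  have hP0 : (0 : ℝ) ≤ P := Nat.cast_nonneg P
  have hpow : ∀ M : ℕ, l ^ C / 2 ≤ M → (M : ℝ) ^ (-c) ≤ 1 / l ^ (B + 2) := by
    intro M hM
    have a1 : (M : ℝ) ^ (-c) ≤ (l ^ C / 2) ^ (-c) :=
      Real.rpow_le_rpow_of_nonpos (by positivity) hM (by linarith)
    have a2 : (l ^ C / 2) ^ (-c) = 2 ^ c / l ^ (c * C) := by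
      rw [Real.rpow_neg (by positivity), Real.div_rpow (by positivity) (by norm_num), inv_div,
        ← Real.rpow_natCast l C, ← Real.rpow_mul hl0.le, mul_comm (C : ℝ) c]
    have a3 : l ^ ((B : ℝ) + 3) ≤ l ^ (c * C) := Real.rpow_le_rpow_of_exponent_le (by linarith) hcC
    have a4 : l ^ ((B : ℝ) + 3) = l ^ (B + 2) * l := by
      rw [show ((B : ℝ) + 3) = ((B + 3 : ℕ) : ℝ) by push_cast; ring, Real.rpow_natCast, ← pow_succ]
    rw [a2] at a1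
    refine a1.trans ?_
    rw [div_le_div_iff₀ (by positivity) (by positivity), one_mul]
    calc 2 ^ c * l ^ (B + 2) ≤ l * l ^ (B + 2) := mul_le_mul_of_nonneg_right hlc (by positivity)
      _ = l ^ (B + 2) * l := mul_comm _ _
      _ ≤ l ^ (c * C) := by rw [← a4]; exact a3
  have K1 : ∀ M : ℕ, ∃ E : Finset ℕ, (E.card : ℝ) ≤ P * (1 / l ^ (B + 2)) ∧
      (l ^ C / 2 ≤ M → M ^ A1 ≤ P → ∀ m ≤ P, Odd m → Cop (2 * M) m → m ∉ E →
        ∀ h : ℕ, (M : ℝ) ^ (ε / 2) ≤ h → (h : ℝ) ≤ (M : ℝ) ^ (1 - ε / 2) →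
          ∀ t : ℝ, |Fc (fm g m) M h t - Q282MM.Phi t| ≤ δ / 2) := by
    intro M
    by_cases hM : l ^ C / 2 ≤ M ∧ M ^ A1 ≤ P
    · have hMN : N1 ≤ M := by
        have : (N1 : ℝ) ≤ M := by linarith [hM.1]
        exact_mod_cast this
      obtain ⟨E, e1, e2⟩ := H1 g M P hg hMN hM.2
      exact ⟨E, e1.trans (mul_le_mul_of_nonneg_left (hpow M hM.1) hP0), fun _ _ => e2⟩
    · exact ⟨∅, by simp only [card_empty, Nat.cast_zero]; positivity, fun x1 x2 => absurd ⟨x1, x2⟩ hM⟩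
  choose S hS L using K1
  set ℓ := Nat.log 2 P with hℓ
  set I : Finset ℕ := ((Ico q (2 * q)) ×ˢ (range (ℓ + 1))).image (fun p => p.1 * 2 ^ p.2) with hI
  refine ⟨I.biUnion S, ?_, fun m hmP hmo hmE N h hN hNP hcop hh1 hh2 t => ?_⟩
  · have c1 : ((I.biUnion S).card : ℝ) ≤ ∑ i ∈ I, ((S i).card : ℝ) := by exact_mod_cast card_biUnion_le
    have c2 : ∑ i ∈ I, ((S i).card : ℝ) ≤ I.card * (P * (1 / l ^ (B + 2))) := by
      refine (sum_le_sum fun i _ => hS i).trans ?_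
      rw [sum_const, nsmul_eq_mul]
    have c3 : (I.card : ℝ) ≤ q * ((ℓ : ℝ) + 1) := by
      have : I.card ≤ q * (ℓ + 1) := by
        rw [hI]
        refine card_image_le.trans ?_
        rw [card_product, Nat.card_Ico, card_range]
        apply Nat.mul_le_mul_right
        omega
      exact_mod_cast this
    have c4 : (q : ℝ) * ((ℓ : ℝ) + 1) ≤ l ^ 2 := by
      have := log_nat_le P hP3
      rw [← hℓ, ← hl] at this
      nlinarith
    calc ((I.biUnion S).card : ℝ) ≤ I.card * (P * (1 / l ^ (B + 2))) := c1.trans c2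
      _ ≤ l ^ 2 * (P * (1 / l ^ (B + 2))) := mul_le_mul_of_nonneg_right (c3.trans c4) (by positivity)
      _ = P / l ^ B := by
          rw [pow_add]
          field_simp
  have hNlb : (l : ℝ) ≤ N := hlC.trans hN
  have hqN : q ≤ N := by
    have : (q : ℝ) ≤ N := by linarith
    exact_mod_cast this
  obtain ⟨a, J, ha1, ha2, ha3, ha4⟩ := net q N hq hqN
  set N' := a * 2 ^ J with hN'
  have hJP : J ≤ ℓ := by
    apply Nat.le_log_of_pow_le (by norm_num)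
    calc 2 ^ J ≤ a * 2 ^ J := Nat.le_mul_of_pos_left _ (by omega)
      _ ≤ N := ha3
      _ ≤ N ^ (A1 + 1) := Nat.le_self_pow (by omega) _
      _ ≤ P := hNP
  have hmS : m ∉ S N' := by
    intro hm
    refine hmE (mem_biUnion.2 ⟨N', ?_, hm⟩)
    rw [hI, mem_image]
    exact ⟨(a, J), mem_product.2 ⟨mem_Ico.2 ⟨ha1, ha2⟩, mem_range.2 (by omega)⟩, rfl⟩
  have hD : N < N' + 2 ^ J := by
    rw [add_mul, one_mul] at ha4
    exact ha4
  have h2J : 2 ^ J ≤ N' := Nat.le_mul_of_pos_left _ (by omega)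
  have hNN' : N ≤ 2 * N' := by omega
  have hNN'R : (N : ℝ) ≤ 2 * N' := by exact_mod_cast hNN'
  have hN'N : (N' : ℝ) ≤ N := by exact_mod_cast ha3
  have hN'lb : l ^ C / 2 ≤ N' := by linarith
  have hN'2 : N2 ≤ N' := by
    have : (N2 : ℝ) ≤ N' := by linarith
    exact_mod_cast this
  have hN'1 : 1 ≤ N' := by
    have : (q : ℝ) ≤ N' := by linarith
    have : q ≤ N' := by exact_mod_cast this
    omega
  have hN'1R : (1 : ℝ) ≤ N' := by exact_mod_cast hN'1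
  have hN'0 : (0 : ℝ) < N' := by linarith
  have hN1' : (1 : ℝ) ≤ N := by linarith
  have hN'P : N' ^ A1 ≤ P :=
    (Nat.pow_le_pow_left ha3 A1).trans ((Nat.pow_le_pow_right (by omega) (by omega)).trans hNP)
  have x1 : (N' : ℝ) ^ (ε / 2) ≤ h := by
    calc (N' : ℝ) ^ (ε / 2) ≤ (N : ℝ) ^ (ε / 2) := Real.rpow_le_rpow hN'0.le hN'N (by positivity)
      _ ≤ (N : ℝ) ^ ε := Real.rpow_le_rpow_of_exponent_le hN1' (by linarith)
      _ ≤ h := hh1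
  have x2 : (h : ℝ) ≤ (N' : ℝ) ^ (1 - ε / 2) := by
    have e1 : (N : ℝ) ^ (1 - ε) ≤ (2 * N') ^ (1 - ε) := Real.rpow_le_rpow (by linarith) hNN'R (by linarith)
    have e2 : (2 * (N' : ℝ)) ^ (1 - ε) = 2 ^ (1 - ε) * (N' : ℝ) ^ (1 - ε) :=
      Real.mul_rpow (by norm_num) hN'0.le
    have e3 : (2 : ℝ) ^ (1 - ε) ≤ 2 := by
      calc (2 : ℝ) ^ (1 - ε) ≤ 2 ^ (1 : ℝ) := Real.rpow_le_rpow_of_exponent_le (by norm_num) (by linarith)
        _ = 2 := Real.rpow_one _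
    have e4 : (N' : ℝ) ^ (1 - ε / 2) = (N' : ℝ) ^ (ε / 2) * (N' : ℝ) ^ (1 - ε) := by
      rw [← Real.rpow_add hN'0]; congr 1; ring
    have e5 := hN2 N' hN'2
    calc (h : ℝ) ≤ (N : ℝ) ^ (1 - ε) := hh2
      _ ≤ 2 ^ (1 - ε) * (N' : ℝ) ^ (1 - ε) := by rw [← e2]; exact e1
      _ ≤ (N' : ℝ) ^ (ε / 2) * (N' : ℝ) ^ (1 - ε) :=
          mul_le_mul_of_nonneg_right (e3.trans e5) (by positivity)
      _ = (N' : ℝ) ^ (1 - ε / 2) := e4.symm
  have l1 := L N' hN'lb hN'P m hmP hmo (Cop_mono (by omega) hcop) hmS h x1 x2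
  have hqD : q * (N - N') ≤ N' := by
    calc q * (N - N') ≤ a * 2 ^ J := Nat.mul_le_mul ha1 (by omega)
      _ = N' := rfl
  have := HN (fm g m) N' N h hN'1 ha3 hqD l1 t
  linarith

end Pool.Agent.Q152.QT
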