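import Pool.Agent.Q152.QT.LawInt
import Pool.Agent.Q163.GC.Real
import Pool.Agent.Q282.LT.Phi

/-! # The law over windows with real centre and length -/

set_option autoImplicit false

namespace Pool.Agent.Q152.QT

open Finset Pool.Agent.Y293.SF Filter MeasureTheory
open Pool.Agent.Q163.GC (Mf W)

lemma W_eq (g : ℕ → ℝ) (h m x : ℕ) : W (fm g m) x h = Wm g h m x := by
  unfold W Wm
  have h1 : Ioc x (x + h) = Ico (x + 1) (x + h + 1) := by
    ext n
    simp only [mem_Ioc, mem_Ico]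
    omega
  rw [h1, sum_Ico_eq_sum_range]
  have : x + h + 1 - (x + 1) = h := by omega
  rw [this]
  refine sum_congr rfl fun j _ => ?_
  congr 1
  ring

/-- comparison of the integral with the sums over integer windows -/
lemma real_int (f : ℕ → ℝ) (g : ℝ → ℝ) (h0 : ∀ x, 0 ≤ g x) (h1 : ∀ x, g x ≤ 1) (X H : ℝ)
    (hH : 4 ≤ H) (hX : H ≤ X) :
    |(∫ x in X..2 * X, g (Mf f x H)) -
      ((1 - (H - ⌊H⌋₊)) * ∑ m ∈ Ico ⌊X⌋₊ (2 * ⌊X⌋₊), g (W f m ⌊H⌋₊) +
        (H - ⌊H⌋₊) * ∑ m ∈ Ico ⌊X⌋₊ (2 * ⌊X⌋₊), g (W f m (⌊H⌋₊ + 1)))| ≤ H + 8 := by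
  set N := ⌊X⌋₊ with hN
  set θ := H - ⌊H⌋₊ with hθ
  have n1 : (N : ℝ) ≤ X := Nat.floor_le (by linarith)
  have n2 : X < N + 1 := Nat.lt_floor_add_one X
  have θ0 : 0 ≤ θ := by
    have := Nat.floor_le (by linarith : 0 ≤ H)
    rw [hθ]; linarith
  have θ1 : θ ≤ 1 := by
    have := (Nat.lt_floor_add_one H).le
    rw [hθ]; linarith
  obtain ⟨s1, s2⟩ := Pool.Agent.Q163.GC.sandwich f g h0 H (X - H / 2) (2 * X - H / 2) (by linarith)
    (by linarith) (by linarith)
  rw [sub_add_cancel, sub_add_cancel] at s1 s2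
  set A := ⌊X - H / 2⌋₊ with hA
  set B := ⌊2 * X - H / 2⌋₊ with hB
  have a1 : (A : ℝ) ≤ X - H / 2 := Nat.floor_le (by linarith)
  have a2 : X - H / 2 < A + 1 := Nat.lt_floor_add_one _
  have b1 : (B : ℝ) ≤ 2 * X - H / 2 := Nat.floor_le (by linarith)
  have b2 : 2 * X - H / 2 < B + 1 := Nat.lt_floor_add_one _
  have hAN : A + 1 ≤ N := by
    have : ((A + 1 : ℕ) : ℝ) < N + 1 := by push_cast; linarith
    have : A + 1 < N + 1 := by exact_mod_cast this
    omega
  have hBN : B ≤ 2 * N + 1 := by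
    have : ((B : ℕ) : ℝ) < 2 * N + 2 := by linarith
    have : B < 2 * N + 2 := by exact_mod_cast this
    omega
  have hNB : N ≤ B := by
    have : (N : ℝ) < B + 1 := by linarith
    have : N < B + 1 := by exact_mod_cast this
    omega
  have i1 := (Pool.Agent.Q163.GC.int_int f g H (by linarith) (A + 1) B (by omega)).2
  have i2 := (Pool.Agent.Q163.GC.int_int f g H (by linarith) A (B + 1) (by omega)).2
  rw [i1] at s1
  rw [i2] at s2
  -- comparison of sums
  have up : ∀ k : ℕ, ∑ m ∈ Ico A (B + 1), g (W f m k) ≤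
      ∑ m ∈ Ico N (2 * N), g (W f m k) + (H / 2 + 5) := by
    intro k
    have hsub : Ico A (B + 1) ⊆ Ico A N ∪ (Ico N (2 * N) ∪ Ico (2 * N) (2 * N + 2)) := by
      intro j hj
      rw [mem_Ico] at hj
      simp only [mem_union, mem_Ico]
      omega
    have q1 : ∑ m ∈ Ico A (B + 1), g (W f m k) ≤
        ∑ m ∈ Ico A N ∪ (Ico N (2 * N) ∪ Ico (2 * N) (2 * N + 2)), g (W f m k) :=
      sum_le_sum_of_subset_of_nonneg hsub fun _ _ _ => h0 _
    have un : ∀ S T : Finset ℕ, ∑ m ∈ S ∪ T, g (W f m k) ≤ ∑ m ∈ S, g (W f m k) + ∑ m ∈ T, g (W f m k) := by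
      intro S T
      have := sum_union_inter (s₁ := S) (s₂ := T) (f := fun m => g (W f m k))
      have h2 : 0 ≤ ∑ m ∈ S ∩ T, g (W f m k) := sum_nonneg fun _ _ => h0 _
      linarith
    have cd : ∀ S : Finset ℕ, ∑ m ∈ S, g (W f m k) ≤ S.card := by
      intro S
      refine (sum_le_sum fun m _ => h1 _).trans ?_
      simp
    have q2 := un (Ico A N) (Ico N (2 * N) ∪ Ico (2 * N) (2 * N + 2))
    have q3 := un (Ico N (2 * N)) (Ico (2 * N) (2 * N + 2))
    have q4 := cd (Ico A N)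
    have q5 := cd (Ico (2 * N) (2 * N + 2))
    rw [Nat.card_Ico, Nat.cast_sub (by omega)] at q4
    rw [Nat.card_Ico] at q5
    have q6 : ((2 * N + 2 - 2 * N : ℕ) : ℝ) = 2 := by
      have : 2 * N + 2 - 2 * N = 2 := by omega
      rw [this]; norm_num
    rw [q6] at q5
    linarith
  have lo : ∀ k : ℕ, ∑ m ∈ Ico N (2 * N), g (W f m k) - (H / 2 + 5) ≤
      ∑ m ∈ Ico (A + 1) B, g (W f m k) := by
    intro k
    have hsub : Ico N (2 * N) ⊆ Ico (A + 1) B ∪ Ico B (max B (2 * N)) := by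
      intro j hj
      rw [mem_Ico] at hj
      simp only [mem_union, mem_Ico]
      have := le_max_right B (2 * N)
      omega
    have q1 : ∑ m ∈ Ico N (2 * N), g (W f m k) ≤
        ∑ m ∈ Ico (A + 1) B ∪ Ico B (max B (2 * N)), g (W f m k) :=
      sum_le_sum_of_subset_of_nonneg hsub fun _ _ _ => h0 _
    have q2 : ∑ m ∈ Ico (A + 1) B ∪ Ico B (max B (2 * N)), g (W f m k) ≤
        ∑ m ∈ Ico (A + 1) B, g (W f m k) + ∑ m ∈ Ico B (max B (2 * N)), g (W f m k) := by
      have := sum_union_inter (s₁ := Ico (A + 1) B) (s₂ := Ico B (max B (2 * N)))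
        (f := fun m => g (W f m k))
      have h2 : 0 ≤ ∑ m ∈ Ico (A + 1) B ∩ Ico B (max B (2 * N)), g (W f m k) :=
        sum_nonneg fun _ _ => h0 _
      linarith
    have q3 : ∑ m ∈ Ico B (max B (2 * N)), g (W f m k) ≤ (H / 2 + 5) := by
      refine (sum_le_sum fun m _ => h1 _).trans ?_
      simp only [sum_const, nsmul_eq_mul, mul_one]
      rw [Nat.card_Ico, Nat.cast_sub (le_max_left _ _)]
      rcases le_total B (2 * N) with h | h
      · rw [max_eq_right h]
        push_cast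
        linarith
      · rw [max_eq_left h]
        linarith
    linarith
  have u1 := up ⌊H⌋₊
  have u2 := up (⌊H⌋₊ + 1)
  have l1 := lo ⌊H⌋₊
  have l2 := lo (⌊H⌋₊ + 1)
  rw [← hθ] at s1 s2
  have t1 : 0 ≤ 1 - θ := by linarith
  have v1 := mul_le_mul_of_nonneg_left u1 t1
  have v2 := mul_le_mul_of_nonneg_left u2 θ0
  have w1 := mul_le_mul_of_nonneg_left l1 t1
  have w2 := mul_le_mul_of_nonneg_left l2 θ0
  rw [abs_le]
  constructor
  · nlinarith
  · nlinarith

lemma Mf_meas (f : ℕ → ℝ) (H : ℝ) : Measurable fun x => Mf f x H := by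
  classical
  refine measurable_of_tendsto_metrizable
    (f := fun (K : ℕ) (x : ℝ) => ∑ n ∈ range K, if |(n : ℝ) - x| < H / 2 then f n else 0) ?_ ?_
  · intro K
    refine Finset.measurable_fun_sum _ fun n _ => ?_
    refine Measurable.ite ?_ measurable_const measurable_const
    exact measurableSet_lt ((measurable_const.sub measurable_id).abs) measurable_const
  · rw [tendsto_pi_nhds]
    intro x
    refine tendsto_const_nhds.congr' ?_
    filter_upwards [eventually_ge_atTop (⌈x + H⌉₊ + 1)] with K hK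
    unfold Mf
    rw [sum_filter]
    refine sum_subset (range_subset_range.2 hK) fun n _ hn => ?_
    rw [mem_range, not_lt] at hn
    rw [if_neg]
    intro hc
    have h1 : x + H ≤ ⌈x + H⌉₊ := Nat.le_ceil _
    have h2 : ((⌈x + H⌉₊ + 1 : ℕ) : ℝ) ≤ n := by exact_mod_cast hn
    push_cast at h2
    have h3 := (abs_lt.1 hc).2
    have h4 := lt_of_le_of_lt (abs_nonneg _) hc
    linarith

/-- the proportion as an integral -/
lemma meas_int (f : ℕ → ℝ) (X H s : ℝ) (hX : 0 < X) :
    (volume {x : ℝ | x ∈ Set.Icc X (2 * X) ∧ Mf f x H ≤ s}).toReal =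
      ∫ x in X..2 * X, (fun v : ℝ => if v ≤ s then (1 : ℝ) else 0) (Mf f x H) := by
  have hm : MeasurableSet {x : ℝ | Mf f x H ≤ s} :=
    (Mf_meas f H) measurableSet_Iic
  have e1 : {x : ℝ | x ∈ Set.Icc X (2 * X) ∧ Mf f x H ≤ s} = {x : ℝ | Mf f x H ≤ s} ∩ Set.Icc X (2 * X) := by
    ext x
    simp only [Set.mem_ofPred_eq, Set.mem_inter_iff]
    tauto
  rw [e1, ← Measure.restrict_apply hm, intervalIntegral.integral_of_le (by linarith),
    ← integral_Icc_eq_integral_Ioc]
  have e2 : (fun x : ℝ => (fun v : ℝ => if v ≤ s then (1 : ℝ) else 0) (Mf f x H)) =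
      ({x : ℝ | Mf f x H ≤ s}).indicator 1 := by
    funext x
    by_cases h : Mf f x H ≤ s
    · rw [Set.indicator_of_mem (show x ∈ {x : ℝ | Mf f x H ≤ s} from h)]
      simp [h]
    · rw [Set.indicator_of_notMem (show x ∉ {x : ℝ | Mf f x H ≤ s} from h)]
      simp [h]
  rw [e2, integral_indicator_one hm]
  rfl

open Classical in
lemma sqrt_close (r u : ℝ) (hu : 0 < u) (h1 : 1 - u ≤ r) (h2 : r ≤ 1 + u) : |√r - 1| ≤ u := by
  rw [abs_le]
  constructor
  · rcases le_or_gt (1 - u) 0 with hn | hn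
    · linarith [Real.sqrt_nonneg r]
    · have : 1 - u ≤ √r := by
        apply Real.le_sqrt_of_sq_le
        nlinarith
      linarith
  · have : √r ≤ 1 + u := by
      rw [Real.sqrt_le_left (by linarith)]
      nlinarith
    linarith

/-- the law for one length -/
theorem law_one (h3 : S_Cnt) (h4 : S_Odd) (h5 : S_Char) (h7 : S_Mean) (h8 : S_Pairs)
    (ε δ : ℝ) (hε : 0 < ε) (hε1 : ε < 1 / 2) (hδ : 0 < δ) :
    ∃ (c : ℝ) (A : ℕ) (X₀ : ℝ), 0 < c ∧ ∀ (g : ℕ → ℝ) (X H : ℝ) (P : ℕ),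
      (∀ n, g n = 1 ∨ g n = -1) → X₀ ≤ X → X ^ ε ≤ H → H ≤ X ^ (1 - ε) → X ^ A ≤ P →
      ∃ E : Finset ℕ, (E.card : ℝ) ≤ P * X ^ (-c) ∧ ∀ m ≤ P, Odd m →
        (∀ q : ℕ, q.Prime → q ∣ m → 3 * X < q) → m ∉ E →
        ∀ t : ℝ, |(volume {x : ℝ | x ∈ Set.Icc X (2 * X) ∧ Mf (fm g m) x H ≤
          t * √(6 / Real.pi ^ 2 * H)}).toReal / X - Q282MM.Phi t| ≤ δ := by
  obtain ⟨c1, A1, N0, hc1, H1⟩ := law_int h3 h4 h5 h7 h8 (ε / 2) (δ / 4) (by positivity) (by positivity)
  obtain ⟨δ1, hδ1, -, hΦ⟩ := Q282LT.Phi_affine (δ / 8) (by positivity)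
  set κ : ℝ := 6 / Real.pi ^ 2 with hκ
  have hκ0 : 0 < κ := by positivity
  -- large `X`
  obtain ⟨X1, hX1⟩ : ∃ X1 : ℝ, ∀ X : ℝ, X1 ≤ X → 4 + 2 / δ1 ≤ X ^ (ε / 2) ∧ 2 * 2 ^ c1 ≤ X ^ (c1 / 2) ∧
      16 / δ ≤ X ^ ε ∧ 80 / δ + 10 ≤ X := by
    have t1 := Filter.tendsto_atTop.1 (tendsto_rpow_atTop (by positivity : 0 < ε / 2)) (4 + 2 / δ1)
    have t2 := Filter.tendsto_atTop.1 (tendsto_rpow_atTop (by positivity : 0 < c1 / 2)) (2 * 2 ^ c1)
    have t3 := Filter.tendsto_atTop.1 (tendsto_rpow_atTop hε) (16 / δ)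
    have t4 := eventually_ge_atTop (80 / δ + 10)
    exact (t1.and (t2.and (t3.and t4))).exists_forall_of_atTop
  refine ⟨c1 / 2, A1, max X1 (N0 + 1), by positivity, fun g X H P hg hX h1 h2 hP => ?_⟩
  obtain ⟨x1, x2, x3, x4⟩ := hX1 X ((le_max_left _ _).trans hX)
  have hXN : (N0 : ℝ) + 1 ≤ X := (le_max_right _ _).trans hX
  have hX10 : 10 ≤ X := by
    have : 0 < 80 / δ := by positivity
    linarith
  have hX0 : 0 < X := by linarith
  have hX1' : 1 ≤ X := by linarith
  have hδ1' : 0 < 2 / δ1 := by positivity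
  set N := ⌊X⌋₊ with hN
  have n1 : (N : ℝ) ≤ X := Nat.floor_le hX0.le
  have n2 : X < N + 1 := Nat.lt_floor_add_one X
  have hN1 : (1 : ℝ) ≤ N := by linarith
  have hN0 : (0 : ℝ) < N := by linarith
  have hNX : X / 2 ≤ N := by linarith
  have hNN : N0 ≤ N := by
    have : (N0 : ℝ) < N + 1 := by linarith
    have : N0 < N + 1 := by exact_mod_cast this
    omega
  -- the length
  have e1 : X ^ ε = X ^ (ε / 2) * X ^ (ε / 2) := by
    rw [← Real.rpow_add hX0]; congr 1; ring
  have hH16 : 4 * X ^ (ε / 2) ≤ H := by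
    refine le_trans ?_ h1
    rw [e1]
    nlinarith
  have hH4 : 16 ≤ H := by nlinarith
  have hHX : H ≤ X := h2.trans (by
    calc X ^ (1 - ε) ≤ X ^ (1 : ℝ) := Real.rpow_le_rpow_of_exponent_le hX1' (by linarith)
      _ = X := Real.rpow_one _)
  set k := ⌊H⌋₊ with hk
  have k1 : (k : ℝ) ≤ H := Nat.floor_le (by linarith)
  have k2 : H < k + 1 := Nat.lt_floor_add_one H
  have hk0 : (0 : ℝ) < k := by linarith
  have kk : ∀ h : ℕ, (h = k ∨ h = k + 1) → (N : ℝ) ^ (ε / 2) ≤ h ∧ (h : ℝ) ≤ (N : ℝ) ^ (1 - ε / 2) := by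
    intro h hh
    have b1 : (k : ℝ) ≤ h := by
      rcases hh with rfl | rfl
      · exact le_rfl
      · push_cast; linarith
    have b2 : (h : ℝ) ≤ k + 1 := by
      rcases hh with rfl | rfl
      · linarith
      · push_cast; linarith
    constructor
    · have : (N : ℝ) ^ (ε / 2) ≤ X ^ (ε / 2) := Real.rpow_le_rpow hN0.le n1 (by positivity)
      linarith
    · have q1 : (X / 2) ^ (1 - ε / 2) ≤ (N : ℝ) ^ (1 - ε / 2) :=
        Real.rpow_le_rpow (by positivity) hNX (by linarith)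
      have q2 : X ^ (1 - ε / 2) / 2 ≤ (X / 2) ^ (1 - ε / 2) := by
        rw [Real.div_rpow hX0.le (by norm_num)]
        refine div_le_div_of_nonneg_left (by positivity) (by positivity) ?_
        calc (2 : ℝ) ^ (1 - ε / 2) ≤ 2 ^ (1 : ℝ) :=
              Real.rpow_le_rpow_of_exponent_le (by norm_num) (by linarith)
          _ = 2 := Real.rpow_one _
      have q3 : X ^ (1 - ε / 2) = X ^ (1 - ε) * X ^ (ε / 2) := by
        rw [← Real.rpow_add hX0]; congr 1; ring
      have q4 : 1 ≤ X ^ (1 - ε) := Real.one_le_rpow hX1' (by linarith)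
      have q5 : 4 * X ^ (1 - ε) ≤ X ^ (1 - ε) * X ^ (ε / 2) := by nlinarith
      rw [q3] at q2
      linarith
  have hPN : N ^ A1 ≤ P := by
    have : (N : ℝ) ^ A1 ≤ P := (pow_le_pow_left₀ hN0.le n1 A1).trans hP
    exact_mod_cast this
  obtain ⟨E1, hE1, L1⟩ := H1 g N k P hg hNN (kk k (Or.inl rfl)).1 (kk k (Or.inl rfl)).2 hPN
  obtain ⟨E2, hE2, L2⟩ := H1 g N (k + 1) P hg hNN (kk (k + 1) (Or.inr rfl)).1
    (kk (k + 1) (Or.inr rfl)).2 hPN
  refine ⟨E1 ∪ E2, ?_, fun m hmP hmo hmq hmE t => ?_⟩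
  · have r1 : ((E1 ∪ E2).card : ℝ) ≤ E1.card + E2.card := by exact_mod_cast card_union_le _ _
    have r2 : (N : ℝ) ^ (-c1) ≤ 2 ^ c1 * X ^ (-c1) := by
      calc (N : ℝ) ^ (-c1) ≤ (X / 2) ^ (-c1) :=
            Real.rpow_le_rpow_of_nonpos (by positivity) hNX (by linarith)
        _ = 2 ^ c1 * X ^ (-c1) := by
            rw [Real.div_rpow hX0.le (by norm_num), Real.rpow_neg (by norm_num : (0 : ℝ) ≤ 2),
              div_inv_eq_mul, mul_comm]
    have r3 : X ^ (-c1) = X ^ (-(c1 / 2)) * X ^ (-(c1 / 2)) := by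
      rw [← Real.rpow_add hX0]; congr 1; ring
    have r4 : X ^ (c1 / 2) * X ^ (-(c1 / 2)) = 1 := by
      rw [← Real.rpow_add hX0, add_neg_cancel, Real.rpow_zero]
    have r5 : 2 * (2 ^ c1 * X ^ (-c1)) ≤ X ^ (-(c1 / 2)) := by
      rw [r3]
      calc 2 * (2 ^ c1 * (X ^ (-(c1 / 2)) * X ^ (-(c1 / 2)))) =
            (2 * 2 ^ c1 * X ^ (-(c1 / 2))) * X ^ (-(c1 / 2)) := by ring
        _ ≤ (X ^ (c1 / 2) * X ^ (-(c1 / 2))) * X ^ (-(c1 / 2)) := by
            refine mul_le_mul_of_nonneg_right ?_ (by positivity)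
            exact mul_le_mul_of_nonneg_right x2 (by positivity)
        _ = X ^ (-(c1 / 2)) := by rw [r4, one_mul]
    have hP0 : (0 : ℝ) ≤ P := Nat.cast_nonneg P
    have r6 : (P : ℝ) * (N : ℝ) ^ (-c1) ≤ P * (2 ^ c1 * X ^ (-c1)) := mul_le_mul_of_nonneg_left r2 hP0
    have r7 : P * (2 * (2 ^ c1 * X ^ (-c1))) ≤ P * X ^ (-(c1 / 2)) := mul_le_mul_of_nonneg_left r5 hP0
    linarith
  · rw [mem_union, not_or] at hmE
    have hcop : Cop N m := by
      intro n hn1 hn2
      rw [Nat.coprime_iff_gcd_eq_one]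
      by_contra hne
      obtain ⟨q, hq, hqd⟩ := Nat.exists_prime_and_dvd hne
      have d1 : q ∣ n := hqd.trans (Nat.gcd_dvd_left _ _)
      have d2 : q ∣ m := hqd.trans (Nat.gcd_dvd_right _ _)
      have := hmq q hq d2
      have h5 : q ≤ n := Nat.le_of_dvd (by omega) d1
      have h6 : (q : ℝ) ≤ 3 * N := by exact_mod_cast h5.trans hn2
      linarith
    have l1 := L1 m hmP hmo hcop hmE.1
    have l2 := L2 m hmP hmo hcop hmE.2
    set s := t * √(κ * H) with hs
    -- one integer length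
    have one : ∀ h : ℕ, (h = k ∨ h = k + 1) → (∀ t : ℝ, |(((Ico N (2 * N)).filter fun x =>
          Wm g h m x / √(κ * h) ≤ t).card : ℝ) / N - Q282MM.Phi t| ≤ δ / 4) →
        |(∑ j ∈ Ico N (2 * N), (fun v : ℝ => if v ≤ s then (1 : ℝ) else 0) (W (fm g m) j h)) / N -
          Q282MM.Phi t| ≤ 3 * δ / 8 := by
      intro h hh hl
      have b1 : (k : ℝ) ≤ h := by
        rcases hh with rfl | rfl
        · exact le_rfl
        · push_cast; linarith
      have hh0 : (0 : ℝ) < h := by linarith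
      set a := √(H / h) with ha
      have hsq : 0 < √(κ * h) := Real.sqrt_pos.2 (by positivity)
      have e2 : √(κ * H) = a * √(κ * h) := by
        rw [ha, ← Real.sqrt_mul (by positivity)]
        congr 1
        field_simp
      have e3 : ∑ j ∈ Ico N (2 * N), (fun v : ℝ => if v ≤ s then (1 : ℝ) else 0) (W (fm g m) j h) =
          (((Ico N (2 * N)).filter fun x => Wm g h m x / √(κ * h) ≤ a * t).card : ℝ) := by
        rw [card_filter]
        push_cast
        refine sum_congr rfl fun j _ => ?_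
        rw [W_eq]
        have : Wm g h m j ≤ s ↔ Wm g h m j / √(κ * h) ≤ a * t := by
          rw [div_le_iff₀ hsq, hs, e2]
          have : t * (a * √(κ * h)) = a * t * √(κ * h) := by ring
          rw [this]
        by_cases hc : Wm g h m j ≤ s
        · rw [if_pos hc, if_pos (this.1 hc)]
        · rw [if_neg hc, if_neg (fun h => hc (this.2 h))]
      rw [e3]
      have ha1 : |a - 1| ≤ δ1 := by
        have hk1 : 1 / (k : ℝ) ≤ δ1 := by
          rw [div_le_iff₀ hk0]
          have : 2 / δ1 ≤ k := by linarith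
          rw [div_le_iff₀ hδ1] at this
          linarith
        have hr1 : H / h ≤ 1 + 1 / k := by
          rw [div_le_iff₀ hh0]
          have : (1 + 1 / (k : ℝ)) * k ≤ (1 + 1 / k) * h :=
            mul_le_mul_of_nonneg_left b1 (by positivity)
          have e : (1 + 1 / (k : ℝ)) * k = k + 1 := by field_simp
          linarith
        have hr2 : 1 - 1 / k ≤ H / h := by
          rw [le_div_iff₀ hh0]
          have b2 : (h : ℝ) ≤ k + 1 := by
            rcases hh with rfl | rfl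
            · linarith
            · push_cast; linarith
          have hk4 : 1 / (k : ℝ) ≤ 1 := by
            rw [div_le_one hk0]; linarith
          have : (1 - 1 / (k : ℝ)) * h ≤ (1 - 1 / k) * (k + 1) :=
            mul_le_mul_of_nonneg_left b2 (by linarith)
          have e : (1 - 1 / (k : ℝ)) * (k + 1) = k - 1 / k := by field_simp; ring
          have : 0 < 1 / (k : ℝ) := by positivity
          linarith
        have hk5 : 0 < 1 / (k : ℝ) := by positivity
        exact (sqrt_close (H / h) (1 / k) hk5 hr2 hr1).trans hk1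
      have p1 := hl (a * t)
      have p2 := hΦ a 0 t ha1 (by simpa using hδ1.le)
      rw [add_zero] at p2
      rw [abs_le] at p1 p2 ⊢
      constructor <;> linarith [p1.1, p1.2, p2.1, p2.2]
    have o1 := one k (Or.inl rfl) l1
    have o2 := one (k + 1) (Or.inr rfl) (by exact_mod_cast l2)
    have ri := real_int (fm g m) (fun v : ℝ => if v ≤ s then (1 : ℝ) else 0)
      (fun v => by split_ifs <;> norm_num)
      (fun v => by split_ifs <;> norm_num) X H (by linarith) hHX
    rw [← meas_int (fm g m) X H s hX0] at ri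
    rw [← hN, ← hk] at ri
    set S1 := ∑ j ∈ Ico N (2 * N), (fun v : ℝ => if v ≤ s then (1 : ℝ) else 0) (W (fm g m) j k) with hS1
    set S2 := ∑ j ∈ Ico N (2 * N), (fun v : ℝ => if v ≤ s then (1 : ℝ) else 0) (W (fm g m) j (k + 1)) with hS2
    set V := (volume {x : ℝ | x ∈ Set.Icc X (2 * X) ∧ Mf (fm g m) x H ≤ s}).toReal with hV
    set θ := H - (k : ℝ) with hθ
    have θ0 : 0 ≤ θ := by rw [hθ]; linarith
    have θ1 : θ ≤ 1 := by rw [hθ]; linarith
    have hcard : ((Ico N (2 * N)).card : ℝ) = N := by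
      rw [Nat.card_Ico]
      congr 1
      omega
    have S1b : 0 ≤ S1 ∧ S1 ≤ N := by
      constructor
      · exact sum_nonneg fun _ _ => by simp only; split_ifs <;> norm_num
      · rw [hS1]
        refine (sum_le_sum (g := fun _ => (1 : ℝ)) fun j _ => by simp only; split_ifs <;> norm_num).trans ?_
        rw [sum_const, nsmul_eq_mul, mul_one, hcard]
    have S2b : 0 ≤ S2 ∧ S2 ≤ N := by
      constructor
      · exact sum_nonneg fun _ _ => by simp only; split_ifs <;> norm_num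
      · rw [hS2]
        refine (sum_le_sum (g := fun _ => (1 : ℝ)) fun j _ => by simp only; split_ifs <;> norm_num).trans ?_
        rw [sum_const, nsmul_eq_mul, mul_one, hcard]
    set S := (1 - θ) * S1 + θ * S2 with hSdef
    have hSN : |S / N - Q282MM.Phi t| ≤ 3 * δ / 8 := by
      have e4 : S / N - Q282MM.Phi t = (1 - θ) * (S1 / N - Q282MM.Phi t) + θ * (S2 / N - Q282MM.Phi t) := by
        rw [hSdef]; field_simp; ring
      rw [e4]
      refine (abs_add_le _ _).trans ?_
      rw [abs_mul, abs_mul, abs_of_nonneg (by linarith : 0 ≤ 1 - θ), abs_of_nonneg θ0]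
      have := mul_le_mul_of_nonneg_left o1 (by linarith : 0 ≤ 1 - θ)
      have := mul_le_mul_of_nonneg_left o2 θ0
      linarith
    have hS0 : 0 ≤ S ∧ S ≤ N := by
      have t1 : 0 ≤ 1 - θ := by linarith
      constructor
      · have := mul_nonneg t1 S1b.1
        have := mul_nonneg θ0 S2b.1
        rw [hSdef]; linarith
      · have := mul_le_mul_of_nonneg_left S1b.2 t1
        have := mul_le_mul_of_nonneg_left S2b.2 θ0
        rw [hSdef]; linarith
    have hSX : |S / X - S / N| ≤ 1 / X := by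
      have e5 : S / N - S / X = (S / N) * ((X - N) / X) := by field_simp
      rw [abs_sub_comm, e5, abs_mul, abs_of_nonneg (div_nonneg hS0.1 hN0.le),
        abs_of_nonneg (div_nonneg (by linarith) hX0.le)]
      have f1 : S / N ≤ 1 := (div_le_one hN0).2 hS0.2
      have f2 : (X - N) / X ≤ 1 / X := div_le_div_of_nonneg_right (by linarith) hX0.le
      calc S / N * ((X - N) / X) ≤ 1 * (1 / X) :=
            mul_le_mul f1 f2 (div_nonneg (by linarith) hX0.le) (by norm_num)
        _ = 1 / X := one_mul _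
    have hVX : |V / X - S / X| ≤ (H + 8) / X := by
      rw [← sub_div, abs_div, abs_of_pos hX0]
      exact div_le_div_of_nonneg_right ri hX0.le
    have hsmall : (H + 8) / X + 1 / X ≤ δ / 4 := by
      have f1 : H / X ≤ δ / 16 := by
        have g1 : H / X ≤ X ^ (-ε) := by
          rw [div_le_iff₀ hX0]
          refine h2.trans (le_of_eq ?_)
          nth_rewrite 3 [← Real.rpow_one X]
          rw [← Real.rpow_add hX0]
          congr 1
          ring
        have g2 : X ^ (-ε) ≤ δ / 16 := by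
          rw [Real.rpow_neg hX0.le]
          rw [inv_le_comm₀ (by positivity) (by positivity)]
          rw [inv_div]
          exact x3
        exact g1.trans g2
      have f2 : 9 / X ≤ 9 * δ / 80 := by
        rw [div_le_div_iff₀ hX0 (by norm_num)]
        have : 80 / δ ≤ X := by linarith
        rw [div_le_iff₀ hδ] at this
        nlinarith
      have f3 : (H + 8) / X + 1 / X = H / X + 9 / X := by ring
      rw [f3]
      linarith
    have e6 : V / X - Q282MM.Phi t = (V / X - S / X) + (S / X - S / N) + (S / N - Q282MM.Phi t) := by ring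
    rw [e6]
    refine (abs_add_three _ _ _).trans ?_
    linarith

end Pool.Agent.Q152.QT
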