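import Pool.Agent.Q152.QT.StmU

/-! # The law for all lengths at the same time -/

set_option autoImplicit false

namespace Pool.Agent.Q152.QT

open Finset Pool.Agent.Y293.SF
open Pool.Agent.Q163.GC (W)

/-- floating point numbers -/
lemma net (q n : ℕ) (hq : 1 ≤ q) (hn : q ≤ n) :
    ∃ a J : ℕ, q ≤ a ∧ a < 2 * q ∧ a * 2 ^ J ≤ n ∧ n < (a + 1) * 2 ^ J := by
  have hnq : 1 ≤ n / q := (Nat.one_le_div_iff (by omega)).2 hn
  set J := Nat.log 2 (n / q) with hJ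
  have h1 : 2 ^ J ≤ n / q := Nat.pow_log_le_self 2 (by omega)
  have h2 : n / q < 2 ^ (J + 1) := Nat.lt_pow_succ_log_self (by norm_num) _
  have hp : 0 < 2 ^ J := by positivity
  refine ⟨n / 2 ^ J, J, ?_, ?_, Nat.div_mul_le_self _ _, ?_⟩
  · rw [Nat.le_div_iff_mul_le hp]
    have := (Nat.le_div_iff_mul_le (by omega : 0 < q)).1 h1
    linarith
  · rw [Nat.div_lt_iff_lt_mul hp]
    have := (Nat.div_lt_iff_lt_mul (by omega : 0 < q)).1 h2
    rw [pow_succ] at this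
    linarith
  · exact Nat.lt_mul_of_div_lt (Nat.lt_succ_self _) hp

lemma log_small (C c : ℝ) (hc : 0 < c) : ∃ N₀ : ℕ, ∀ N : ℕ, N₀ ≤ N →
    C * ((Nat.log 2 N : ℕ) + 1 : ℝ) ≤ (N : ℝ) ^ c := by
  have h := (isLittleO_log_rpow_atTop hc).bound (c := 1 / (4 * (|C| + 1))) (by positivity)
  have h' := h.and (Filter.eventually_ge_atTop (3 : ℝ))
  obtain ⟨X, hX⟩ := Filter.eventually_atTop.1 h'
  obtain ⟨N₀, hN₀⟩ := exists_nat_ge X
  refine ⟨max N₀ 3, fun N hN => ?_⟩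
  have h1 : X ≤ (N : ℝ) := hN₀.trans (by exact_mod_cast (le_max_left _ _).trans hN)
  obtain ⟨h2, h3⟩ := hX N h1
  have hN0 : (0 : ℝ) < N := by linarith
  have hl : 1 ≤ Real.log N := by
    rw [Real.le_log_iff_exp_le hN0]
    linarith [Real.exp_one_lt_three]
  rw [Real.norm_of_nonneg (by linarith), Real.norm_of_nonneg (by positivity)] at h2
  have h4 : ((Nat.log 2 N : ℕ) : ℝ) ≤ 2 * Real.log N := by
    have e1 : (2 : ℝ) ^ Nat.log 2 N ≤ N := by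
      have : N ≠ 0 := by
        rintro rfl
        norm_num at hN0
      exact_mod_cast Nat.pow_log_le_self 2 this
    have e2 : (Nat.log 2 N : ℕ) * Real.log 2 ≤ Real.log N := by
      rw [← Real.log_pow]
      exact Real.log_le_log (by positivity) e1
    have := Real.log_two_gt_d9
    nlinarith [Nat.cast_nonneg (α := ℝ) (Nat.log 2 N)]
  have h5 : ((Nat.log 2 N : ℕ) : ℝ) + 1 ≤ 3 * Real.log N := by linarith
  calc C * ((Nat.log 2 N : ℕ) + 1 : ℝ) ≤ |C| * ((Nat.log 2 N : ℕ) + 1 : ℝ) :=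
        mul_le_mul_of_nonneg_right (le_abs_self _) (by positivity)
    _ ≤ (|C| + 1) * (3 * Real.log N) := by
        refine mul_le_mul (by linarith) h5 (by positivity) (by positivity)
    _ ≤ (|C| + 1) * (3 * (1 / (4 * (|C| + 1)) * (N : ℝ) ^ c)) := by
        refine mul_le_mul_of_nonneg_left ?_ (by positivity)
        linarith
    _ = 3 / 4 * (N : ℝ) ^ c := by
        have : |C| + 1 ≠ 0 := by positivity
        field_simp
    _ ≤ (N : ℝ) ^ c := by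
        have : 0 ≤ (N : ℝ) ^ c := by positivity
        linarith

lemma fm_le (g : ℕ → ℝ) (hg : ∀ n, g n = 1 ∨ g n = -1) (m n : ℕ) : |fm g m n| ≤ 1 := by
  unfold fm
  rw [abs_mul, abs_mul]
  have h1 : |g n| = 1 := by rcases hg n with h | h <;> rw [h] <;> norm_num
  have h2 := mu_abs n
  have h3 : |((jacobiSym (n : ℤ) m : ℤ) : ℝ)| ≤ 1 := by
    rcases jacobiSym.trichotomy (n : ℤ) m with h | h | h <;> rw [h] <;> norm_num
  rw [h1, one_mul]
  calc |mu n| * |((jacobiSym (n : ℤ) m : ℤ) : ℝ)| ≤ 1 * 1 :=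
        mul_le_mul h2 h3 (abs_nonneg _) (by norm_num)
    _ = 1 := one_mul _

lemma Cop_mono {N M m : ℕ} (h : N ≤ M) (hm : Cop M m) : Cop N m := fun n h1 h2 => hm n h1 (by omega)

lemma Fc_iff (g : ℕ → ℝ) (m N h : ℕ) (hh : 1 ≤ h) (t : ℝ) :
    Fc (fm g m) N h t =
      (((Ico N (2 * N)).filter fun x => Wm g h m x / √(6 / Real.pi ^ 2 * h) ≤ t).card : ℝ) / N := by
  unfold Fc
  have hs : 0 < √(6 / Real.pi ^ 2 * (h : ℝ)) := by
    apply Real.sqrt_pos.2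
    have : (0 : ℝ) < h := by exact_mod_cast hh
    positivity
  congr 3
  ext x
  rw [mem_filter, mem_filter, W_eq, div_le_iff₀ hs]

/-- the number of the exceptional moduli -/
lemma card_bound {P : ℕ} {N : ℕ} {c1 c2 c : ℝ} (hN : 1 ≤ N) (n1 n2 : ℕ) (h1 : 2 * c ≤ c1) (h2 : 2 * c ≤ c2)
    (S1 S2 : ℕ → Finset ℕ) (hS1 : ∀ i, ((S1 i).card : ℝ) ≤ P * (N : ℝ) ^ (-c1))
    (hS2 : ∀ i, ((S2 i).card : ℝ) ≤ P * (N : ℝ) ^ (-c2)) (hn : (n1 : ℝ) + n2 ≤ (N : ℝ) ^ c)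
    (I1 I2 : Finset ℕ) (hI1 : I1.card ≤ n1) (hI2 : I2.card ≤ n2) :
    (((I1.biUnion S1) ∪ (I2.biUnion S2)).card : ℝ) ≤ P * (N : ℝ) ^ (-c) := by
  have hN1 : (1 : ℝ) ≤ N := by exact_mod_cast hN
  have hN0 : (0 : ℝ) < N := by linarith
  have hP : (0 : ℝ) ≤ P := Nat.cast_nonneg P
  have a1 : (((I1.biUnion S1) ∪ (I2.biUnion S2)).card : ℝ) ≤
      ∑ i ∈ I1, ((S1 i).card : ℝ) + ∑ i ∈ I2, ((S2 i).card : ℝ) := by
    have b1 : ((I1.biUnion S1) ∪ (I2.biUnion S2)).card ≤ ∑ i ∈ I1, (S1 i).card + ∑ i ∈ I2, (S2 i).card :=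
      (card_union_le _ _).trans (add_le_add card_biUnion_le card_biUnion_le)
    exact_mod_cast b1
  have a2 : ∑ i ∈ I1, ((S1 i).card : ℝ) ≤ n1 * (P * (N : ℝ) ^ (-(2 * c))) := by
    calc ∑ i ∈ I1, ((S1 i).card : ℝ) ≤ ∑ _i ∈ I1, P * (N : ℝ) ^ (-(2 * c)) := by
          refine sum_le_sum fun i _ => (hS1 i).trans ?_
          refine mul_le_mul_of_nonneg_left ?_ hP
          exact Real.rpow_le_rpow_of_exponent_le hN1 (by linarith)
      _ = I1.card * (P * (N : ℝ) ^ (-(2 * c))) := by rw [sum_const, nsmul_eq_mul]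
      _ ≤ n1 * (P * (N : ℝ) ^ (-(2 * c))) := by
          refine mul_le_mul_of_nonneg_right (by exact_mod_cast hI1) (by positivity)
  have a3 : ∑ i ∈ I2, ((S2 i).card : ℝ) ≤ n2 * (P * (N : ℝ) ^ (-(2 * c))) := by
    calc ∑ i ∈ I2, ((S2 i).card : ℝ) ≤ ∑ _i ∈ I2, P * (N : ℝ) ^ (-(2 * c)) := by
          refine sum_le_sum fun i _ => (hS2 i).trans ?_
          refine mul_le_mul_of_nonneg_left ?_ hP
          exact Real.rpow_le_rpow_of_exponent_le hN1 (by linarith)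
      _ = I2.card * (P * (N : ℝ) ^ (-(2 * c))) := by rw [sum_const, nsmul_eq_mul]
      _ ≤ n2 * (P * (N : ℝ) ^ (-(2 * c))) := by
          refine mul_le_mul_of_nonneg_right (by exact_mod_cast hI2) (by positivity)
  have a4 : (N : ℝ) ^ (-(2 * c)) = (N : ℝ) ^ (-c) * (N : ℝ) ^ (-c) := by
    rw [← Real.rpow_add hN0]; congr 1; ring
  have a5 : (N : ℝ) ^ c * (N : ℝ) ^ (-c) = 1 := by
    rw [← Real.rpow_add hN0, add_neg_cancel, Real.rpow_zero]
  calc (((I1.biUnion S1) ∪ (I2.biUnion S2)).card : ℝ) ≤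
        n1 * (P * (N : ℝ) ^ (-(2 * c))) + n2 * (P * (N : ℝ) ^ (-(2 * c))) := by linarith
    _ = ((n1 : ℝ) + n2) * (P * (N : ℝ) ^ (-(2 * c))) := by ring
    _ ≤ (N : ℝ) ^ c * (P * (N : ℝ) ^ (-(2 * c))) := mul_le_mul_of_nonneg_right hn (by positivity)
    _ = ((N : ℝ) ^ c * (N : ℝ) ^ (-c)) * (P * (N : ℝ) ^ (-c)) := by rw [a4]; ring
    _ = P * (N : ℝ) ^ (-c) := by rw [a5, one_mul]

open Classical in
theorem law_uni (h3 : S_Cnt) (h4 : S_Odd) (h5 : S_Char) (h7 : S_Mean) (h8 : S_Pairs) (u1 : S_Chain)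
    (u2 : S_CompH) (u4 : S_Snd) (ε δ : ℝ) (hε : 0 < ε) (hε1 : ε ≤ 1 / 2) (hδ : 0 < δ) :
    ∃ (c : ℝ) (A N₀ : ℕ), 0 < c ∧ ∀ (g : ℕ → ℝ) (N P : ℕ), (∀ n, g n = 1 ∨ g n = -1) → N₀ ≤ N → N ^ A ≤ P →
      ∃ E : Finset ℕ, (E.card : ℝ) ≤ P * (N : ℝ) ^ (-c) ∧ ∀ m ≤ P, Odd m → Cop (2 * N) m → m ∉ E →
        ∀ h : ℕ, (N : ℝ) ^ ε ≤ h → (h : ℝ) ≤ (N : ℝ) ^ (1 - ε) →
          ∀ t : ℝ, |Fc (fm g m) N h t - Q282MM.Phi t| ≤ δ := by
  obtain ⟨q0, η, hq0, hη, HH⟩ := u2 (δ / 2) (by positivity)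
  obtain ⟨c1, A1, N1, hc1, H1⟩ := law_int h3 h4 h5 h7 h8 (ε / 2) (δ / 2) (by positivity) (by positivity)
  obtain ⟨c2, K, A2, N2, hc2, hK, H2⟩ := u4 (ε / 10) (by positivity)
  -- the fineness of the net
  obtain ⟨q, hqq0, hqK⟩ : ∃ q : ℕ, q0 ≤ q ∧ 18 * K ≤ η / 2 * q := by
    obtain ⟨q1, hq1⟩ := exists_nat_ge (18 * K / (η / 2))
    refine ⟨max q0 q1, le_max_left _ _, ?_⟩
    rw [div_le_iff₀ (by positivity)] at hq1
    have : (q1 : ℝ) ≤ (max q0 q1 : ℕ) := by exact_mod_cast le_max_right _ _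
    nlinarith
  have hq1 : 1 ≤ q := hq0.trans hqq0
  have hq0R : (0 : ℝ) < q := by exact_mod_cast hq1
  set R : ℝ := 8 * q + 2 + 16 ^ 5 * (4 * q ^ 2) / (η * q / 2) ^ 5 with hR
  have hRq : 8 * (q : ℝ) ≤ R := by
    have : 0 ≤ 16 ^ 5 * (4 * (q : ℝ) ^ 2) / (η * q / 2) ^ 5 := by positivity
    rw [hR]; linarith
  have hR2 : 2 ≤ R := by
    have : 0 ≤ 16 ^ 5 * (4 * (q : ℝ) ^ 2) / (η * q / 2) ^ 5 := by positivity
    rw [hR]; linarith
  have hR3 : 16 ^ 5 * (4 * (q : ℝ) ^ 2) ≤ R * (η * q / 2) ^ 5 := by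
    have h1 : 16 ^ 5 * (4 * (q : ℝ) ^ 2) / (η * q / 2) ^ 5 ≤ R := by rw [hR]; linarith
    rwa [div_le_iff₀ (by positivity)] at h1
  -- large heights
  obtain ⟨N3, hN3⟩ : ∃ N3 : ℕ, ∀ N : ℕ, N3 ≤ N → R ≤ (N : ℝ) ^ (ε / 10) := by
    have := (tendsto_rpow_atTop (by positivity : 0 < ε / 10)).comp tendsto_natCast_atTop_atTop
    obtain ⟨N₁, h⟩ := (Filter.tendsto_atTop.1 this R).exists_forall_of_atTop
    exact ⟨N₁, h⟩
  set c := min c1 c2 / 2 with hc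
  have hc0 : 0 < c := by
    have : 0 < min c1 c2 := lt_min hc1 hc2
    rw [hc]; linarith
  obtain ⟨N4, hN4⟩ := log_small (q + 2) c hc0
  refine ⟨c, A1 + 2 * A2, max (max N1 N2) (max N3 (max N4 2)), hc0, fun g N P hg hN hP => ?_⟩
  have b1 : N1 ≤ N := (le_max_left _ _).trans ((le_max_left _ _).trans hN)
  have b2 : N2 ≤ N := (le_max_right _ _).trans ((le_max_left _ _).trans hN)
  have b3 : N3 ≤ N := (le_max_left _ _).trans ((le_max_right _ _).trans hN)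
  have b4 : N4 ≤ N := (le_max_left _ _).trans ((le_max_right _ _).trans ((le_max_right _ _).trans hN))
  have b5 : 2 ≤ N := (le_max_right _ _).trans ((le_max_right _ _).trans ((le_max_right _ _).trans hN))
  have hN1 : (1 : ℝ) ≤ N := by exact_mod_cast (by omega : 1 ≤ N)
  have hN0 : (0 : ℝ) < N := by linarith
  have hP1 : N ^ A1 ≤ P := (Nat.pow_le_pow_right (by omega) (by omega)).trans hP
  have hP2 : N ^ A2 ≤ P := (Nat.pow_le_pow_right (by omega) (by omega)).trans hP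
  have hP3 : (2 * N) ^ A2 ≤ P := by
    calc (2 * N) ^ A2 ≤ (N ^ 2) ^ A2 := Nat.pow_le_pow_left (by nlinarith) _
      _ = N ^ (2 * A2) := by rw [← pow_mul]
      _ ≤ N ^ (A1 + 2 * A2) := Nat.pow_le_pow_right (by omega) (by omega)
      _ ≤ P := hP
  have hP0 : (0 : ℝ) ≤ P := Nat.cast_nonneg P
  -- the exceptional sets
  have K1 : ∀ h : ℕ, ∃ E : Finset ℕ, (E.card : ℝ) ≤ P * (N : ℝ) ^ (-c1) ∧ ((N : ℝ) ^ (ε / 2) ≤ h →
      (h : ℝ) ≤ (N : ℝ) ^ (1 - ε / 2) → ∀ m ≤ P, Odd m → Cop N m → m ∉ E →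
        ∀ t : ℝ, |(((Ico N (2 * N)).filter fun x => Wm g h m x / √(6 / Real.pi ^ 2 * h) ≤ t).card : ℝ) / N -
          Q282MM.Phi t| ≤ δ / 2) := by
    intro h
    by_cases hh : (N : ℝ) ^ (ε / 2) ≤ h ∧ (h : ℝ) ≤ (N : ℝ) ^ (1 - ε / 2)
    · obtain ⟨E, e1, e2⟩ := H1 g N h P hg b1 hh.1 hh.2 hP1
      exact ⟨E, e1, fun _ _ => e2⟩
    · exact ⟨∅, by simp only [card_empty, Nat.cast_zero]; positivity, fun x1 x2 => absurd ⟨x1, x2⟩ hh⟩
  have K2 : ∀ i : ℕ, ∃ E : Finset ℕ, (E.card : ℝ) ≤ P * (N : ℝ) ^ (-c2) ∧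
      ∀ M : ℕ, M = (if i % 2 = 0 then N else 2 * N) → ∀ h : ℕ, h = 2 ^ (i / 2) →
        (M : ℝ) ^ (ε / 10) ≤ h → (h : ℝ) ≤ (M : ℝ) ^ (1 - ε / 10) → ∀ m ≤ P, Odd m → Cop M m → m ∉ E →
        ∑ x ∈ Ico M (2 * M), Wm g h m x ^ 2 ≤ K * h * M := by
    intro i
    obtain ⟨M, hM⟩ : ∃ M : ℕ, M = (if i % 2 = 0 then N else 2 * N) := ⟨_, rfl⟩
    obtain ⟨h, hh⟩ : ∃ h : ℕ, h = 2 ^ (i / 2) := ⟨_, rfl⟩
    have hMN : N ≤ M := by
      rw [hM]; split_ifs <;> omega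
    have hMP : M ^ A2 ≤ P := by
      rw [hM]; split_ifs
      · exact hP2
      · exact hP3
    by_cases hc : (M : ℝ) ^ (ε / 10) ≤ h ∧ (h : ℝ) ≤ (M : ℝ) ^ (1 - ε / 10)
    · obtain ⟨E, e1, e2⟩ := H2 g M h P hg (b2.trans hMN) hc.1 hc.2 hMP
      refine ⟨E, e1.trans (mul_le_mul_of_nonneg_left ?_ hP0), ?_⟩
      · exact Real.rpow_le_rpow_of_nonpos hN0 (by exact_mod_cast hMN) (by linarith)
      · rintro M' hM' h' hh' _ _
        rw [← hM] at hM'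
        rw [← hh] at hh'
        rw [hM', hh']
        exact e2
    · refine ⟨∅, by simp only [card_empty, Nat.cast_zero]; positivity, ?_⟩
      rintro M' hM' h' hh' x1 x2
      rw [← hM] at hM'
      rw [← hh] at hh'
      rw [hM', hh'] at x1 x2
      exact absurd ⟨x1, x2⟩ hc
  choose S1 hS1 L1 using K1
  choose S2 hS2 L2 using K2
  set ℓ := Nat.log 2 N with hℓ
  set I1 : Finset ℕ := ((Ico q (2 * q)) ×ˢ (range (ℓ + 1))).image (fun p => p.1 * 2 ^ p.2) with hI1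
  set I2 : Finset ℕ := range (2 * (ℓ + 1)) with hI2
  refine ⟨(I1.biUnion S1) ∪ (I2.biUnion S2), ?_, fun m hmP hmo hcop hmE h hh1 hh2 t => ?_⟩
  · refine card_bound (n1 := q * (ℓ + 1)) (n2 := 2 * (ℓ + 1)) (by omega) (by rw [hc]; linarith [min_le_left c1 c2])
      (by rw [hc]; linarith [min_le_right c1 c2]) S1 S2 hS1 hS2 ?_ I1 I2 ?_ ?_
    · have := hN4 N b4
      rw [← hℓ] at this
      push_cast
      linarith
    · rw [hI1]
      refine card_image_le.trans ?_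
      rw [card_product, Nat.card_Ico, card_range]
      apply Nat.mul_le_mul_right
      omega
    · rw [hI2, card_range]
  rw [mem_union, not_or] at hmE
  have hE1 : ∀ a J : ℕ, q ≤ a → a < 2 * q → J ≤ ℓ → m ∉ S1 (a * 2 ^ J) := by
    intro a J ha1 ha2 hJ hm
    refine hmE.1 (mem_biUnion.2 ⟨a * 2 ^ J, ?_, hm⟩)
    rw [hI1, mem_image]
    exact ⟨(a, J), mem_product.2 ⟨mem_Ico.2 ⟨ha1, ha2⟩, mem_range.2 (by omega)⟩, rfl⟩
  have hE2 : ∀ i : ℕ, i < 2 * (ℓ + 1) → m ∉ S2 i := by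
    intro i hi hm
    exact hmE.2 (mem_biUnion.2 ⟨i, mem_range.2 hi, hm⟩)
  -- the scale
  set y := (N : ℝ) ^ (ε / 10) with hy
  have hyR : R ≤ y := hN3 N b3
  have hy2 : 2 ≤ y := hR2.trans hyR
  have hy0 : 0 < y := by linarith
  have hyε : (N : ℝ) ^ ε = y ^ 10 := by
    rw [hy, ← Real.rpow_natCast, ← Real.rpow_mul hN0.le]
    congr 1
    push_cast
    ring
  have hyε2 : (N : ℝ) ^ (ε / 2) = y ^ 5 := by
    rw [hy, ← Real.rpow_natCast, ← Real.rpow_mul hN0.le]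
    congr 1
    push_cast
    ring
  rw [hyε] at hh1
  have hhN : h ≤ N := by
    have : (h : ℝ) ≤ N := hh2.trans (by
      calc (N : ℝ) ^ (1 - ε) ≤ (N : ℝ) ^ (1 : ℝ) := Real.rpow_le_rpow_of_exponent_le hN1 (by linarith)
        _ = N := Real.rpow_one _)
    exact_mod_cast this
  have p1 : ∀ k : ℕ, 1 ≤ y ^ k := fun k => one_le_pow₀ (by linarith)
  have hqh : q ≤ h := by
    have e1 : y ≤ y ^ 10 := le_self_pow₀ (by linarith) (by norm_num)
    have : (q : ℝ) ≤ h := by linarith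
    exact_mod_cast this
  obtain ⟨a, J, ha1, ha2, ha3, ha4⟩ := net q h hq1 hqh
  have hJN : J ≤ ℓ := by
    apply Nat.le_log_of_pow_le (by norm_num)
    refine le_trans ?_ hhN
    refine le_trans ?_ ha3
    exact Nat.le_mul_of_pos_left _ (by omega)
  obtain ⟨L, hL⟩ : ∃ L, h = a * 2 ^ J + L := ⟨h - a * 2 ^ J, by omega⟩
  have hLJ : L < 2 ^ J := by
    rw [add_mul, one_mul] at ha4
    omega
  set h' := a * 2 ^ J with hh'
  have hh'h : h' ≤ h := by omega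
  have hJpos : (0 : ℝ) < 2 ^ J := by positivity
  have h'lb : (h : ℝ) ≤ 2 * h' := by
    have : h ≤ 2 * h' := by
      have : 2 ^ J ≤ h' := by
        rw [hh']
        exact Nat.le_mul_of_pos_left _ (by omega)
      omega
    exact_mod_cast this
  have hJlb : y ^ 10 ≤ 2 * q * 2 ^ J := by
    have : h ≤ 2 * q * 2 ^ J := by
      refine ha4.le.trans ?_
      apply Nat.mul_le_mul_right
      omega
    have : (h : ℝ) ≤ 2 * q * 2 ^ J := by exact_mod_cast this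
    linarith
  -- the law for `h'`
  have k1 : (N : ℝ) ^ (ε / 2) ≤ h' := by
    rw [hyε2]
    have e1 : y ^ 10 = y ^ 5 * y ^ 5 := by ring
    have e2 : 2 ≤ y ^ 5 := hy2.trans (le_self_pow₀ (by linarith) (by norm_num))
    nlinarith
  have k2 : (h' : ℝ) ≤ (N : ℝ) ^ (1 - ε / 2) := by
    calc (h' : ℝ) ≤ h := by exact_mod_cast hh'h
      _ ≤ (N : ℝ) ^ (1 - ε) := hh2
      _ ≤ (N : ℝ) ^ (1 - ε / 2) := Real.rpow_le_rpow_of_exponent_le hN1 (by linarith)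
  have hcopN : Cop N m := Cop_mono (by omega) hcop
  have l1 := L1 h' k1 k2 m hmP hmo hcopN (hE1 a J ha1 ha2 hJN)
  have hh'1 : 1 ≤ h' := by
    have : (1 : ℝ) ≤ h' := le_trans (by rw [hyε2]; exact p1 5) k1
    exact_mod_cast this
  -- the second moments
  obtain ⟨i0, hi1, hi2⟩ := exists_nat_pow_near (show 1 ≤ 2 * y by linarith) (show (1 : ℝ) < 2 by norm_num)
  set j0 := i0 + 1 with hj0
  have hj0u : (2 : ℝ) ^ j0 ≤ 4 * y := by
    rw [hj0, pow_succ]; linarith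
  have hj0J : j0 ≤ J := by
    by_contra hcon
    have e1 : (2 : ℝ) ^ J ≤ 2 ^ i0 := pow_le_pow_right₀ (by norm_num) (by omega)
    have e2 : y ^ 10 ≤ 2 * q * (2 * y) := hJlb.trans (mul_le_mul_of_nonneg_left (e1.trans hi1) (by positivity))
    have e3 : y ^ 10 = y ^ 8 * (y * y) := by ring
    have e4 : y * y ≤ y ^ 8 * (y * y) := le_mul_of_one_le_left (by positivity) (p1 8)
    nlinarith
  have sm : ∀ j, j0 ≤ j → j < J → ∑ x ∈ Ico N (4 * N), W (fm g m) x (2 ^ j) ^ 2 ≤ (3 * K) * 2 ^ j * N := by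
    intro j hj1 hj2
    have s1 : Ico N (4 * N) = Ico N (2 * N) ∪ Ico (2 * N) (2 * (2 * N)) := by
      rw [Ico_union_Ico_eq_Ico (by omega) (by omega)]
      congr 1
      ring
    have s2 : Disjoint (Ico N (2 * N)) (Ico (2 * N) (2 * (2 * N))) := Ico_disjoint_Ico_consecutive _ _ _
    rw [s1, sum_union s2]
    have hjy : 2 * y ≤ ((2 ^ j : ℕ) : ℝ) := by
      push_cast
      calc 2 * y ≤ 2 ^ j0 := hi2.le
        _ ≤ 2 ^ j := pow_le_pow_right₀ (by norm_num) hj1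
    have hjh : ((2 ^ j : ℕ) : ℝ) ≤ h := by
      have : 2 ^ j ≤ h := by
        refine le_trans ?_ ha3
        refine le_trans (Nat.pow_le_pow_right (by norm_num) hj2.le) ?_
        exact Nat.le_mul_of_pos_left _ (by omega)
      exact_mod_cast this
    have hjN : ((2 ^ j : ℕ) : ℝ) ≤ (N : ℝ) ^ (1 - ε / 10) :=
      hjh.trans (hh2.trans (Real.rpow_le_rpow_of_exponent_le hN1 (by linarith)))
    have t1 := L2 (2 * j) N (by rw [if_pos (by omega)]) (2 ^ j) (by congr 1; omega) (by rw [← hy]; linarith)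
      hjN m hmP hmo hcopN (hE2 (2 * j) (by omega))
    have t2 := L2 (2 * j + 1) (2 * N) (by rw [if_neg (by omega)]) (2 ^ j) (by congr 1; omega)
      (by
        push_cast
        rw [Real.mul_rpow (by norm_num) hN0.le, ← hy]
        have : (2 : ℝ) ^ (ε / 10) ≤ 2 := by
          calc (2 : ℝ) ^ (ε / 10) ≤ 2 ^ (1 : ℝ) := Real.rpow_le_rpow_of_exponent_le (by norm_num) (by linarith)
            _ = 2 := Real.rpow_one _
        push_cast at hjy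
        nlinarith)
      (hjN.trans (Real.rpow_le_rpow hN0.le (by push_cast; linarith) (by linarith)))
      m hmP hmo hcop (hE2 (2 * j + 1) (by omega))
    simp only [← W_eq] at t1 t2
    push_cast at t1 t2
    linarith
  have ch := u1 (fm g m) N j0 (3 * K) (fm_le g hg m) (by positivity) J hj0J sm L hLJ h' (by omega)
  have hqL : q0 * L ≤ h' := by
    calc q0 * L ≤ a * 2 ^ J := Nat.mul_le_mul (hqq0.trans ha1) hLJ.le
      _ = h' := rfl
  have hmain : 6 * (3 * K) * 2 ^ J + 4 ^ j0 * (3 / 2 : ℝ) ^ (J - j0) ≤ η * h' := by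
    have e1 : (q : ℝ) * 2 ^ J ≤ h' := by
      have : q * 2 ^ J ≤ h' := Nat.mul_le_mul_right _ ha1
      exact_mod_cast this
    have e2 : 6 * (3 * K) * 2 ^ J ≤ η / 2 * h' := by
      have : 18 * K * 2 ^ J ≤ η / 2 * q * 2 ^ J := mul_le_mul_of_nonneg_right hqK hJpos.le
      nlinarith
    have e3 : (4 : ℝ) ^ j0 * (3 / 2 : ℝ) ^ (J - j0) ≤ η / 2 * h' := by
      have f1 : (3 / 2 : ℝ) ^ (J - j0) ≤ (3 / 2) ^ J := pow_le_pow_right₀ (by norm_num) (by omega)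
      have f2 : (4 : ℝ) ^ j0 ≤ 16 * y ^ 2 := by
        have : (4 : ℝ) ^ j0 = (2 ^ j0) ^ 2 := by
          rw [← pow_mul, mul_comm, pow_mul]; norm_num
        rw [this]
        calc ((2 : ℝ) ^ j0) ^ 2 ≤ (4 * y) ^ 2 := pow_le_pow_left₀ (by positivity) hj0u 2
          _ = 16 * y ^ 2 := by ring
      have f3 : 16 * y ^ 2 ≤ (η * q / 2) * (4 / 3) ^ J := by
        refine le_of_pow_le_pow_left₀ (n := 5) (by norm_num) (by positivity) ?_
        have g1 : ((4 / 3 : ℝ) ^ J) ^ 5 = ((4 / 3) ^ 5) ^ J := by rw [← pow_mul, ← pow_mul, mul_comm]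
        have g2 : (4 : ℝ) ^ J ≤ ((4 / 3) ^ 5) ^ J := pow_le_pow_left₀ (by norm_num) (by norm_num) J
        have g3 : (4 : ℝ) ^ J = (2 ^ J) ^ 2 := by
          rw [← pow_mul, mul_comm, pow_mul]; norm_num
        have g4 : (y ^ 10) ^ 2 ≤ (2 * q * 2 ^ J) ^ 2 := pow_le_pow_left₀ (by positivity) hJlb 2
        have g5 : (y ^ 10) ^ 2 = y ^ 10 * y ^ 10 := by ring
        have g6 : R ≤ y ^ 10 := hyR.trans (le_self_pow₀ (by linarith) (by norm_num))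
        have g7 : 16 ^ 5 * (4 * (q : ℝ) ^ 2) * y ^ 10 ≤ (η * q / 2) ^ 5 * (4 * (q : ℝ) ^ 2) * (2 ^ J) ^ 2 := by
          calc 16 ^ 5 * (4 * (q : ℝ) ^ 2) * y ^ 10 ≤ (R * (η * q / 2) ^ 5) * y ^ 10 :=
                mul_le_mul_of_nonneg_right hR3 (by positivity)
            _ ≤ (y ^ 10 * (η * q / 2) ^ 5) * y ^ 10 := by
                refine mul_le_mul_of_nonneg_right ?_ (by positivity)
                exact mul_le_mul_of_nonneg_right g6 (by positivity)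
            _ = (η * q / 2) ^ 5 * (y ^ 10) ^ 2 := by ring
            _ ≤ (η * q / 2) ^ 5 * (2 * q * 2 ^ J) ^ 2 := mul_le_mul_of_nonneg_left g4 (by positivity)
            _ = (η * q / 2) ^ 5 * (4 * (q : ℝ) ^ 2) * (2 ^ J) ^ 2 := by ring
        have g8 : 16 ^ 5 * y ^ 10 ≤ (η * q / 2) ^ 5 * (2 ^ J) ^ 2 := by
          have hz : (0 : ℝ) < 4 * (q : ℝ) ^ 2 := by positivity
          refine le_of_mul_le_mul_right ?_ hz
          calc 16 ^ 5 * y ^ 10 * (4 * (q : ℝ) ^ 2) = 16 ^ 5 * (4 * (q : ℝ) ^ 2) * y ^ 10 := by ring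
            _ ≤ (η * q / 2) ^ 5 * (4 * (q : ℝ) ^ 2) * (2 ^ J) ^ 2 := g7
            _ = (η * q / 2) ^ 5 * (2 ^ J) ^ 2 * (4 * (q : ℝ) ^ 2) := by ring
        calc (16 * y ^ 2) ^ 5 = 16 ^ 5 * y ^ 10 := by ring
          _ ≤ (η * q / 2) ^ 5 * (2 ^ J) ^ 2 := g8
          _ ≤ (η * q / 2) ^ 5 * ((4 / 3) ^ 5) ^ J := by
              refine mul_le_mul_of_nonneg_left ?_ (by positivity)
              rw [← g3]; exact g2
          _ = (η * q / 2 * (4 / 3) ^ J) ^ 5 := by rw [mul_pow, g1]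
      have f4 : (4 / 3 : ℝ) ^ J * (3 / 2) ^ J = 2 ^ J := by
        rw [← mul_pow]; norm_num
      calc (4 : ℝ) ^ j0 * (3 / 2 : ℝ) ^ (J - j0) ≤ (16 * y ^ 2) * (3 / 2) ^ J :=
            mul_le_mul f2 f1 (by positivity) (by positivity)
        _ ≤ ((η * q / 2) * (4 / 3) ^ J) * (3 / 2) ^ J := mul_le_mul_of_nonneg_right f3 (by positivity)
        _ = η / 2 * (q * ((4 / 3) ^ J * (3 / 2) ^ J)) := by ring
        _ = η / 2 * (q * 2 ^ J) := by rw [f4]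
        _ ≤ η / 2 * h' := mul_le_mul_of_nonneg_left e1 (by positivity)
    linarith
  have fin := HH (fm g m) N h' L (by omega) hh'1 hqL
    (ch.trans (mul_le_mul_of_nonneg_right hmain hN0.le))
    (fun t => by rw [Fc_iff g m N h' hh'1]; exact l1 t) t
  rw [← hL] at fin
  linarith

end Pool.Agent.Q152.QT
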