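import Pool.Agent.Q152.QT.Diag

/-! # Moments -/

set_option autoImplicit false

namespace Pool.Agent.Q152.QT

open Finset Pool.Agent.Y293.SF

lemma mem_SqT {ι : Type} [Fintype ι] {x : ι → ℕ} {h : ℕ} {n : ι → ℕ} : n ∈ SqT x h ↔
    (∀ i, n i ∈ Ioc (x i) (x i + h)) ∧ (∀ i, Squarefree (n i)) ∧ IsSquare (∏ i, n i) := by
  unfold SqT
  simp only [mem_filter, Fintype.mem_piFinset]

theorem ot_le (h3 : S_Cnt) (h4 : S_Odd) (k : ℕ) (ε : ℝ) (hε : 0 < ε) : ∃ c C : ℝ, 0 < c ∧ 0 < C ∧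
    ∀ N h x : ℕ, 1 ≤ N → (N : ℝ) ^ ε ≤ h → (h : ℝ) ≤ (N : ℝ) ^ (1 - ε) → x ∈ Ico N (2 * N) →
      ((Ot k h x).card : ℝ) ≤ C * √(h : ℝ) ^ k * (N : ℝ) ^ (-c) := by
  classical
  rcases Nat.eq_zero_or_pos k with rfl | hk
  · refine ⟨1, 1, one_pos, one_pos, fun N h x hN _ _ _ => ?_⟩
    have : Ot 0 h x = ∅ := by
      unfold Ot
      refine filter_eq_empty_iff.2 fun t _ hc => hc.2 fun v => ?_
      simp
    rw [this]
    simp only [card_empty, Nat.cast_zero]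
    positivity
  obtain ⟨c, C, hc, hC, H⟩ := h3 (Fin k) ε (1 / k) ε hε (by positivity) hε
  refine ⟨c, k * k * C, hc, by positivity, fun N h x hN h1 h2 hx => ?_⟩
  have hN0 : (0 : ℝ) < N := by exact_mod_cast hN
  set B : Fin k → Fin k → Finset (Fin k → ℕ) := fun i j =>
    (SqT (fun _ : Fin k => x) h).filter fun n => (N : ℝ) ^ ((1 : ℝ) / k) ≤ (Nat.gcd (n i) (n j) : ℕ) ∧
        ((Nat.gcd (n i) (n j) : ℕ) : ℝ) ≤ (N : ℝ) ^ (1 - ε) with hB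
  have hsub : Ot k h x ⊆ (univ : Finset (Fin k × Fin k)).biUnion
      (fun p => if p.1 = p.2 then ∅ else B p.1 p.2) := by
    intro t ht
    unfold Ot at ht
    rw [mem_filter] at ht
    obtain ⟨ht1, ht2, ht3⟩ := ht
    have hm := fun i => mem_Sf.1 ((Fintype.mem_piFinset.1 ht1) i)
    have hxN := (mem_Ico.1 hx).1
    obtain ⟨i, j, hij, hg⟩ := h4 (Fin k) t (fun i => (hm i).2) (fun i => by
      have := (hm i).1.1
      omega) ht2 ht3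
    have hne : i ≠ j := fun h => hij (by rw [h])
    rw [mem_biUnion]
    refine ⟨(i, j), mem_univ _, ?_⟩
    rw [if_neg hne, hB]
    simp only
    rw [mem_filter]
    refine ⟨?_, ?_, ?_⟩
    · rw [mem_SqT]
      exact ⟨fun i => mem_Ioc.2 (hm i).1, fun i => (hm i).2, ht2⟩
    · rw [Fintype.card_fin] at hg
      have q1 : (N : ℝ) ≤ ((Nat.gcd (t i) (t j) : ℕ) : ℝ) ^ k := by
        have : N ≤ (Nat.gcd (t i) (t j)) ^ k := le_trans (by have := (hm i).1.1; omega) hg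
        exact_mod_cast this
      calc (N : ℝ) ^ ((1 : ℝ) / k) ≤ (((Nat.gcd (t i) (t j) : ℕ) : ℝ) ^ k) ^ ((1 : ℝ) / k) :=
            Real.rpow_le_rpow hN0.le q1 (by positivity)
        _ = ((Nat.gcd (t i) (t j) : ℕ) : ℝ) := by
            rw [← Real.rpow_natCast, ← Real.rpow_mul (Nat.cast_nonneg _), mul_one_div_cancel
              (by positivity), Real.rpow_one]
    · refine le_trans ?_ h2
      have d1 : Nat.gcd (t i) (t j) ∣ t i := Nat.gcd_dvd_left _ _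
      have d2 : Nat.gcd (t i) (t j) ∣ t j := Nat.gcd_dvd_right _ _
      have b1 := (hm i).1
      have b2 := (hm j).1
      have : Nat.gcd (t i) (t j) ≤ h := by
        rcases lt_or_gt_of_ne hij with h5 | h5
        · have := Nat.le_of_dvd (by omega) (Nat.dvd_sub d2 d1)
          omega
        · have := Nat.le_of_dvd (by omega) (Nat.dvd_sub d1 d2)
          omega
      exact_mod_cast this
  have hN1 : (0 : ℝ) ≤ C * √(h : ℝ) ^ k * (N : ℝ) ^ (-c) := by positivity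
  calc ((Ot k h x).card : ℝ) ≤ (((univ : Finset (Fin k × Fin k)).biUnion
      (fun p => if p.1 = p.2 then ∅ else B p.1 p.2)).card : ℝ) := by exact_mod_cast card_le_card hsub
    _ ≤ ∑ p : Fin k × Fin k, ((if p.1 = p.2 then (∅ : Finset (Fin k → ℕ)) else B p.1 p.2).card : ℝ) := by
        exact_mod_cast card_biUnion_le
    _ ≤ ∑ _p : Fin k × Fin k, C * √(h : ℝ) ^ k * (N : ℝ) ^ (-c) := by
        refine sum_le_sum fun p _ => ?_
        split_ifs with hp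
        · simpa using hN1
        · have := H N h (fun _ => x) hN h1 h2 (fun _ => hx) p.1 p.2 hp
          rw [Fintype.card_fin] at this
          exact this
    _ = k * k * C * √(h : ℝ) ^ k * (N : ℝ) ^ (-c) := by
        rw [sum_const, nsmul_eq_mul, card_univ, Fintype.card_prod, Fintype.card_fin]
        push_cast
        ring

/-- the moments over the window -/
theorem mom (h3 : S_Cnt) (h4 : S_Odd) (h7 : S_Mean) (k : ℕ) (ε : ℝ) (hε : 0 < ε) :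
    ∃ c C : ℝ, 0 < c ∧ 0 ≤ C ∧ ∀ (g : ℕ → ℝ) (N h m : ℕ), (∀ n, g n = 1 ∨ g n = -1) → 1 ≤ N →
      (N : ℝ) ^ ε ≤ h → (h : ℝ) ≤ (N : ℝ) ^ (1 - ε) → Cop N m →
      |(∑ x ∈ Ico N (2 * N), Wm g h m x ^ k) / N - gm k * √(6 / Real.pi ^ 2 * h) ^ k| ≤
        C * √(h : ℝ) ^ k * (N : ℝ) ^ (-c) + |Tk (at' (k := k) g) N h m| / N := by
  obtain ⟨c1, C1, hc1, hC1, H1⟩ := ot_le h3 h4 k ε hε
  obtain ⟨C2, hC2, H2⟩ := h7 k
  refine ⟨min c1 (ε / 2), C1 + C2, lt_min hc1 (by positivity), by positivity,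
    fun g N h m hg hN h1 h2 hm => ?_⟩
  have hN0 : (0 : ℝ) < N := by exact_mod_cast hN
  have hN1 : (1 : ℝ) ≤ N := by exact_mod_cast hN
  have hh1R : (1 : ℝ) ≤ h := le_trans (Real.one_le_rpow hN1 hε.le) h1
  have hh1 : 1 ≤ h := by exact_mod_cast hh1R
  have hhN : h ≤ N := by
    have : (h : ℝ) ≤ N := h2.trans (by
      calc (N : ℝ) ^ (1 - ε) ≤ (N : ℝ) ^ (1 : ℝ) := Real.rpow_le_rpow_of_exponent_le hN1 (by linarith)
        _ = N := Real.rpow_one _)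
    exact_mod_cast this
  have a1 := Wm_mean (k := k) hg hm hhN
  have a2 := H2 N h hh1 hhN
  have hcard : ((Ico N (2 * N)).card : ℝ) = N := by
    rw [Nat.card_Ico]
    congr 1
    omega
  have a3 : ∑ x ∈ Ico N (2 * N), ((Ot k h x).card : ℝ) ≤ N * (C1 * √(h : ℝ) ^ k * (N : ℝ) ^ (-c1)) := by
    refine (sum_le_sum fun x hx => H1 N h x hN h1 h2 hx).trans ?_
    rw [sum_const, nsmul_eq_mul, hcard]
  have hs : (0 : ℝ) ≤ √(h : ℝ) ^ k := by positivity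
  have b1 : (N : ℝ) ^ (-c1) ≤ (N : ℝ) ^ (-(min c1 (ε / 2))) :=
    Real.rpow_le_rpow_of_exponent_le hN1 (by linarith [min_le_left c1 (ε / 2)])
  have b2 : 1 / √(h : ℝ) ≤ (N : ℝ) ^ (-(min c1 (ε / 2))) := by
    have q1 : (N : ℝ) ^ (ε / 2) ≤ √(h : ℝ) := by
      rw [Real.le_sqrt (by positivity) (by positivity), ← Real.rpow_natCast, ← Real.rpow_mul hN0.le]
      refine le_trans (le_of_eq ?_) h1
      congr 1
      push_cast
      ring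
    calc 1 / √(h : ℝ) ≤ 1 / (N : ℝ) ^ (ε / 2) := one_div_le_one_div_of_le (by positivity) q1
      _ = (N : ℝ) ^ (-(ε / 2)) := by rw [Real.rpow_neg hN0.le, one_div]
      _ ≤ _ := Real.rpow_le_rpow_of_exponent_le hN1 (by linarith [min_le_right c1 (ε / 2)])
  have e1 : (∑ x ∈ Ico N (2 * N), Wm g h m x ^ k) / N - gm k * √(6 / Real.pi ^ 2 * h) ^ k =
      (∑ x ∈ Ico N (2 * N), Wm g h m x ^ k - ∑ x ∈ Ico N (2 * N), (Ek k (Sf x h) : ℝ)) / N +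
      ((∑ x ∈ Ico N (2 * N), (Ek k (Sf x h) : ℝ)) / N - gm k * √(6 / Real.pi ^ 2 * h) ^ k) := by
    ring
  rw [e1]
  refine (abs_add_le _ _).trans ?_
  rw [abs_div, abs_of_pos hN0]
  have c1' : |∑ x ∈ Ico N (2 * N), Wm g h m x ^ k - ∑ x ∈ Ico N (2 * N), (Ek k (Sf x h) : ℝ)| / N ≤
      C1 * √(h : ℝ) ^ k * (N : ℝ) ^ (-(min c1 (ε / 2))) + |Tk (at' (k := k) g) N h m| / N := by
    rw [div_le_iff₀ hN0]
    refine a1.trans ?_
    have q1 := mul_le_mul_of_nonneg_left b1 (by positivity : 0 ≤ N * (C1 * √(h : ℝ) ^ k))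
    have q2 : |Tk (at' (k := k) g) N h m| / N * N = |Tk (at' (k := k) g) N h m| :=
      div_mul_cancel₀ _ hN0.ne'
    rw [add_mul, q2]
    nlinarith
  have c2' : C2 * √(h : ℝ) ^ k / √(h : ℝ) ≤ C2 * √(h : ℝ) ^ k * (N : ℝ) ^ (-(min c1 (ε / 2))) := by
    rw [div_eq_mul_one_div]
    exact mul_le_mul_of_nonneg_left b2 (by positivity)
  have : (C1 + C2) * √(h : ℝ) ^ k * (N : ℝ) ^ (-(min c1 (ε / 2))) =
      C1 * √(h : ℝ) ^ k * (N : ℝ) ^ (-(min c1 (ε / 2))) +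
      C2 * √(h : ℝ) ^ k * (N : ℝ) ^ (-(min c1 (ε / 2))) := by ring
  linarith

/-- the exceptional moduli -/
theorem exc (h5 : S_Char) (h8 : S_Pairs) (k : ℕ) (ε : ℝ) (hε : 0 < ε) :
    ∃ (c : ℝ) (A N₀ : ℕ), 0 < c ∧ ∀ (g : ℕ → ℝ) (N h P : ℕ), (∀ n, g n = 1 ∨ g n = -1) → N₀ ≤ N →
      (N : ℝ) ^ ε ≤ h → (h : ℝ) ≤ (N : ℝ) ^ (1 - ε) → N ^ A ≤ P →
      (((range (P + 1)).filter fun m => Odd m ∧
        N * √(h : ℝ) ^ k * (N : ℝ) ^ (-c) < |Tk (at' (k := k) g) N h m|).card : ℝ) ≤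
        P * (N : ℝ) ^ (-c) := by
  classical
  obtain ⟨c, C, hc, hC, H⟩ := h8 k ε hε
  -- `N ^ (-c) * 4 C ≤ N ^ (-3c/4)` for large `N`
  obtain ⟨N₁, hN₁⟩ : ∃ N₁ : ℕ, ∀ N : ℕ, N₁ ≤ N → 4 * C ≤ (N : ℝ) ^ (c / 4) := by
    have := (tendsto_rpow_atTop (by positivity : 0 < c / 4)).comp tendsto_natCast_atTop_atTop
    obtain ⟨N₁, h⟩ := (Filter.tendsto_atTop.1 this (4 * C)).exists_forall_of_atTop
    exact ⟨N₁, h⟩
  refine ⟨c / 4, 3 * k + 3 + ⌈c⌉₊, max N₁ (8 * 9 ^ k + 1), by positivity, fun g N h P hg hN h1 h2 hP => ?_⟩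
  have hNa : N₁ ≤ N := (le_max_left _ _).trans hN
  have hNb : 8 * 9 ^ k + 1 ≤ N := (le_max_right _ _).trans hN
  have hN1' : 1 ≤ N := le_trans (by omega) hNb
  have hN0 : (0 : ℝ) < N := by exact_mod_cast hN1'
  have hN1 : (1 : ℝ) ≤ N := by exact_mod_cast hN1'
  have hh1R : (1 : ℝ) ≤ h := le_trans (Real.one_le_rpow hN1 hε.le) h1
  have hh0 : (0 : ℝ) < h := by linarith
  have hhN' : (h : ℝ) ≤ N := h2.trans (by
      calc (N : ℝ) ^ (1 - ε) ≤ (N : ℝ) ^ (1 : ℝ) := Real.rpow_le_rpow_of_exponent_le hN1 (by linarith)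
        _ = N := Real.rpow_one _)
  have hhN : h ≤ N := by exact_mod_cast hhN'
  set E := (range (P + 1)).filter fun m => Odd m ∧
        N * √(h : ℝ) ^ k * (N : ℝ) ^ (-(c / 4)) < |Tk (at' (k := k) g) N h m| with hE
  have v1 := var h5 k N h P hhN (at' (k := k) g) (at_abs hg)
  have v2 := H N h hN1' h1 h2
  set Q := ∑ x ∈ Ico N (2 * N), ∑ y ∈ Ico N (2 * N), (Qk k h x y : ℝ) with hQ
  have hP1 : 1 ≤ P := le_trans (Nat.one_le_pow _ _ hN1') hP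
  have hP0 : (1 : ℝ) ≤ P := by exact_mod_cast hP1
  -- Markov
  have m1 : (E.card : ℝ) * (N * √(h : ℝ) ^ k * (N : ℝ) ^ (-(c / 4))) ^ 2 ≤
      ∑ m ∈ (range (P + 1)).filter (fun m => Odd m), Tk (at' (k := k) g) N h m ^ 2 := by
    rw [← nsmul_eq_mul, ← sum_const]
    refine (sum_le_sum (g := fun m => Tk (at' (k := k) g) N h m ^ 2) fun m hm => ?_).trans ?_
    · rw [hE, mem_filter] at hm
      rw [← sq_abs (Tk (at' (k := k) g) N h m)]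
      exact pow_le_pow_left₀ (by positivity) hm.2.2.le 2
    · refine sum_le_sum_of_subset_of_nonneg ?_ fun _ _ _ => sq_nonneg _
      intro m hm
      rw [hE, mem_filter] at hm
      exact mem_filter.2 ⟨hm.1, hm.2.1⟩
  have hsq : (√(h : ℝ) ^ k) ^ 2 = (h : ℝ) ^ k := by
    rw [← pow_mul, mul_comm k 2, pow_mul, Real.sq_sqrt hh0.le]
  have e0 : (N * √(h : ℝ) ^ k * (N : ℝ) ^ (-(c / 4))) ^ 2 =
      (N : ℝ) ^ 2 * (h : ℝ) ^ k * (N : ℝ) ^ (-(c / 2)) := by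
    rw [mul_pow, mul_pow, hsq, ← Real.rpow_natCast ((N : ℝ) ^ (-(c / 4))) 2, ← Real.rpow_mul hN0.le]
    congr 2
    push_cast
    ring
  rw [e0] at m1
  have hpos : 0 < (N : ℝ) ^ 2 * (h : ℝ) ^ k := by positivity
  -- first part
  have p1 : ((P : ℝ) + 1) * Q ≤ ((N : ℝ) ^ 2 * (h : ℝ) ^ k) * (2 * C * P * (N : ℝ) ^ (-c)) := by
    have : ((P : ℝ) + 1) * Q ≤ (2 * P) * (C * (N : ℝ) ^ 2 * (h : ℝ) ^ k * (N : ℝ) ^ (-c)) :=
      mul_le_mul (by linarith) v2 (by positivity) (by positivity)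
    refine this.trans (le_of_eq (by ring))
  have p2 : 4 * (N * (h : ℝ) ^ k) ^ 2 * (3 * (N : ℝ)) ^ (2 * k) ≤
      ((N : ℝ) ^ 2 * (h : ℝ) ^ k) * (4 * 9 ^ k * (N : ℝ) ^ (3 * k)) := by
    have q1 : (3 * (N : ℝ)) ^ (2 * k) = 9 ^ k * (N : ℝ) ^ (2 * k) := by
      rw [mul_pow, pow_mul]
      norm_num
    have q2 : (h : ℝ) ^ k ≤ (N : ℝ) ^ k := pow_le_pow_left₀ hh0.le hhN' k
    have q3 : (N : ℝ) ^ (3 * k) = (N : ℝ) ^ k * (N : ℝ) ^ (2 * k) := by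
      rw [← pow_add]
      congr 1
      ring
    rw [q1, q3]
    have : 4 * (N * (h : ℝ) ^ k) ^ 2 * (9 ^ k * (N : ℝ) ^ (2 * k)) =
      ((N : ℝ) ^ 2 * (h : ℝ) ^ k) * (4 * 9 ^ k * ((h : ℝ) ^ k * (N : ℝ) ^ (2 * k))) := by ring
    rw [this]
    refine mul_le_mul_of_nonneg_left ?_ hpos.le
    refine mul_le_mul_of_nonneg_left ?_ (by positivity)
    exact mul_le_mul_of_nonneg_right q2 (by positivity)
  have m2 : (E.card : ℝ) * (N : ℝ) ^ (-(c / 2)) ≤ 2 * C * P * (N : ℝ) ^ (-c) +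
      4 * 9 ^ k * (N : ℝ) ^ (3 * k) := by
    have : ((N : ℝ) ^ 2 * (h : ℝ) ^ k) * ((E.card : ℝ) * (N : ℝ) ^ (-(c / 2))) ≤
      ((N : ℝ) ^ 2 * (h : ℝ) ^ k) * (2 * C * P * (N : ℝ) ^ (-c) + 4 * 9 ^ k * (N : ℝ) ^ (3 * k)) := by
      linarith
    exact le_of_mul_le_mul_left this hpos
  -- final estimates
  have r1 : 2 * C * P * (N : ℝ) ^ (-c) ≤ P * (N : ℝ) ^ (-(3 * c / 4)) / 2 := by
    have : 4 * C * (N : ℝ) ^ (-c) ≤ (N : ℝ) ^ (-(3 * c / 4)) := by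
      calc 4 * C * (N : ℝ) ^ (-c) ≤ (N : ℝ) ^ (c / 4) * (N : ℝ) ^ (-c) :=
            mul_le_mul_of_nonneg_right (hN₁ N hNa) (by positivity)
        _ = (N : ℝ) ^ (-(3 * c / 4)) := by
            rw [← Real.rpow_add hN0]
            congr 1
            ring
    nlinarith
  have r2 : 4 * 9 ^ k * (N : ℝ) ^ (3 * k) ≤ P * (N : ℝ) ^ (-(3 * c / 4)) / 2 := by
    have q0 : (N : ℝ) ^ (3 * k + 3 + ⌈c⌉₊) ≤ P := by exact_mod_cast hP
    have q1 : (1 : ℝ) ≤ (N : ℝ) ^ ((⌈c⌉₊ : ℝ)) * (N : ℝ) ^ (-(3 * c / 4)) := by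
      rw [← Real.rpow_add hN0]
      exact Real.one_le_rpow hN1 (by linarith [Nat.le_ceil c])
    have q2 : 8 * 9 ^ k ≤ (N : ℝ) ^ 3 := by
      have a1 : (8 * 9 ^ k : ℝ) ≤ N := by
        have : 8 * 9 ^ k ≤ N := by omega
        exact_mod_cast this
      have a2 : (N : ℝ) ≤ (N : ℝ) ^ 3 := by nlinarith [mul_self_nonneg ((N : ℝ) - 1)]
      linarith
    have q3 : (N : ℝ) ^ (3 * k) * (N : ℝ) ^ 3 * ((N : ℝ) ^ ((⌈c⌉₊ : ℝ)) * (N : ℝ) ^ (-(3 * c / 4))) ≤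
        P * (N : ℝ) ^ (-(3 * c / 4)) := by
      rw [Real.rpow_natCast, ← mul_assoc, ← pow_add, ← pow_add]
      exact mul_le_mul_of_nonneg_right q0 (by positivity)
    have q4 : (N : ℝ) ^ (3 * k) * (8 * 9 ^ k) ≤
        (N : ℝ) ^ (3 * k) * (N : ℝ) ^ 3 * ((N : ℝ) ^ ((⌈c⌉₊ : ℝ)) * (N : ℝ) ^ (-(3 * c / 4))) := by
      calc (N : ℝ) ^ (3 * k) * (8 * 9 ^ k) ≤ (N : ℝ) ^ (3 * k) * (N : ℝ) ^ 3 :=
            mul_le_mul_of_nonneg_left q2 (by positivity)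
        _ ≤ _ := le_mul_of_one_le_right (by positivity) q1
    linarith
  have m3 : (E.card : ℝ) * (N : ℝ) ^ (-(c / 2)) ≤ P * (N : ℝ) ^ (-(c / 4)) * (N : ℝ) ^ (-(c / 2)) := by
    have : (N : ℝ) ^ (-(c / 4)) * (N : ℝ) ^ (-(c / 2)) = (N : ℝ) ^ (-(3 * c / 4)) := by
      rw [← Real.rpow_add hN0]
      congr 1
      ring
    rw [mul_assoc, this]
    linarith
  exact le_of_mul_le_mul_right m3 (by positivity)

end Pool.Agent.Q152.QT
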