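import Pool.Agent.Q152.QT.Poly

/-! # Polynomial phases: all intervals, all heights, all polynomials at the same time -/

set_option autoImplicit false

namespace Pool.Agent.Q152.QT

open Finset Filter
open Pool.Agent.Y293.SF (mu)

lemma geo_bound (a b : ℕ) (B : ℕ) (hB : 1 ≤ B) :
    ∑ i ∈ Ico a b, 1 / (((2 ^ i : ℕ) : ℝ)) ^ B ≤ 2 / ((2 : ℝ) ^ a) ^ B := by
  have h1 : ∀ i ∈ Ico a b, 1 / (((2 ^ i : ℕ) : ℝ)) ^ B ≤ 1 / ((2 : ℝ) ^ a) ^ B * (1 / 2) ^ (i - a) := by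
    intro i hi
    rw [mem_Ico] at hi
    have e1 : (((2 ^ i : ℕ) : ℝ)) = 2 ^ a * 2 ^ (i - a) := by
      rw [← pow_add, Nat.add_sub_cancel' hi.1]
      push_cast
      rfl
    rw [e1, mul_pow, one_div_pow, div_mul_div_comm, one_mul]
    refine one_div_le_one_div_of_le (by positivity) ?_
    refine mul_le_mul_of_nonneg_left ?_ (by positivity)
    exact le_self_pow₀ (one_le_pow₀ (by norm_num)) (by omega)
  refine (sum_le_sum h1).trans ?_
  rw [← mul_sum]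
  have h2 : ∑ i ∈ Ico a b, (1 / 2 : ℝ) ^ (i - a) ≤ 2 := by
    rw [sum_Ico_eq_sum_range]
    simp only [Nat.add_sub_cancel_left]
    exact sum_geometric_two_le _
  calc 1 / ((2 : ℝ) ^ a) ^ B * ∑ i ∈ Ico a b, (1 / 2 : ℝ) ^ (i - a) ≤ 1 / ((2 : ℝ) ^ a) ^ B * 2 :=
        mul_le_mul_of_nonneg_left h2 (by positivity)
    _ = 2 / ((2 : ℝ) ^ a) ^ B := by ring

open Classical in
theorem poly_all (h1 : S_MomC) (h2 : S_Net) (d : ℕ) (ε : ℝ) (hε : 0 < ε) (B : ℕ) :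
    ∃ (A : ℕ) (Y₀ : ℝ), 1 ≤ A ∧ 1 ≤ Y₀ ∧ ∀ (g : ℕ → ℂ) (P : ℕ) (Y : ℝ), (∀ n, ‖g n‖ ≤ 1) → Y₀ ≤ Y →
      ∃ E : Finset ℕ, (E.card : ℝ) ≤ P / Y ^ B ∧ ∀ m ≤ P, Odd m → m ∉ E →
        ∀ X : ℝ, Y ≤ X → X ^ A ≤ P → ∀ u v : ℕ, u ≤ v → (v : ℝ) ≤ X →
          ∀ F : Polynomial ℝ, F.natDegree ≤ d →
            ‖∑ n ∈ Ioc u v, fc g m n * eF F n‖ ≤ √((v : ℝ) - u) * X ^ ε := by
  set ε' : ℝ := ε / 3 with hε'
  have hε'0 : 0 < ε' := by positivity
  obtain ⟨B', hB'⟩ := exists_nat_ge (((B : ℝ) + 1) / ε')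
  have hB'2 : (B : ℝ) + 1 ≤ ε' * B' := by
    rw [div_le_iff₀ hε'0] at hB'
    linarith
  have hB'1 : 1 ≤ B' := by
    rcases Nat.eq_zero_or_pos B' with h | h
    · exfalso
      rw [h, Nat.cast_zero, mul_zero] at hB'2
      have : (0 : ℝ) ≤ B := Nat.cast_nonneg _
      linarith
    · exact h
  obtain ⟨A, N₀, hA, hN₀, H⟩ := one_scale h1 h2 d ε' hε'0 B'
  -- large `Y`
  obtain ⟨Y1, hY1⟩ : ∃ Y1 : ℝ, ∀ Y : ℝ, Y1 ≤ Y → (N₀ : ℝ) ≤ Y ^ ε' ∧ 1 ≤ Y ^ ε' ∧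
      2 * Real.log Y + 4 ≤ Y ^ ε' ∧ 2 ≤ Y := by
    have t1 := (tendsto_rpow_atTop hε'0).eventually_ge_atTop (N₀ : ℝ)
    have t2 := (tendsto_rpow_atTop hε'0).eventually_ge_atTop 1
    have t3 : ∀ᶠ Y : ℝ in atTop, 2 * Real.log Y + 4 ≤ Y ^ ε' := by
      have a1 := (isLittleO_log_rpow_atTop hε'0).bound (c := 1 / 4) (by norm_num)
      have a2 := (tendsto_rpow_atTop hε'0).eventually_ge_atTop 8
      filter_upwards [a1, a2, eventually_ge_atTop 1] with Y b1 b2 b3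
      rw [Real.norm_eq_abs, Real.norm_eq_abs, abs_of_nonneg (Real.log_nonneg b3),
        abs_of_nonneg (by positivity)] at b1
      linarith
    exact (t1.and (t2.and (t3.and (eventually_ge_atTop 2)))).exists_forall_of_atTop
  refine ⟨A, max Y1 2, hA, by
    have : (2 : ℝ) ≤ max Y1 2 := le_max_right _ _
    linarith, fun g P Y hg hY => ?_⟩
  have hY1' := fun X (hX : Y ≤ X) => hY1 X ((le_max_left _ _).trans (hY.trans hX))
  obtain ⟨y1, y2, y3, y4⟩ := hY1' Y le_rfl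
  have hY0 : 0 < Y := by linarith
  have hP0 : (0 : ℝ) ≤ P := Nat.cast_nonneg _
  obtain ⟨nY, hnY1, hnY2⟩ := exists_nat_pow_near y2 (show (1 : ℝ) < 2 by norm_num)
  -- the exceptional sets of the scales
  have K0 : ∀ i : ℕ, ∃ E : Finset ℕ, (E.card : ℝ) ≤ P * (1 / ((2 ^ i : ℕ) : ℝ) ^ B') ∧
      (N₀ ≤ 2 ^ i → (2 ^ i) ^ A ≤ P → ∀ m ≤ P, Odd m → m ∉ E →
        ∀ x : ℕ, x ∈ Ico (2 ^ i) (2 * 2 ^ i) → ∀ h : ℕ, h ≤ 2 ^ i → ∀ F : Polynomial ℝ, F.natDegree ≤ d →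
          ‖∑ n ∈ Ioc x (x + h), fc g m n * eF F n‖ ≤ √(h : ℝ) * ((2 ^ i : ℕ) : ℝ) ^ ε') := by
    intro i
    by_cases hi : N₀ ≤ 2 ^ i ∧ (2 ^ i) ^ A ≤ P
    · obtain ⟨E, e1, e2⟩ := H g (2 ^ i) P hg hi.1 hi.2
      refine ⟨E, e1.trans (le_of_eq (by ring)), fun _ _ m hm hmo hmE x hx h hh F hF => e2 m hm hmo hmE x hx h hh F hF⟩
    · exact ⟨∅, by simp only [card_empty, Nat.cast_zero]; positivity, fun a b => absurd ⟨a, b⟩ hi⟩
  choose S hS L using K0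
  set ℓ := Nat.log 2 P with hℓ
  refine ⟨(Ico (nY + 1) (ℓ + 1)).biUnion S, ?_, fun m hmP hmo hmE X hYX hXA u v huv hvX F hF => ?_⟩
  · have c1 : (((Ico (nY + 1) (ℓ + 1)).biUnion S).card : ℝ) ≤
        ∑ i ∈ Ico (nY + 1) (ℓ + 1), ((S i).card : ℝ) := by exact_mod_cast card_biUnion_le
    have c2 := c1.trans (sum_le_sum fun i _ => hS i)
    rw [← mul_sum] at c2
    have c3 := c2.trans (mul_le_mul_of_nonneg_left (geo_bound (nY + 1) (ℓ + 1) B' hB'1) hP0)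
    refine c3.trans ?_
    have c4 : Y ^ B * 2 ≤ ((2 : ℝ) ^ (nY + 1)) ^ B' := by
      calc Y ^ B * 2 ≤ Y ^ B * Y := mul_le_mul_of_nonneg_left y4 (by positivity)
        _ = Y ^ ((B : ℝ) + 1) := by
            rw [Real.rpow_add hY0, Real.rpow_natCast, Real.rpow_one]
        _ ≤ Y ^ (ε' * B') := Real.rpow_le_rpow_of_exponent_le (by linarith) hB'2
        _ = (Y ^ ε') ^ B' := by rw [Real.rpow_mul hY0.le, Real.rpow_natCast]
        _ ≤ ((2 : ℝ) ^ (nY + 1)) ^ B' := pow_le_pow_left₀ (by positivity) hnY2.le _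
    rw [mul_div_assoc', div_le_div_iff₀ (by positivity) (by positivity)]
    calc (P : ℝ) * 2 * Y ^ B = P * (Y ^ B * 2) := by ring
      _ ≤ P * ((2 : ℝ) ^ (nY + 1)) ^ B' := mul_le_mul_of_nonneg_left c4 hP0
  · obtain ⟨x1, x2, x3, x4⟩ := hY1' X hYX
    have hX0 : 0 < X := by linarith
    have hX1 : 1 ≤ X := by linarith
    obtain ⟨nX, hnX1, hnX2⟩ := exists_nat_pow_near x2 (show (1 : ℝ) < 2 by norm_num)
    have hnn : nY ≤ nX := by
      have h3 : (2 : ℝ) ^ nY < 2 ^ (nX + 1) := by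
        refine lt_of_le_of_lt (hnY1.trans ?_) hnX2
        exact Real.rpow_le_rpow hY0.le hYX hε'0.le
      have h4 := (pow_lt_pow_iff_right₀ (by norm_num : (1 : ℝ) < 2)).1 h3
      omega
    have hXP : X ≤ P := (le_self_pow₀ hX1 (by omega)).trans hXA
    have hP1 : 1 ≤ P := by
      have : (1 : ℝ) ≤ P := hX1.trans hXP
      exact_mod_cast this
    have key := dyadic (fun n => fc g m n * eF F n) (fun n => by
      rw [norm_mul, norm_eF, mul_one]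
      exact norm_fc g hg m n) (nX + 1) (X ^ ε') (by positivity) X (by
      intro i hi hiX x hx h hh
      have hN : N₀ ≤ 2 ^ i := by
        have h3 : (N₀ : ℝ) ≤ ((2 ^ i : ℕ) : ℝ) := by
          calc (N₀ : ℝ) ≤ X ^ ε' := x1
            _ ≤ 2 ^ (nX + 1) := hnX2.le
            _ ≤ 2 ^ i := pow_le_pow_right₀ (by norm_num) hi
            _ = ((2 ^ i : ℕ) : ℝ) := by push_cast; rfl
        exact_mod_cast h3
      have hA' : (2 ^ i) ^ A ≤ P := by
        have h3 : (((2 ^ i) ^ A : ℕ) : ℝ) ≤ P := by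
          calc (((2 ^ i) ^ A : ℕ) : ℝ) = ((2 ^ i : ℕ) : ℝ) ^ A := by push_cast; rfl
            _ ≤ X ^ A := pow_le_pow_left₀ (Nat.cast_nonneg _) hiX A
            _ ≤ P := hXA
        exact_mod_cast h3
      have hiℓ : i ≤ ℓ := by
        have h3 : 2 ^ i ≤ P := by
          have : ((2 ^ i : ℕ) : ℝ) ≤ P := hiX.trans hXP
          exact_mod_cast this
        exact Nat.le_log_of_pow_le (by norm_num) h3
      have hmS : m ∉ S i := fun hm => hmE (mem_biUnion.2 ⟨i, by rw [mem_Ico]; omega, hm⟩)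
      refine (L i hN hA' m hmP hmo hmS x hx h hh F hF).trans ?_
      refine mul_le_mul_of_nonneg_left ?_ (Real.sqrt_nonneg _)
      exact Real.rpow_le_rpow (Nat.cast_nonneg _) hiX hε'0.le)
      (Nat.log 2 v + 1) u v huv (by
        calc v ≤ 2 ^ (Nat.log 2 v + 1) := (Nat.lt_pow_succ_log_self (by norm_num) _).le
          _ ≤ 2 ^ (nX + 1 + (Nat.log 2 v + 1)) := Nat.pow_le_pow_right (by norm_num) (by omega)) hvX
    refine key.trans (mul_le_mul_of_nonneg_left ?_ (Real.sqrt_nonneg _))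
    -- the number of scales
    have q1 : √((2 : ℝ) ^ (nX + 1)) ≤ 2 * X ^ ε' := by
      rw [Real.sqrt_le_left (by positivity)]
      have h3 : (2 : ℝ) ^ (nX + 1) ≤ 2 * X ^ ε' := by
        rw [pow_succ]; linarith
      nlinarith
    have q2 : ((Nat.log 2 v + 1 : ℕ) : ℝ) ≤ 2 * Real.log X + 1 := by
      have h3 : ((Nat.log 2 v : ℕ) : ℝ) ≤ 2 * Real.log X := by
        rcases Nat.eq_zero_or_pos v with hv | hv
        · rw [hv]
          simp only [Nat.log_zero_right, Nat.cast_zero]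
          have := Real.log_nonneg hX1
          linarith
        · have h4 : (2 : ℝ) ^ (Nat.log 2 v) ≤ X := by
            have h5 : 2 ^ (Nat.log 2 v) ≤ v := Nat.pow_log_le_self 2 (by omega)
            have h6 : (((2 ^ (Nat.log 2 v) : ℕ)) : ℝ) ≤ v := by exact_mod_cast h5
            push_cast at h6
            linarith
          have h5 := Real.log_le_log (by positivity) h4
          rw [Real.log_pow] at h5
          have h6 : (1 : ℝ) / 2 ≤ Real.log 2 := by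
            have := Real.log_two_gt_d9
            linarith
          have h7 : (0 : ℝ) ≤ ((Nat.log 2 v : ℕ) : ℝ) := Nat.cast_nonneg _
          nlinarith
      push_cast
      linarith
    have q3 : X ^ ε' * X ^ ε' ≤ X ^ ε := by
      rw [← Real.rpow_add hX0]
      exact Real.rpow_le_rpow_of_exponent_le hX1 (by rw [hε']; linarith)
    have q4 : 0 < X ^ ε' := by positivity
    calc √((2 : ℝ) ^ (nX + 1)) + ((Nat.log 2 v + 1 : ℕ) : ℝ) * X ^ ε' ≤
          2 * X ^ ε' + (2 * Real.log X + 1) * X ^ ε' :=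
          add_le_add q1 (mul_le_mul_of_nonneg_right q2 q4.le)
      _ = (2 * Real.log X + 3) * X ^ ε' := by ring
      _ ≤ X ^ ε' * X ^ ε' := mul_le_mul_of_nonneg_right (by linarith) q4.le
      _ ≤ X ^ ε := q3

end Pool.Agent.Q152.QT
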