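import Pool.Agent.Q152.QT.EvenAll
import Pool.Agent.Q285.QT.RealUp
import Pool.Agent.Q285.QT.SndR
import Pool.Agent.Q285.QT.Soft

/-! # The even moments over windows with real centre and length; all moments -/

set_option autoImplicit false

namespace Pool.Agent.Q152.QT

open Finset Pool.Agent.Y293.SF Filter MeasureTheory
open Pool.Agent.Q163.GC (Mf W)

theorem up_real (ε : ℝ) (hε : 0 < ε) (hε1 : ε < 1 / 2) : ∃ X₀ : ℝ, 10 ≤ X₀ ∧
    ∀ (f : ℕ → ℝ) (r : ℕ) (K X H : ℝ), 0 ≤ K → X₀ ≤ X → X ^ ε ≤ H → H ≤ X ^ (1 - ε) →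
      (∀ h : ℕ, (h = ⌊H⌋₊ ∨ h = ⌊H⌋₊ + 1) →
        (⌊X / 2⌋₊ : ℝ) ^ (ε / 2) ≤ h ∧ (h : ℝ) ≤ (⌊X / 2⌋₊ : ℝ) ^ (1 - ε / 2)) ∧
      ((∀ h : ℕ, (h = ⌊H⌋₊ ∨ h = ⌊H⌋₊ + 1) →
        ∑ x ∈ Ico ⌊X / 2⌋₊ (4 * ⌊X / 2⌋₊), W f x h ^ (2 * r) ≤ K * (h : ℝ) ^ r * (⌊X / 2⌋₊ : ℕ)) →
        ∫ x in X..2 * X, Mf f x H ^ (2 * r) ≤ K * 2 ^ r * H ^ r * X) := by
  obtain ⟨X1, hX1⟩ : ∃ X1 : ℝ, ∀ X : ℝ, X1 ≤ X → 16 ≤ X ^ (ε / 2) := by
    have t1 := Filter.tendsto_atTop.1 (tendsto_rpow_atTop (by positivity : 0 < ε / 2)) 16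
    exact t1.exists_forall_of_atTop
  refine ⟨max X1 10, le_max_right _ _, fun f r K X H hK hX h1 h2 => ?_⟩
  have x1 := hX1 X ((le_max_left _ _).trans hX)
  have hX10 : 10 ≤ X := (le_max_right _ _).trans hX
  have hX0 : 0 < X := by linarith
  have hX1' : 1 ≤ X := by linarith
  set N := ⌊X / 2⌋₊ with hN
  have n1 : (N : ℝ) ≤ X / 2 := Nat.floor_le (by linarith)
  have n2 : X / 2 < N + 1 := Nat.lt_floor_add_one _
  have hN1 : (1 : ℝ) ≤ N := by linarith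
  have hN0 : (0 : ℝ) < N := by linarith
  have hNX : X / 4 ≤ N := by linarith
  have e1 : X ^ ε = X ^ (ε / 2) * X ^ (ε / 2) := by
    rw [← Real.rpow_add hX0]; congr 1; ring
  have hH16 : 16 * X ^ (ε / 2) ≤ H := by
    refine le_trans ?_ h1
    rw [e1]
    nlinarith
  have hH4 : 16 ≤ H := by nlinarith
  have hHX : H ≤ X := h2.trans (by
    calc X ^ (1 - ε) ≤ X ^ (1 : ℝ) := Real.rpow_le_rpow_of_exponent_le hX1' (by linarith)
      _ = X := Real.rpow_one _)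
  set k := ⌊H⌋₊ with hk
  have k1 : (k : ℝ) ≤ H := Nat.floor_le (by linarith)
  have k2 : H < k + 1 := Nat.lt_floor_add_one H
  have hk0 : (0 : ℝ) < k := by linarith
  have kk : ∀ h : ℕ, (h = k ∨ h = k + 1) → (N : ℝ) ^ (ε / 2) ≤ h ∧ (h : ℝ) ≤ (N : ℝ) ^ (1 - ε / 2) := by
    intro h hh
    have b1 : (k : ℝ) ≤ h := by
      rcases hh with rfl | rfl
      · exact le_rfl
      · push_cast; linarith
    have b2 : (h : ℝ) ≤ k + 1 := by
      rcases hh with rfl | rfl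
      · linarith
      · push_cast; linarith
    constructor
    · have : (N : ℝ) ^ (ε / 2) ≤ X ^ (ε / 2) := Real.rpow_le_rpow hN0.le (by linarith) (by positivity)
      linarith
    · have q1 : (X / 4) ^ (1 - ε / 2) ≤ (N : ℝ) ^ (1 - ε / 2) :=
        Real.rpow_le_rpow (by positivity) hNX (by linarith)
      have q2 : X ^ (1 - ε / 2) / 4 ≤ (X / 4) ^ (1 - ε / 2) := by
        rw [Real.div_rpow hX0.le (by norm_num)]
        refine div_le_div_of_nonneg_left (by positivity) (by positivity) ?_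
        calc (4 : ℝ) ^ (1 - ε / 2) ≤ 4 ^ (1 : ℝ) :=
              Real.rpow_le_rpow_of_exponent_le (by norm_num) (by linarith)
          _ = 4 := Real.rpow_one _
      have q3 : X ^ (1 - ε / 2) = X ^ (1 - ε) * X ^ (ε / 2) := by
        rw [← Real.rpow_add hX0]; congr 1; ring
      have q4 : 1 ≤ X ^ (1 - ε) := Real.one_le_rpow hX1' (by linarith)
      have q5 : 16 * X ^ (1 - ε) ≤ X ^ (1 - ε) * X ^ (ε / 2) := by nlinarith
      rw [q3] at q2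
      linarith
  refine ⟨kk, fun hs => ?_⟩
  refine (Pool.Agent.Q285.QT.t_RealUp f r X H (by linarith) hHX).trans ?_
  rw [sum_add_distrib]
  have s1 := hs k (Or.inl rfl)
  have s2 := hs (k + 1) (Or.inr rfl)
  have s3 : (k : ℝ) ^ r ≤ 2 ^ r * H ^ r := by
    rw [← mul_pow]
    exact pow_le_pow_left₀ hk0.le (by linarith) r
  have s4 : ((k + 1 : ℕ) : ℝ) ^ r ≤ 2 ^ r * H ^ r := by
    rw [← mul_pow]
    exact pow_le_pow_left₀ (Nat.cast_nonneg _) (by push_cast; linarith) r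
  have s5 : 0 ≤ 2 ^ r * H ^ r := by positivity
  have t1 : K * (k : ℝ) ^ r * N ≤ K * (2 ^ r * H ^ r) * (X / 2) :=
    mul_le_mul (mul_le_mul_of_nonneg_left s3 hK) n1 hN0.le (by positivity)
  have t2 : K * ((k + 1 : ℕ) : ℝ) ^ r * N ≤ K * (2 ^ r * H ^ r) * (X / 2) :=
    mul_le_mul (mul_le_mul_of_nonneg_left s4 hK) n1 hN0.le (by positivity)
  calc _ ≤ K * (2 ^ r * H ^ r) * (X / 2) + K * (2 ^ r * H ^ r) * (X / 2) :=
        add_le_add (s1.trans t1) (s2.trans t2)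
    _ = K * 2 ^ r * H ^ r * X := by ring

theorem even_real (hR : S_ChainR) (hS : S_SndR) (r : ℕ) (hr : 1 ≤ r) (ε : ℝ) (B : ℕ) (hε : 0 < ε)
    (hε1 : ε < 1 / 2) :
    ∃ (K : ℝ) (A C P₀ : ℕ), 0 ≤ K ∧ 2 ≤ A ∧ ∀ (g : ℕ → ℝ) (P : ℕ), (∀ n, g n = 1 ∨ g n = -1) → P₀ ≤ P →
      ∃ E : Finset ℕ, (E.card : ℝ) ≤ P / Real.log P ^ B ∧ ∀ m ≤ P, Odd m → m ∉ E →
        ∀ X H : ℝ, Real.log P ^ C ≤ X → X ^ A ≤ P → (∀ q : ℕ, q.Prime → q ∣ m → 12 * X < q) →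
          X ^ ε ≤ H → H ≤ X ^ (1 - ε) → ∫ x in X..2 * X, Mf (fm g m) x H ^ (2 * r) ≤ K * H ^ r * X := by
  obtain ⟨X₀, hX₀, HR⟩ := up_real ε hε hε1
  obtain ⟨K, A, C, P₀, hK, hA, HA⟩ := even_all hR hS r hr (ε / 2) B (by positivity) (by linarith)
  obtain ⟨P₁, hP₁⟩ : ∃ P₁ : ℕ, ∀ P : ℕ, P₁ ≤ P → X₀ ≤ Real.log P := by
    have := Real.tendsto_log_atTop.comp (tendsto_natCast_atTop_atTop (R := ℝ))
    obtain ⟨P₁, h⟩ := (Filter.tendsto_atTop.1 this X₀).exists_forall_of_atTop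
    exact ⟨P₁, h⟩
  refine ⟨K * 2 ^ r, A + 1, C + 1, max P₀ P₁, by positivity, by omega, fun g P hg hP => ?_⟩
  have hl := hP₁ P ((le_max_right _ _).trans hP)
  obtain ⟨E, hE, L⟩ := HA g P hg ((le_max_left _ _).trans hP)
  refine ⟨E, hE, fun m hmP hmo hmE X H hCX hXA hmq hH1 hH2 => ?_⟩
  set l := Real.log P with hl'
  have hl10 : 10 ≤ l := hX₀.trans hl
  have hlX : l ≤ X := (le_self_pow₀ (by linarith) (by omega)).trans hCX
  have hX0 : 0 < X := by linarith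
  obtain ⟨r1, r2⟩ := HR (fm g m) r K X H hK (hl.trans hlX) hH1 hH2
  refine r2 fun h hh => ?_
  obtain ⟨k1, k2⟩ := r1 h hh
  set N := ⌊X / 2⌋₊ with hN
  have n1 : (N : ℝ) ≤ X / 2 := Nat.floor_le (by linarith)
  have n2 : X / 2 < N + 1 := Nat.lt_floor_add_one _
  have c1 : l ^ C ≤ N := by
    have e1 : l ^ (C + 1) = l ^ C * l := pow_succ _ _
    have e2 : 1 ≤ l ^ C := one_le_pow₀ (by linarith)
    rw [e1] at hCX
    nlinarith
  have c2 : N ^ A ≤ P := by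
    have : (N : ℝ) ^ A ≤ P := by
      calc (N : ℝ) ^ A ≤ X ^ A := pow_le_pow_left₀ (Nat.cast_nonneg _) (by linarith) A
        _ ≤ X ^ (A + 1) := pow_le_pow_right₀ (by linarith) (by omega)
        _ ≤ P := hXA
    exact_mod_cast this
  have hcop : Cop (8 * N) m := by
    intro n hn1 hn2
    rw [Nat.coprime_iff_gcd_eq_one]
    by_contra hne
    obtain ⟨q, hq, hqd⟩ := Nat.exists_prime_and_dvd hne
    have d1 : q ∣ n := hqd.trans (Nat.gcd_dvd_left _ _)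
    have d2 : q ∣ m := hqd.trans (Nat.gcd_dvd_right _ _)
    have := hmq q hq d2
    have h5 : q ≤ n := Nat.le_of_dvd (by omega) d1
    have h6 : (q : ℝ) ≤ 3 * (8 * N) := by exact_mod_cast h5.trans hn2
    linarith
  exact L m hmP hmo hmE N h c1 c2 hcop k1 k2

lemma Mf_abs (f : ℕ → ℝ) (hf : ∀ n, |f n| ≤ 1) (H : ℝ) (hH : 0 ≤ H) (x : ℝ) : |Mf f x H| ≤ H + 1 := by
  unfold Mf
  refine (abs_sum_le_sum_abs _ _).trans ((sum_le_sum fun n _ => hf n).trans ?_)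
  rw [sum_const, nsmul_eq_mul, mul_one]
  rcases le_or_gt 0 (x + H / 2) with h0 | h0
  · have h1 : ((range (⌈x + H⌉₊ + 1)).filter (fun n : ℕ => |(n : ℝ) - x| < H / 2)) ⊆
        Icc ⌈x - H / 2⌉₊ ⌊x + H / 2⌋₊ := by
      intro n hn
      rw [mem_filter] at hn
      have h2 := abs_lt.1 hn.2
      rw [mem_Icc]
      exact ⟨Nat.ceil_le.2 (by linarith), Nat.le_floor (by linarith)⟩
    have h2 := card_le_card h1
    rw [Nat.card_Icc] at h2
    have h3 : (⌊x + H / 2⌋₊ : ℝ) ≤ x + H / 2 := Nat.floor_le h0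
    have h4 : x - H / 2 ≤ ⌈x - H / 2⌉₊ := Nat.le_ceil _
    rcases le_total ⌈x - H / 2⌉₊ (⌊x + H / 2⌋₊ + 1) with h5 | h5
    · have h6 : (((range (⌈x + H⌉₊ + 1)).filter (fun n : ℕ => |(n : ℝ) - x| < H / 2)).card : ℝ) ≤
          ((⌊x + H / 2⌋₊ + 1 : ℕ) : ℝ) - (⌈x - H / 2⌉₊ : ℝ) := by
        rw [← Nat.cast_sub h5]
        exact_mod_cast h2
      push_cast at h6
      linarith
    · have h6 : ((range (⌈x + H⌉₊ + 1)).filter (fun n : ℕ => |(n : ℝ) - x| < H / 2)).card = 0 := by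
        omega
      rw [h6]
      push_cast
      linarith
  · have h6 : ((range (⌈x + H⌉₊ + 1)).filter (fun n : ℕ => |(n : ℝ) - x| < H / 2)) = ∅ := by
      refine filter_eq_empty_iff.2 fun n _ hn => ?_
      have h2 := abs_lt.1 hn
      have : (0 : ℝ) ≤ n := Nat.cast_nonneg n
      linarith
    rw [h6, card_empty]
    push_cast
    linarith

/-- one moment, all heights and lengths -/
theorem mom_one (hR : S_ChainR) (k : ℕ) (ε δ : ℝ) (B : ℕ) (hε : 0 < ε)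
    (hε1 : ε < 1 / 2) (hδ : 0 < δ) :
    ∃ A C P₀ : ℕ, 2 ≤ A ∧ ∀ (g : ℕ → ℝ) (P : ℕ), (∀ n, g n = 1 ∨ g n = -1) → P₀ ≤ P →
      ∃ E : Finset ℕ, (E.card : ℝ) ≤ P / Real.log P ^ B ∧ ∀ m ≤ P, Odd m → m ∉ E →
        ∀ X H : ℝ, Real.log P ^ C ≤ X → X ^ A ≤ P → (∀ q : ℕ, q.Prime → q ∣ m → 12 * X < q) →
          X ^ ε ≤ H → H ≤ X ^ (1 - ε) →
            |(∫ x in X..2 * X, (Mf (fm g m) x H / √(6 / Real.pi ^ 2 * H)) ^ k) / X - gm k| ≤ δ := by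
  have h1 : S_Gcd := Pool.Agent.Q14.QT.t_Gcd
  have h2 : S_Wt := Pool.Agent.Q63.QT.t_Wt
  have h3a : S_Triv := Pool.Agent.Q31.QT.t_Triv h1 h2
  have h3 : S_Cnt := Pool.Agent.Q63.QT.t_Cnt h1 h2
  have h4 : S_Odd := Pool.Agent.Q63.QT.t_Odd
  have h5 : S_Char := Pool.Agent.Q14.QT.t_Char
  have h6 : S_Ek := Pool.Agent.Q31.QT.t_Ek
  have h7 : S_Mean := Pool.Agent.Q63.QT.t_Mean h6
  have h8 : S_Pairs := Pool.Agent.Q150.QT.t_Pairs h3a h3 h4
  have hS : S_SndR := Pool.Agent.Q285.QT.t_SndR h3 h4 h5 h7 h8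
  obtain ⟨κ, hκd⟩ : ∃ κ : ℝ, κ = 6 / Real.pi ^ 2 := ⟨_, rfl⟩
  have hκ : 0 < κ := by rw [hκd]; positivity
  rw [← hκd]
  obtain ⟨K, A1, C1, P1, hK, hA1, H1⟩ := even_real hR hS (k + 1) (by omega) ε (B + 1) hε hε1
  obtain ⟨η, hη, HS⟩ := Pool.Agent.Q285.QT.t_Soft k (K / κ ^ (k + 1)) δ hδ
  obtain ⟨A2, C2, P2, hA2, H2⟩ := law_real ε η (B + 1) hε hε1 hη
  obtain ⟨P₁, hP₁⟩ : ∃ P₁ : ℕ, ∀ P : ℕ, P₁ ≤ P → 2 ≤ Real.log P := by
    have := Real.tendsto_log_atTop.comp (tendsto_natCast_atTop_atTop (R := ℝ))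
    obtain ⟨P₁, h⟩ := (Filter.tendsto_atTop.1 this 2).exists_forall_of_atTop
    exact ⟨P₁, h⟩
  refine ⟨max A1 A2, max C1 C2, max P₁ (max P1 P2), hA1.trans (le_max_left _ _), fun g P hg hP => ?_⟩
  have hl2 := hP₁ P ((le_max_left _ _).trans hP)
  obtain ⟨E1, hE1, L1⟩ := H1 g P hg ((le_max_left _ _).trans ((le_max_right _ _).trans hP))
  obtain ⟨E2, hE2, L2⟩ := H2 g P hg ((le_max_right _ _).trans ((le_max_right _ _).trans hP))
  set l := Real.log P with hl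
  refine ⟨E1 ∪ E2, ?_, fun m hmP hmo hmE X H hCX hXA hmq hH1 hH2 => ?_⟩
  · have c1 : ((E1 ∪ E2).card : ℝ) ≤ E1.card + E2.card := by exact_mod_cast card_union_le _ _
    have c2 : (P : ℝ) / l ^ (B + 1) ≤ P / l ^ B / 2 := by
      rw [pow_succ, div_div]
      exact div_le_div_of_nonneg_left (Nat.cast_nonneg _) (by positivity)
        (mul_le_mul_of_nonneg_left hl2 (by positivity))
    linarith
  · rw [mem_union, not_or] at hmE
    have hl1 : 1 ≤ l := by linarith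
    have hX1 : 1 ≤ X := le_trans (one_le_pow₀ hl1) hCX
    have hX0 : 0 < X := by linarith
    have hC1 : l ^ C1 ≤ X := (pow_le_pow_right₀ hl1 (le_max_left _ _)).trans hCX
    have hC2 : l ^ C2 ≤ X := (pow_le_pow_right₀ hl1 (le_max_right _ _)).trans hCX
    have hXA1 : X ^ A1 ≤ P := (pow_le_pow_right₀ hX1 (le_max_left _ _)).trans hXA
    have hXA2 : X ^ A2 ≤ P := (pow_le_pow_right₀ hX1 (le_max_right _ _)).trans hXA
    have a1 := L1 m hmP hmo hmE.1 X H hC1 hXA1 hmq hH1 hH2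
    have a2 := L2 m hmP hmo hmE.2 X H hC2 hXA2 (fun q hq hqd => by
      have := hmq q hq hqd
      linarith) hH1 hH2
    rw [← hκd] at a2
    have hH0 : 0 < H := lt_of_lt_of_le (Real.rpow_pos_of_pos hX0 _) hH1
    have hs : 0 < √(κ * H) := Real.sqrt_pos.2 (by positivity)
    refine HS X (fun x => Mf (fm g m) x H / √(κ * H)) hX0 ((Mf_meas _ H).div_const _)
      ⟨(H + 1) / √(κ * H), fun x => ?_⟩ (fun t => ?_) ?_
    · rw [abs_div, abs_of_pos hs]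
      exact div_le_div_of_nonneg_right (Mf_abs _ (fm_le g hg m) H hH0.le x) hs.le
    · simp only [div_le_iff₀ hs]
      exact a2 t
    · have e1 : ∀ x, (Mf (fm g m) x H / √(κ * H)) ^ (2 * k + 2) =
          Mf (fm g m) x H ^ (2 * (k + 1)) / (κ * H) ^ (k + 1) := by
        intro x
        rw [div_pow, show 2 * k + 2 = 2 * (k + 1) by ring, pow_mul √(κ * H), Real.sq_sqrt (by positivity)]
      simp only [e1]
      rw [intervalIntegral.integral_div, div_div, div_le_div_iff₀ (by positivity) (by positivity)]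
      rw [mul_pow]
      calc (∫ x in X..2 * X, Mf (fm g m) x H ^ (2 * (k + 1))) * κ ^ (k + 1) ≤
            (K * H ^ (k + 1) * X) * κ ^ (k + 1) := mul_le_mul_of_nonneg_right a1 (by positivity)
        _ = K * (κ ^ (k + 1) * H ^ (k + 1) * X) := by ring

end Pool.Agent.Q152.QT
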