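import Mathlib

/-! # Project QT (helper152), hard row MP_4f18df_nt: Moebius sums twisted by quadratic symbols

Goal: for all but `P / N ^ c` of the `m ≤ P` (`P ≥ N ^ C`) without prime factors `≤ 3 N` the sums of
`g(n) μ(n) (n / m)` over `x < n ≤ x + h`, `x ∈ [N, 2 N)`, `N ^ ε ≤ h ≤ N ^ (1 - ε)`, are asymptotically normal
(moment method; `Q282MM` turns moments into distribution functions).
Statements of the lemma jobs with their proofs. Windows are `Ioc x (x + h)` with `N ≤ x < 2 N`. -/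

set_option autoImplicit false

namespace Pool.Agent.Q152.QT

open Finset

/-- every value is taken an even number of times -/
def EvenT {ι : Type} [Fintype ι] (n : ι → ℕ) : Prop :=
  ∀ v : ℕ, Even (Nat.card {i : ι // n i = v})

open Classical in
/-- the tuples of squarefree numbers `n i` in the windows `(x i, x i + h]` with a square as product -/
noncomputable def SqT {ι : Type} [Fintype ι] (x : ι → ℕ) (h : ℕ) : Finset (ι → ℕ) :=
  (Fintype.piFinset fun i => Ioc (x i) (x i + h)).filter fun n =>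
    (∀ i, Squarefree (n i)) ∧ IsSquare (∏ i, n i)

/-- JOB QT1. With `A_j = gcd (n_j, ∏_{i<j} n_i)`: `∏ n_i ≤ (∏ A_j)²` if the `n_i` are squarefree and their
product is a square.
Proof: for squarefree `n` and any `M ≥ 1`, `rad (M n) * gcd (n, M) = rad M * n` (`rad` = product of the prime
factors: the primes of `n` not dividing `M` are new, the others make up `gcd (n, M)`). By induction
`rad (∏ n_i) * ∏ A_j = ∏ n_j`. If `∏ n_i = a²` then `rad (a²) = rad a ≤ a`, so `∏ A_j ≥ a`. -/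
def S_Gcd : Prop := ∀ (k : ℕ) (n : Fin k → ℕ), (∀ i, Squarefree (n i)) → IsSquare (∏ i, n i) →
  ∏ i, n i ≤ (∏ j, Nat.gcd (n j) (∏ i ∈ univ.filter (fun i => i < j), n i)) ^ 2

/-- JOB QT2. Weighted count of tuples. Proof: induction on `k`, splitting off the last coordinate (`Fin.snoc`,
`Fin.init`; the factors `j < k` do not depend on the last coordinate). For the last one, with `M = ∏_{i<j} n_i`:
`∑_{n ∈ (x, x + h]} (h / gcd (n, M) + 1)⁻¹ ≤ ∑_{A ∣ M} #{n : A ∣ n} (h / A + 1)⁻¹ ≤ ∑_{A ∣ M} 1 ≤ D`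
(a window of length `h` has at most `h / A + 1` multiples of `A`). -/
def S_Wt : Prop := ∀ (k : ℕ) (x : Fin k → ℕ) (h : ℕ) (D : ℝ), 1 ≤ h →
  (∀ n ∈ Fintype.piFinset (fun i => Ioc (x i) (x i + h)), ∀ j : Fin k,
    ((∏ i ∈ univ.filter (fun i => i < j), n i).divisors.card : ℝ) ≤ D) →
  ∑ n ∈ Fintype.piFinset (fun i => Ioc (x i) (x i + h)),
    ∏ j, ((h : ℝ) / (Nat.gcd (n j) (∏ i ∈ univ.filter (fun i => i < j), n i) : ℕ) + 1)⁻¹ ≤ D ^ k

/-- JOB QT3a (uses QT1, QT2; transfer to `Fin k`, `k = card ι`, by an equivalence). The number of the tuples in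
`SqT`, up to `N ^ δ`. Proof: divisor bound (`Pool.Agent.H358R2.div_bound`: `τ(n) ≤ C n ^ δ'`, `δ' = δ / (k² + 1)`)
gives `D = C (3 N) ^ (k δ')` in `S_Wt`, and `card SqT ≤ D ^ k * max ∏_j (h / A_j + 1)` over the tuples of `SqT`.
For such a tuple let `S = {j : A_j ≤ h}`, `s = |S|`. Then `∏_j (h / A_j + 1) ≤ 2 ^ k h ^ s / ∏_{S} A_j`.
If `2 s ≤ k` this is `≤ 2 ^ k h ^ (k/2)`. If `2 s > k`, use `∏_j A_j ≥ N ^ (k/2)` (QT1, `n_i > N`) and
`A_j ≤ 3 N`: `∏_S A_j ≥ N ^ (k/2) / (3 N) ^ (k - s)`, so the quotient is `≤ 6 ^ k h ^ s N ^ (k/2 - s) ≤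
6 ^ k h ^ (k/2)` as `h ≤ N`. -/
def S_Triv : Prop := ∀ (ι : Type) [Fintype ι] (δ : ℝ), 0 < δ → ∃ C : ℝ, 0 < C ∧
  ∀ (N h : ℕ) (x : ι → ℕ), 1 ≤ h → h ≤ N → (∀ i, x i ∈ Ico N (2 * N)) →
    ((SqT x h).card : ℝ) ≤ C * √(h : ℝ) ^ Fintype.card ι * (N : ℝ) ^ δ

open Classical in
/-- JOB QT3b (uses QT1, QT2). Few tuples in `SqT` have a pair `i ≠ j` with a medium greatest common divisor.
Proof: transfer to `Fin k` so that `i`, `j` become the first two coordinates, so `A_2 = gcd (n_i, n_j)` lies in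
`[N ^ α, N ^ (1 - η)]`. As in QT3a, `card ≤ D ^ k * max ∏_j (h / A_j + 1)`, `D ^ k ≤ C N ^ (c)` with
`c = min (ε/2) α η / 2`, and each `∏_j (h / A_j + 1) ≤ 6 ^ k h ^ (k/2) N ^ (-2c)`: with `S = {j : A_j ≤ h}`, `s = |S|`:
* `2 s < k`: `h ^ s ≤ h ^ (k/2) h ^ (-1/2)`, `h ≥ N ^ ε`;
* `2 s = k`, `2 ∈ S`: `∏_S A_j ≥ A_2 ≥ N ^ α`;
* `2 s = k`, `2 ∉ S`: `∏_{S^c} A_j ≤ N ^ (1 - η) (3 N) ^ (k/2 - 1)`, so `∏_S A_j ≥ 3 ^ (-k) N ^ η`;
* `2 s > k`: `h ^ s / ∏_S A_j ≤ 3 ^ k h ^ (k/2) (h / N) ^ (s - k/2)` and `h / N ≤ N ^ (-ε)`, `s - k/2 ≥ 1/2`. -/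
def S_Cnt : Prop := ∀ (ι : Type) [Fintype ι] (ε α η : ℝ), 0 < ε → 0 < α → 0 < η → ∃ c C : ℝ, 0 < c ∧
  0 < C ∧ ∀ (N h : ℕ) (x : ι → ℕ), 1 ≤ N → (N : ℝ) ^ ε ≤ h → (h : ℝ) ≤ (N : ℝ) ^ (1 - ε) →
    (∀ i, x i ∈ Ico N (2 * N)) → ∀ i j : ι, i ≠ j →
      (((SqT x h).filter fun n => (N : ℝ) ^ α ≤ (Nat.gcd (n i) (n j) : ℕ) ∧
        ((Nat.gcd (n i) (n j) : ℕ) : ℝ) ≤ (N : ℝ) ^ (1 - η)).card : ℝ) ≤
        C * √(h : ℝ) ^ Fintype.card ι * (N : ℝ) ^ (-c)

/-- JOB QT4. A tuple with a square as product is even, or two different terms have a large gcd.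
Proof: some value `v = n_i` is taken an odd number of times. A prime `q ∣ v` divides an even number of the
terms (its exponent in the product is that number, as the terms are squarefree), so there is `j` with
`q ∣ n_j`, `n_j ≠ v`. Hence (`v` squarefree) `v ∣ ∏_{j : n_j ≠ v} gcd (v, n_j)`, there is such a `j` as `v > 1`,
and `v ≤ (max_j gcd (v, n_j)) ^ card ι`. -/
def S_Odd : Prop := ∀ (ι : Type) [Fintype ι] (n : ι → ℕ), (∀ i, Squarefree (n i)) → (∀ i, 1 < n i) →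
  IsSquare (∏ i, n i) → ¬ EvenT n →
    ∃ i j : ι, n i ≠ n j ∧ n i ≤ (Nat.gcd (n i) (n j)) ^ Fintype.card ι

/-- JOB QT5. Sums of the quadratic symbol `(N / m)` over odd `m`, `N` not a square. Proof: `m ↦ (N / m)` for odd
`m`, `0` for even `m`, is a non-principal character mod `4 N`: see `Pool.Agent.H241R2...exists_char` in
`Pool/Agent/H241R2/RZ2_C3.lean` (`Pool.Agent.Helper919.psi`, `psi_ne_one`, `psi_apply`); the sum over a
period vanishes (`MulChar.sum_eq_zero_of_ne_one`), the rest has at most `4 N` terms. -/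
def S_Char : Prop := ∀ N : ℕ, 0 < N → ¬ IsSquare N → ∀ P : ℕ,
  |∑ m ∈ (range (P + 1)).filter (fun m => Odd m), jacobiSym (N : ℤ) m| ≤ 4 * (N : ℤ)

open Classical in
/-- the number of the even tuples of elements of `A` -/
noncomputable def Ek (k : ℕ) (A : Finset ℕ) : ℕ :=
  ((Fintype.piFinset fun _ : Fin k => A).filter fun n => EvenT n).card

/-- the moments of the standard normal law: `(k-1)‼` for even `k`, `0` for odd `k`
(the same as `Q282MM.gm`) -/
def gm (k : ℕ) : ℕ := if Even k then (k - 1).doubleFactorial else 0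

/-- JOB QT6. The number of the even tuples. Proof (`S = |A|`): `Ek k A` is the mean of `(∑_{a ∈ A} ε_a) ^ k` over
all signs `ε` (expand), hence it depends only on `S`: `e_k(S)`, and, by symmetry and the binomial theorem,
`e_k(S) = S ∑_{j odd, j < k} (k-1 choose j) e_{k-1-j}(S - 1)` (or count directly: `j + 1` is the number of
the indices with the same value as the first). It vanishes for odd `k`. Induction gives
`|e_k(S) - (k-1)‼ S ^ (k/2)| ≤ C S ^ (k/2 - 1)` for even `k ≥ 2`. -/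
def S_Ek : Prop := ∀ k : ℕ, ∃ C : ℝ, 0 ≤ C ∧ ∀ A : Finset ℕ,
  |(Ek k A : ℝ) - gm k * √(A.card : ℝ) ^ k| ≤ C * √(A.card : ℝ) ^ (k - 1)

/-- the squarefree numbers in `(x, x + h]` -/
def Sf (x h : ℕ) : Finset ℕ := (Ioc x (x + h)).filter Squarefree

/-- JOB QT7 (uses QT6 as hypothesis `h6 : S_Ek`). The mean of the number of the even tuples of squarefree
numbers in a window. Proof: QT6 with `S = |Sf x h| ≤ h`; for even `k = 2 j`
`|S ^ j - (κ h) ^ j| ≤ j h ^ (j - 1) |S - κ h|`, `κ = 6/π²`, and the mean of `|S - κ h|` over `x` is at most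
`9 √h` by `Pool.Agent.Q163.CL.sum_VW` (`VW x h = |Sf x h|`; `Pool/Agent/Q163/CL/Var.lean`). -/
def S_Mean : Prop := ∀ k : ℕ, ∃ C : ℝ, 0 ≤ C ∧ ∀ N h : ℕ, 1 ≤ h → h ≤ N →
  |(∑ x ∈ Ico N (2 * N), (Ek k (Sf x h) : ℝ)) / N - gm k * √(6 / Real.pi ^ 2 * h) ^ k| ≤
    C * √(h : ℝ) ^ k / √(h : ℝ)

open Classical in
/-- the number of the pairs of `k`-tuples of squarefree numbers in `(x, x + h]` and `(y, y + h]` with
products that are not squares, but the product of the products is a square -/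
noncomputable def Qk (k h x y : ℕ) : ℕ :=
  (((Fintype.piFinset fun _ : Fin k => Sf x h) ×ˢ (Fintype.piFinset fun _ : Fin k => Sf y h)).filter
    fun p => ¬ IsSquare (∏ i, p.1 i) ∧ ¬ IsSquare (∏ i, p.2 i) ∧
      IsSquare ((∏ i, p.1 i) * ∏ i, p.2 i)).card

/-- JOB QT8 (uses QT3a, QT3b, QT4 as hypotheses `S_Triv`, `S_Cnt`, `S_Odd`). The pairs of tuples, on average
over the two windows. Proof: a pair is a tuple `t` of `SqT (Sum.elim x y)` on `Fin k ⊕ Fin k` (if `k = 0`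
there is none), so `Qk k h x y ≤ C h ^ k N ^ δ` always (QT3a, `δ = ε/4`).
(a) `|x - y| < h`: at most `2 h N` pairs `(x, y)`, `h ≤ N ^ (1 - ε)`.
(b) `|x - y| ≥ h`: the windows are disjoint. If `t` were even, so would be `p.1`, and its product would be a
square. So by QT4 (`n > N`) two different terms have `gcd ≥ N ^ (1 / (2 k))`. If `gcd ≤ N ^ (1 - η)`, `η = ε/6`, QT3b
applies (sum over `i ≠ j`). If `gcd > N ^ (1 - η) > h`, the two terms are in different windows (else their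
difference is a nonzero multiple of the gcd below `h`): `g s ∈ (x, x + h]`, `g t ∈ (y, y + h]`, `s, t ≤ 3 N ^ η`. For given
`x, s, t` the `g t` lie in an interval of length `h t / s`, so `y` lies in one of length `h t / s + h`: at
most `(3 N ^ η + 2) h` values of `y`. So there are at most `N * (3 N ^ η) ^ 2 * (3 N ^ η + 2) h ≤ 45 N ^ (2 + 3 η - ε)` such pairs
`(x, y)`; use QT3a for them. -/
def S_Pairs : Prop := ∀ (k : ℕ) (ε : ℝ), 0 < ε → ∃ c C : ℝ, 0 < c ∧ 0 < C ∧ ∀ N h : ℕ, 1 ≤ N →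
  (N : ℝ) ^ ε ≤ h → (h : ℝ) ≤ (N : ℝ) ^ (1 - ε) →
    ∑ x ∈ Ico N (2 * N), ∑ y ∈ Ico N (2 * N), (Qk k h x y : ℝ) ≤
      C * (N : ℝ) ^ 2 * (h : ℝ) ^ k * (N : ℝ) ^ (-c)

end Pool.Agent.Q152.QT
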