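import Pool.Agent.Q152.QT.LawReal

/-! # Project QT, second part (helper152): all lengths and all heights at the same time

The law over integer windows (`law_int`) holds for one height `N` and one length `h` outside of a small set of
moduli. For all `h` and `N` in a long range at the same time, use nets (`a 2 ^ J`, `q ≤ a < 2 q`) and chaining. -/

set_option autoImplicit false

namespace Pool.Agent.Q152.QT

open Finset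
open Pool.Agent.Q163.GC (W)

/-- The distribution function of the sums of `f` over the windows `(x, x + h]`, `N ≤ x < 2 N`, divided by
`√(6/π² h)`. -/
noncomputable def Fc (f : ℕ → ℝ) (N h : ℕ) (t : ℝ) : ℝ :=
  (((Ico N (2 * N)).filter fun x => W f x h ≤ t * √(6 / Real.pi ^ 2 * h)).card : ℝ) / N

/-- JOB QU1 (chaining). Proof: induction on `J ≥ j0`, for all `L < 2 ^ J` and `s` with `s + L ≤ N`.
`J = j0`: `|W f y L| ≤ L ≤ 2 ^ j0`. Step `J → J + 1`: if `L < 2 ^ J` the bound for `J` is smaller. Else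
`L = 2 ^ J + L'`, `L' < 2 ^ J`, `W f (x + s) L = W f (x + s) (2 ^ J) + W f (x + s + 2 ^ J) L'` and
`(a + b) ^ 2 ≤ 3 a ^ 2 + (3 / 2) b ^ 2`; the shifted points `x + s` are in `[N, 4 N)`, so
`3 K 2 ^ J + (3 / 2) (6 K 2 ^ J + 4 ^ j0 (3/2) ^ (J - j0)) = 6 K 2 ^ (J + 1) + 4 ^ j0 (3/2) ^ (J + 1 - j0)`. -/
def S_Chain : Prop := ∀ (f : ℕ → ℝ) (N j0 : ℕ) (K : ℝ), (∀ n, |f n| ≤ 1) → 0 ≤ K → ∀ J : ℕ, j0 ≤ J →
  (∀ j, j0 ≤ j → j < J → ∑ y ∈ Ico N (4 * N), W f y (2 ^ j) ^ 2 ≤ K * 2 ^ j * N) →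
  ∀ L < 2 ^ J, ∀ s, s + L ≤ N →
    ∑ x ∈ Ico N (2 * N), W f (x + s) L ^ 2 ≤ (6 * K * 2 ^ J + 4 ^ j0 * (3 / 2 : ℝ) ^ (J - j0)) * N

/-- JOB QU2 (change of the length). Proof: `Q282LT.Phi_affine (δ / 2)` gives `δ1 ≤ 1/2`; take `q ≥ 1 / δ1`, `τ = δ1 / 2`
and `η = (δ / 2) τ ^ 2 (6/π²)`. Let `κ = 6/π²`, `r = √((h' + L) / h') ∈ [1, 1 + 1/q]`, so `√(κ (h' + L)) = r √(κ h')`. By
Chebyshev the number of the `x` with `|W f (x + h') L| > τ √(κ (h' + L))` is at most `δ N / 2`. For the other `x`, since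
`W f x (h' + L) = W f x h' + W f (x + h') L`: `W f x (h' + L) ≤ t √(κ (h' + L))` implies
`W f x h' ≤ (t + τ) r √(κ h')`, and is implied by `W f x h' ≤ (t - τ) r √(κ h')`. So
`Fc f N (h' + L) t ≤ Fc f N h' (r t + r τ) + δ / 2 ≤ Phi (r t + r τ) + 3 δ / 2 ≤ Phi t + 2 δ` (`r τ ≤ δ1`), and similarly
for the lower bound. -/
def S_CompH : Prop := ∀ δ : ℝ, 0 < δ → ∃ (q : ℕ) (η : ℝ), 1 ≤ q ∧ 0 < η ∧ ∀ (f : ℕ → ℝ) (N h' L : ℕ), 1 ≤ N →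
  1 ≤ h' → q * L ≤ h' → ∑ x ∈ Ico N (2 * N), W f (x + h') L ^ 2 ≤ η * h' * N →
  (∀ t : ℝ, |Fc f N h' t - Q282MM.Phi t| ≤ δ) → ∀ t : ℝ, |Fc f N (h' + L) t - Q282MM.Phi t| ≤ 2 * δ

/-- JOB QU3 (change of the height). Proof: with `D = N - N'` the counts for `N` and `N'` differ by at most `3 D` (the
symmetric difference of `[N, 2 N)` and `[N', 2 N')` has at most `3 D` elements if `D ≤ N'`), and both are at
most `N`, so `|Fc f N h t - Fc f N' h t| ≤ 3 D / N + N (1 / N' - 1 / N) ≤ 4 D / N' ≤ 4 / q`. Take `q ≥ 4 / δ`. -/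
def S_CompN : Prop := ∀ δ : ℝ, 0 < δ → ∃ q : ℕ, 1 ≤ q ∧ ∀ (f : ℕ → ℝ) (N' N h : ℕ), 1 ≤ N' → N' ≤ N →
  q * (N - N') ≤ N' → (∀ t : ℝ, |Fc f N' h t - Q282MM.Phi t| ≤ δ) →
  ∀ t : ℝ, |Fc f N h t - Q282MM.Phi t| ≤ 2 * δ

/-- JOB QU4 (second moments; uses `S_Cnt`, `S_Odd`, `S_Char`, `S_Mean`, `S_Pairs` as hypotheses). Proof: `mom` and `exc`
(`Pool/Agent/Q152/QT/Mom.lean`) with `k = 2` (`gm 2 = 1`), as in the proof of `law_int` (`Pool/Agent/Q152/QT/LawInt.lean`):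
for `m` outside of the exceptional set, `(∑ Wm ^ 2) / N ≤ κ h + C h N ^ (-c) + h N ^ (-c) ≤ (C + 2) h`. -/
def S_Snd : Prop := ∀ ε : ℝ, 0 < ε → ∃ (c K : ℝ) (A N₀ : ℕ), 0 < c ∧ 0 ≤ K ∧
  ∀ (g : ℕ → ℝ) (N h P : ℕ), (∀ n, g n = 1 ∨ g n = -1) → N₀ ≤ N → (N : ℝ) ^ ε ≤ h →
    (h : ℝ) ≤ (N : ℝ) ^ (1 - ε) → N ^ A ≤ P →
    ∃ E : Finset ℕ, (E.card : ℝ) ≤ P * (N : ℝ) ^ (-c) ∧ ∀ m ≤ P, Odd m → Cop N m → m ∉ E →
      ∑ x ∈ Ico N (2 * N), Wm g h m x ^ 2 ≤ K * h * N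

end Pool.Agent.Q152.QT
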