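import Pool.Agent.Q152.QT.Final

/-! # Project QT, third part (helper152): moments of all orders, all lengths and heights at the same time

Hard row MP_0575cc_nt (variance of Moebius sums in short intervals). The law (`law_real`, `Final.lean`) and upper
bounds for the even moments give the asymptotics of all moments. -/

set_option autoImplicit false

namespace Pool.Agent.Q152.QT

open Finset MeasureTheory
open Pool.Agent.Q163.GC (W Mf)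

/-- JOB QV1 (chaining for the even moments; the case `r = 1` is `Pool.Agent.Q285.QT.t_Chain`). Proof: there is `D ≥ 1`
with `(a + b) ^ (2 r) ≤ D a ^ (2 r) + (3 / 2) b ^ (2 r)` for all real `a`, `b` (if `|a| ≤ λ |b|`, `(1 + λ) ^ (2 r) ≤ 3/2`, the
left side is `≤ (3/2) b ^ (2 r)`; else it is `≤ (1 + 1/λ) ^ (2 r) a ^ (2 r)`). Take `C = 2 D`. Induction on `J ≥ j0`, for all
`L < 2 ^ J` and `s` with `s + L ≤ N`. `J = j0`: `|W f y L| ≤ L ≤ 2 ^ j0`. Step: if `L < 2 ^ J` the bound for `J` is smaller. Else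
`L = 2 ^ J + L'`, `W f (x + s) L = W f (x + s) (2 ^ J) + W f (x + s + 2 ^ J) L'`; the shifted points `x + s` are in
`[N, 4 N)`, so the sum is at most `D K (2 ^ J) ^ r + (3 / 2) (C K (2 ^ J) ^ r + (4 ^ r) ^ j0 (3/2) ^ (J - j0))` times `N`, and
`D + 3 D ≤ 2 D 2 ^ r` as `r ≥ 1`. -/
def S_ChainR : Prop := ∀ r : ℕ, 1 ≤ r → ∃ C : ℝ, 1 ≤ C ∧ ∀ (f : ℕ → ℝ) (N j0 : ℕ) (K : ℝ),
  (∀ n, |f n| ≤ 1) → 0 ≤ K → ∀ J : ℕ, j0 ≤ J →
  (∀ j, j0 ≤ j → j < J → ∑ y ∈ Ico N (4 * N), W f y (2 ^ j) ^ (2 * r) ≤ K * (2 ^ j) ^ r * N) →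
  ∀ L < 2 ^ J, ∀ s, s + L ≤ N →
    ∑ x ∈ Ico N (2 * N), W f (x + s) L ^ (2 * r) ≤
      (C * K * (2 ^ J) ^ r + (4 ^ r) ^ j0 * (3 / 2 : ℝ) ^ (J - j0)) * N

/-- JOB QV2 (even moments at one height and one length; the case `r = 1` is `Pool.Agent.Q285.QT.t_Snd`, same proof:
`mom` and `exc` with `k = 2 r`). -/
def S_SndR : Prop := ∀ (r : ℕ) (ε : ℝ), 0 < ε → ∃ (c K : ℝ) (A N₀ : ℕ), 0 < c ∧ 0 ≤ K ∧
  ∀ (g : ℕ → ℝ) (N h P : ℕ), (∀ n, g n = 1 ∨ g n = -1) → N₀ ≤ N → (N : ℝ) ^ ε ≤ h →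
    (h : ℝ) ≤ (N : ℝ) ^ (1 - ε) → N ^ A ≤ P →
    ∃ E : Finset ℕ, (E.card : ℝ) ≤ P * (N : ℝ) ^ (-c) ∧ ∀ m ≤ P, Odd m → Cop N m → m ∉ E →
      ∑ x ∈ Ico N (2 * N), Wm g h m x ^ (2 * r) ≤ K * (h : ℝ) ^ r * N

/-- JOB QV3 (from the law and a bound for one moment to the moments). Proof: `k = 0` is trivial. Let `F` be the
distribution function of `Z` under the uniform measure on `[X, 2X]`, `T ≥ 1`. As `|z| ^ k ≤ z ^ (2 k + 2) / T` for `|z| ≥ T`,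
the part of the `k`-th moment with `|Z| ≥ T` is at most `K / T`; the same for the normal law with `gm (2 k + 2)`. Cut
`(-T, T]` into `n` intervals `(t_{i-1}, t_i]` of length `2 T / n`; there `|z ^ k - t_i ^ k| ≤ k T ^ (k - 1) 2 T / n`. So the parts
with `-T < Z ≤ T` of the two `k`-th moments are `∑ t_i ^ k (F (t_i) - F (t_{i-1}))` and `∑ t_i ^ k (Phi (t_i) - Phi (t_{i-1}))`
up to `2 k T ^ k / n` each, and the sums differ by at most `2 n η T ^ k`. Choose `T`, then `n`, then `η`. -/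
def S_Soft : Prop := ∀ (k : ℕ) (K δ : ℝ), 0 < δ → ∃ η : ℝ, 0 < η ∧ ∀ (X : ℝ) (Z : ℝ → ℝ), 0 < X →
  Measurable Z → (∃ D : ℝ, ∀ x, |Z x| ≤ D) →
  (∀ t : ℝ, |(volume {x : ℝ | x ∈ Set.Icc X (2 * X) ∧ Z x ≤ t}).toReal / X - Q282MM.Phi t| ≤ η) →
  (∫ x in X..2 * X, Z x ^ (2 * k + 2)) / X ≤ K →
  |(∫ x in X..2 * X, Z x ^ k) / X - gm k| ≤ δ

/-- JOB QV4 (from integer windows to windows with real centre and length, upper bound). Proof: as in `real_int`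
(`LawReal.lean`), with `Pool.Agent.Q163.GC.sandwich` for `g v = v ^ (2 r)`: with `A = ⌊X - H/2⌋`, `B = ⌊2X - H/2⌋`, `k = ⌊H⌋`,
`θ = H - k` the integral is at most `∑_{A ≤ m ≤ B} ((1 - θ) W f m k ^ (2 r) + θ W f m (k + 1) ^ (2 r))`, and
`⌊X/2⌋ ≤ A`, `B < 4 ⌊X/2⌋` as `H ≤ X`, `H > 8`. -/
def S_RealUp : Prop := ∀ (f : ℕ → ℝ) (r : ℕ) (X H : ℝ), 9 ≤ H → H ≤ X →
  ∫ x in X..2 * X, Mf f x H ^ (2 * r) ≤
    ∑ m ∈ Ico ⌊X / 2⌋₊ (4 * ⌊X / 2⌋₊), (W f m ⌊H⌋₊ ^ (2 * r) + W f m (⌊H⌋₊ + 1) ^ (2 * r))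

end Pool.Agent.Q152.QT
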