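import Pool.Agent.Q152.QT.Diag
import Pool.Agent.Q163.GC.AS
import Pool.Agent.Q163.GC.Var
import Pool.Agent.Q163.GC.Sqf

/-! # Project QT, fourth part (helper152): the variance with a power saving

Hard row MP_0575cc_nt. The off-diagonal part `BB - DD` of the sum of the squares of the window sums of
`g(n) μ(n) (n / m)`, for all but a small number of odd `m ≤ P`, saves a power of `N` for all `N` and all window
lengths at the same time. All proofs are local versions of proofs of helper163 in `Pool/Agent/Q163/GC/`. -/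

set_option autoImplicit false

namespace Pool.Agent.Q152.QT

open Finset MeasureTheory
open Pool.Agent.Q163.GC (W Mf BB DD JJ Grid prs red cr)

/-- JOB QW1 (uses QT5, `S_Char`, as hypothesis). Second moment of the off-diagonal part over the odd `m ≤ P`. Model:
`Pool.Agent.Q163.GC.mom` and `sec` in `Pool/Agent/Q163/GC/Mom.lean`. Proof: by `BB_sub`,
`BB f N h - DD f N h = ∑_{t ∈ JJ N h} w t (M t / m)` with `M t = (t.1 + t.2.1 + 1) (t.1 + t.2.2 + 1)` and `w t` the product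
of the values of `g μ` (Jacobi symbols are multiplicative in the numerator). Expand the square: the sum over `m` of
`w t w t' (M t * M t' / m)` is at most `P` in absolute value if `M t * M t'` is a square (the number of the odd `m ≤ P` is at
most `P`) and `w t`, `w t'` do not vanish, and at most `4 M t M t' ≤ 4 (N + h) ^ 4` if it is not a square (`S_Char`). The
number of pairs `(t, t')` of the first kind is at most `4 h ^ 2` times the cardinality (proof of `mom`, `fibre_ph`,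
`core_eq`), the number of all pairs is at most `(N h ^ 2) ^ 2`. -/
def S_MeanQ : Prop := ∀ (g : ℕ → ℝ) (N h P : ℕ), (∀ n, g n = 1 ∨ g n = -1) →
  ∑ m ∈ (range (P + 1)).filter (fun m => Odd m), (BB (fm g m) N h - DD (fm g m) N h) ^ 2 ≤
    P * (4 * (h : ℝ) ^ 2 * ((prs (N + h) h ×ˢ prs (N + h) h).filter
      fun t => cr (red t.1) = cr (red t.2)).card) + 4 * ((N : ℝ) * (h : ℝ) ^ 2) ^ 2 * ((N : ℝ) + h) ^ 4

/-- JOB QW2 (uses QW1 as hypothesis `S_MeanQ`). The grid property for all but `8 P / J` odd `m ≤ P` and all `j ≥ J`.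
Model: `grid_ae` in `Pool/Agent/Q163/GC/AS.lean`, same estimates. Proof: let `T j` be as there (pairs `(i, u)`). For
`h = u 2 ^ i` with `h j ^ 12 ≤ j ^ A`, `N = j ^ A`, the number of the odd `m ≤ P` with `h N / j < |BB - DD|` is (Chebyshev) at
most the bound of QW1 divided by `(h N / j) ^ 2`. The first part is `≤ 2 P / (card (T j) j ^ 2)` for `j ≥ 800 C A ^ 3`, exactly
as in `grid_ae`. The second part is `≤ 64 h ^ 2 N ^ 4 j ^ 2 ≤ 64 N ^ 6 j ^ (-22)`, and `64 N ^ 6 j ^ (-22) card (T j) j ^ 2 ≤ 256 A N ^ 6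
≤ ... ≤ 2 P` for large `j` when `N ^ 6 ≤ P` (`card (T j) ≤ 4 A j ^ 2`). So the sum over `T j` is at most `4 P / j ^ 2`, and
`∑_{j ≥ J} 4 P / j ^ 2 ≤ 8 P / J`. The exceptional set is the union over `J ≤ j ≤ P` and `T j`. -/
def S_GridQ : Prop := ∀ A : ℕ, 13 ≤ A → ∃ j0 : ℕ, ∀ (g : ℕ → ℝ) (P J : ℕ), (∀ n, g n = 1 ∨ g n = -1) →
  j0 ≤ J → ∃ E : Finset ℕ, (E.card : ℝ) ≤ 8 * P / J ∧ ∀ m ≤ P, Odd m → m ∉ E →
    ∀ j : ℕ, J ≤ j → (j ^ A) ^ 6 ≤ P → Grid (fm g m) A j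

/-- JOB QW3 (uniform version of `interp`). Proof: the same as `at_points` (`Pool/Agent/Q163/GC/Det.lean`) and `interp`
(`Pool/Agent/Q163/GC/Int.lean`), case `J ≤ j`; the constants there do not depend on `f`. Needs copies of the two
proofs with the quantifiers exchanged. -/
def S_InterpU : Prop := ∀ A : ℕ, 13 ≤ A → ∃ (j0 : ℕ) (C : ℝ), 0 ≤ C ∧ ∀ f : ℕ → ℝ, (∀ n, |f n| ≤ 1) →
  ∀ j N h : ℕ, j0 ≤ j → j ^ A ≤ N → N < (j + 1) ^ A → Grid f A j → Grid f A (j + 1) →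
    Grid f A (j + 2) → (h : ℝ) * (N : ℝ) ^ ((15 : ℝ) / A) ≤ N →
      |BB f N h - DD f N h| ≤ C * (h * N) * (N : ℝ) ^ (-(1 / (2 * (A : ℝ))))

/-- JOB QW4 (local and uniform version of `var_real`). Proof: the same as `var_real` (`Pool/Agent/Q163/GC/Var.lean`);
it uses the hypothesis only for `N = m` with `X / 4 ≤ m ≤ 3 X` (`key` there), and `c = min c0 1 / 2`, `X0` depend on `ε`,
`c0`, `C` only. -/
def S_VarU : Prop := ∀ ε c0 C : ℝ, 0 < ε → 0 < c0 → 0 ≤ C → ∃ c X0 : ℝ, 0 < c ∧ 1 ≤ X0 ∧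
  ∀ (f : ℕ → ℝ) (κ X H : ℝ), 0 ≤ κ → κ ≤ 1 → X0 ≤ X → 1 ≤ H → H ≤ X ^ (1 - ε) →
    (∀ N h : ℕ, X / 4 ≤ N → (N : ℝ) ≤ 3 * X → (h : ℝ) ≤ (N : ℝ) ^ (1 - ε / 2) →
      |BB f N h - κ * (h * N)| ≤ C * (h * N) * (N : ℝ) ^ (-c0)) →
    |1 / X * (∫ x in X..2 * X, Mf f x H ^ 2) - κ * H| ≤ H * X ^ (-c)

end Pool.Agent.Q152.QT
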