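import Pool.Agent.Q152.QT.Stm

/-! # Project QT, fifth part (helper152): polynomial phases

Hard row MP_b6b996_nt (sup norm of the Moebius exponential sum). For all but `P Y ^ (-B)` of the odd `m ≤ P`, all `X ≥ Y`
with `X ^ A ≤ P`, all intervals `I` in `[1, X]` and all real polynomials `F` of degree at most `d`, the sum of
`g(n) μ(n) (n/m) e(F(n))` over `I` is at most `√|I| X ^ ε`. -/

set_option autoImplicit false

namespace Pool.Agent.Q152.QT

open Finset

/-- JOB PX1 (uses QT3a and QT5, `S_Triv` and `S_Char`, as hypotheses). High moments of sums with complex coefficients over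
a short window, over the odd `m ≤ P`. Proof: `‖S‖ ^ (2 k) = S ^ k * conj S ^ k`; expand the two powers with
`Finset.prod_univ_sum` over `ι = Fin k ⊕ Fin k` (the coefficient of a tuple `t` is the product of the `a (t i)`, conjugated on
the second part, of norm at most `1`; the product of the symbols is the symbol of `∏ t i`) and sum over `m`. If `∏ t i` is a
square, the inner sum is at most `P` (number of the odd `m ≤ P`), and the number of such tuples with all `t i` squarefree is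
`card (SqT (fun _ => x) h) ≤ C √h ^ (2 k) N ^ δ` (`S_Triv`). If it is not a square, the inner sum is at most
`4 ∏ t i ≤ 4 (3 N) ^ (2 k)` (`S_Char`, `x + h ≤ 3 N`), and there are `h ^ (2 k)` tuples. -/
def S_MomC : Prop := ∀ (k : ℕ) (δ : ℝ), 0 < δ → ∃ C : ℝ, 0 ≤ C ∧ ∀ (a : ℕ → ℂ) (N h x P : ℕ),
  (∀ n, ‖a n‖ ≤ 1) → (∀ n, a n ≠ 0 → Squarefree n) → 1 ≤ h → h ≤ N → x ∈ Ico N (2 * N) →
  ∑ m ∈ (range (P + 1)).filter (fun m => Odd m),
    ‖∑ n ∈ Ioc x (x + h), a n * ((jacobiSym (n : ℤ) m : ℤ) : ℂ)‖ ^ (2 * k) ≤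
      P * (C * (h : ℝ) ^ k * (N : ℝ) ^ δ) + 4 * (3 * (N : ℝ)) ^ (2 * k) * (h : ℝ) ^ (2 * k)

/-- JOB PX2 (a net for the polynomial phases of degree at most `d`). Proof: `Pool.Agent.Q163.RX.cfs`, `ph`, `nst`, `approx`
(`Pool/Agent/Q163/RX/Phases.lean`) with `u = (d + 1) ^ 16`, so that `root u = d + 1` (`le_root`, `root_pow`), and `7 N` in
place of `N` (`2 π / (7 N) ≤ 1 / N`); the cardinality is at most `den u (7 N) ^ (d + 1)` (first lines of the proof of
`log_cfs`). -/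
def S_Net : Prop := ∀ d : ℕ, ∃ C D : ℕ, ∀ N : ℕ, 1 ≤ N → ∃ Φ : Finset (ℕ → ℂ), Φ.card ≤ C * N ^ D ∧
  (∀ φ ∈ Φ, ∀ n, ‖φ n‖ ≤ 1) ∧ ∀ F : Polynomial ℝ, F.natDegree ≤ d → ∃ φ ∈ Φ, ∀ n ≤ 3 * N,
    ‖Complex.exp ((2 * Real.pi * F.eval (n : ℝ) : ℝ) * Complex.I) - φ n‖ ≤ 1 / N

end Pool.Agent.Q152.QT
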