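import Pool.Agent.Q152.QT.Stm

/-! # The variance over the modulus -/

set_option autoImplicit false

namespace Pool.Agent.Q152.QT

open Finset

open Classical in
/-- the tuples of squarefree numbers in the window with a non-square product -/
noncomputable def Bt (k h x : ℕ) : Finset (Fin k → ℕ) :=
  (Fintype.piFinset fun _ : Fin k => Sf x h).filter fun t => ¬ IsSquare (∏ i, t i)

/-- the sum over the tuples with a non-square product -/
noncomputable def Tk {k : ℕ} (a : (Fin k → ℕ) → ℝ) (N h m : ℕ) : ℝ :=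
  ∑ x ∈ Ico N (2 * N), ∑ t ∈ Bt k h x, a t * ((jacobiSym ((∏ i, t i : ℕ) : ℤ) m : ℤ) : ℝ)

lemma mem_Sf {x h n : ℕ} : n ∈ Sf x h ↔ (x < n ∧ n ≤ x + h) ∧ Squarefree n := by
  unfold Sf
  rw [mem_filter, mem_Ioc]

lemma card_Sf_le (x h : ℕ) : (Sf x h).card ≤ h := by
  unfold Sf
  refine (card_filter_le _ _).trans ?_
  rw [Nat.card_Ioc]
  omega

lemma card_Bt_le (k h x : ℕ) : (Bt k h x).card ≤ h ^ k := by
  unfold Bt
  refine (card_filter_le _ _).trans ?_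
  rw [Fintype.card_piFinset]
  simp only [prod_const, card_univ, Fintype.card_fin]
  exact Nat.pow_le_pow_left (card_Sf_le x h) k

lemma prod_le {k h x N : ℕ} (hx : x ∈ Ico N (2 * N)) (hh : h ≤ N) {t : Fin k → ℕ}
    (ht : t ∈ Fintype.piFinset fun _ : Fin k => Sf x h) : ∏ i, t i ≤ (3 * N) ^ k := by
  have h1 : ∀ i ∈ (univ : Finset (Fin k)), t i ≤ 3 * N := by
    intro i _
    have h2 := (mem_Sf.1 ((Fintype.mem_piFinset.1 ht) i)).1.2
    have := (mem_Ico.1 hx).2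
    omega
  have := prod_le_pow_card univ (fun i => t i) (3 * N) h1
  simpa using this

lemma prod_pos' {k h x : ℕ} {t : Fin k → ℕ}
    (ht : t ∈ Fintype.piFinset fun _ : Fin k => Sf x h) : 0 < ∏ i, t i := by
  refine prod_pos fun i _ => ?_
  have h2 := (mem_Sf.1 ((Fintype.mem_piFinset.1 ht) i)).1.1
  omega

theorem var (hc : S_Char) (k N h P : ℕ) (hh : h ≤ N) (a : (Fin k → ℕ) → ℝ) (ha : ∀ t, |a t| ≤ 1) :
    ∑ m ∈ (range (P + 1)).filter (fun m => Odd m), Tk a N h m ^ 2 ≤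
      (P + 1) * (∑ x ∈ Ico N (2 * N), ∑ y ∈ Ico N (2 * N), (Qk k h x y : ℝ)) +
        4 * (N * (h : ℝ) ^ k) ^ 2 * (3 * (N : ℝ)) ^ (2 * k) := by
  classical
  set M := (range (P + 1)).filter (fun m => Odd m) with hM
  have hMc : (M.card : ℝ) ≤ P + 1 := by
    have : M.card ≤ P + 1 := (card_filter_le _ _).trans (by rw [card_range])
    exact_mod_cast this
  -- expand the square
  have e1 : ∀ m : ℕ, Tk a N h m ^ 2 = ∑ x ∈ Ico N (2 * N), ∑ y ∈ Ico N (2 * N),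
      ∑ p ∈ Bt k h x ×ˢ Bt k h y, a p.1 * a p.2 *
        ((jacobiSym (((∏ i, p.1 i) * ∏ i, p.2 i : ℕ) : ℤ) m : ℤ) : ℝ) := by
    intro m
    unfold Tk
    rw [sq, sum_mul_sum]
    refine sum_congr rfl fun x _ => sum_congr rfl fun y _ => ?_
    rw [sum_mul_sum, sum_product]
    refine sum_congr rfl fun t _ => sum_congr rfl fun t' _ => ?_
    rw [Nat.cast_mul, jacobiSym.mul_left]
    push_cast
    ring
  have e2 : ∑ m ∈ M, Tk a N h m ^ 2 = ∑ x ∈ Ico N (2 * N), ∑ y ∈ Ico N (2 * N),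
      ∑ p ∈ Bt k h x ×ˢ Bt k h y, a p.1 * a p.2 *
        ∑ m ∈ M, ((jacobiSym (((∏ i, p.1 i) * ∏ i, p.2 i : ℕ) : ℤ) m : ℤ) : ℝ) := by
    rw [sum_congr rfl fun m _ => e1 m, sum_comm]
    refine sum_congr rfl fun x _ => ?_
    rw [sum_comm]
    refine sum_congr rfl fun y _ => ?_
    rw [sum_comm]
    refine sum_congr rfl fun p _ => ?_
    rw [mul_sum]
  -- one pair
  have e3 : ∀ x ∈ Ico N (2 * N), ∀ y ∈ Ico N (2 * N), ∀ p ∈ Bt k h x ×ˢ Bt k h y,
      a p.1 * a p.2 * ∑ m ∈ M, ((jacobiSym (((∏ i, p.1 i) * ∏ i, p.2 i : ℕ) : ℤ) m : ℤ) : ℝ) ≤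
        (if IsSquare ((∏ i, p.1 i) * ∏ i, p.2 i) then ((P : ℝ) + 1) else 0) +
          4 * (3 * (N : ℝ)) ^ (2 * k) := by
    intro x hx y hy p hp
    rw [mem_product] at hp
    have hp1 := (mem_filter.1 hp.1).1
    have hp2 := (mem_filter.1 hp.2).1
    have ha2 : |a p.1 * a p.2| ≤ 1 := by
      rw [abs_mul]
      exact mul_le_one₀ (ha _) (abs_nonneg _) (ha _)
    have h0 : (0 : ℝ) ≤ 4 * (3 * (N : ℝ)) ^ (2 * k) := by positivity
    have hj : ∀ m : ℕ, |((jacobiSym (((∏ i, p.1 i) * ∏ i, p.2 i : ℕ) : ℤ) m : ℤ) : ℝ)| ≤ 1 := by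
      intro m
      rcases jacobiSym.trichotomy (((∏ i, p.1 i) * ∏ i, p.2 i : ℕ) : ℤ) m with h | h | h <;>
        rw [h] <;> simp
    refine (le_abs_self _).trans ?_
    rw [abs_mul]
    refine (mul_le_of_le_one_left (abs_nonneg _) ha2).trans ?_
    split_ifs with hsq
    · have : |∑ m ∈ M, ((jacobiSym (((∏ i, p.1 i) * ∏ i, p.2 i : ℕ) : ℤ) m : ℤ) : ℝ)| ≤ M.card := by
        refine (abs_sum_le_sum_abs _ _).trans ?_
        refine (sum_le_sum fun m _ => hj m).trans ?_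
        simp
      linarith
    · have h1 := hc ((∏ i, p.1 i) * ∏ i, p.2 i) (Nat.mul_pos (prod_pos' hp1) (prod_pos' hp2)) hsq P
      have h2 : |∑ m ∈ M, ((jacobiSym (((∏ i, p.1 i) * ∏ i, p.2 i : ℕ) : ℤ) m : ℤ) : ℝ)| ≤
          4 * (((∏ i, p.1 i) * ∏ i, p.2 i : ℕ) : ℝ) := by
        have h3 : |((∑ m ∈ M, jacobiSym (((∏ i, p.1 i) * ∏ i, p.2 i : ℕ) : ℤ) m : ℤ) : ℝ)| ≤
            ((4 * ((((∏ i, p.1 i) * ∏ i, p.2 i : ℕ)) : ℤ) : ℤ) : ℝ) := by
          rw [← Int.cast_abs]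
          exact_mod_cast h1
        rw [Int.cast_sum] at h3
        refine h3.trans (le_of_eq ?_)
        push_cast
        ring
      have h4 : (((∏ i, p.1 i) * ∏ i, p.2 i : ℕ) : ℝ) ≤ (3 * (N : ℝ)) ^ (2 * k) := by
        have : (∏ i, p.1 i) * ∏ i, p.2 i ≤ (3 * N) ^ (2 * k) := by
          rw [two_mul, pow_add]
          exact Nat.mul_le_mul (prod_le hx hh hp1) (prod_le hy hh hp2)
        exact_mod_cast this
      rw [zero_add]
      linarith
  rw [e2]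
  have e4 : ∀ x ∈ Ico N (2 * N), ∀ y ∈ Ico N (2 * N), ∑ p ∈ Bt k h x ×ˢ Bt k h y, a p.1 * a p.2 *
        ∑ m ∈ M, ((jacobiSym (((∏ i, p.1 i) * ∏ i, p.2 i : ℕ) : ℤ) m : ℤ) : ℝ) ≤
      ((P : ℝ) + 1) * (Qk k h x y : ℝ) + (h : ℝ) ^ (2 * k) * (4 * (3 * (N : ℝ)) ^ (2 * k)) := by
    intro x hx y hy
    refine (sum_le_sum (e3 x hx y hy)).trans ?_
    rw [sum_add_distrib, sum_const, nsmul_eq_mul, ← sum_filter, sum_const, nsmul_eq_mul]
    have q1 : (((Bt k h x ×ˢ Bt k h y).filter fun p => IsSquare ((∏ i, p.1 i) * ∏ i, p.2 i)).card : ℝ)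
        ≤ (Qk k h x y : ℝ) := by
      have : ((Bt k h x ×ˢ Bt k h y).filter fun p => IsSquare ((∏ i, p.1 i) * ∏ i, p.2 i)).card
          ≤ Qk k h x y := by
        unfold Qk
        refine card_le_card ?_
        intro p hp
        rw [mem_filter, mem_product] at hp
        have hp1 := mem_filter.1 hp.1.1
        have hp2 := mem_filter.1 hp.1.2
        rw [mem_filter, mem_product]
        exact ⟨⟨hp1.1, hp2.1⟩, hp1.2, hp2.2, hp.2⟩
      exact_mod_cast this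
    have q2 : ((Bt k h x ×ˢ Bt k h y).card : ℝ) ≤ (h : ℝ) ^ (2 * k) := by
      have : (Bt k h x ×ˢ Bt k h y).card ≤ h ^ (2 * k) := by
        rw [card_product, two_mul, pow_add]
        exact Nat.mul_le_mul (card_Bt_le _ _ _) (card_Bt_le _ _ _)
      exact_mod_cast this
    have q3 : (0 : ℝ) ≤ 4 * (3 * (N : ℝ)) ^ (2 * k) := by positivity
    have q4 : (0 : ℝ) ≤ (P : ℝ) + 1 := by positivity
    have := mul_le_mul_of_nonneg_right q1 q4
    have := mul_le_mul_of_nonneg_right q2 q3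
    linarith
  refine (sum_le_sum fun x hx => sum_le_sum fun y hy => e4 x hx y hy).trans ?_
  have hcard : ((Ico N (2 * N)).card : ℝ) = N := by
    rw [Nat.card_Ico]
    congr 1
    omega
  simp only [sum_add_distrib, sum_const, nsmul_eq_mul, hcard, ← mul_sum]
  have : (N : ℝ) * (N * ((h : ℝ) ^ (2 * k) * (4 * (3 * (N : ℝ)) ^ (2 * k)))) =
      4 * (N * (h : ℝ) ^ k) ^ 2 * (3 * (N : ℝ)) ^ (2 * k) := by
    have h2 : (h : ℝ) ^ (2 * k) = ((h : ℝ) ^ k) ^ 2 := by rw [mul_comm, pow_mul]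
    rw [h2]
    ring
  rw [this]

end Pool.Agent.Q152.QT
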