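import Pool.Agent.Q152.QT.StmW
import Pool.Agent.Q152.QT.LawUni

/-! # The variance with a power saving, all heights and lengths at the same time -/

set_option autoImplicit false

namespace Pool.Agent.Q152.QT

open Finset Pool.Agent.Y293.SF Filter MeasureTheory
open Pool.Agent.Q163.GC (W Mf BB DD Grid)

lemma DD_fm (g : ℕ → ℝ) (hg : ∀ n, g n = 1 ∨ g n = -1) (m N h : ℕ)
    (hc : ∀ n, 1 ≤ n → n ≤ N + h → Nat.Coprime n m) : DD (fm g m) N h = DD mu N h := by
  unfold DD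
  refine sum_congr rfl fun x hx => sum_congr rfl fun j hj => ?_
  rw [mem_range] at hx hj
  have h1 := hc (x + j + 1) (by omega) (by omega)
  unfold fm
  have h2 : g (x + j + 1) ^ 2 = 1 := by
    rcases hg (x + j + 1) with h | h <;> rw [h] <;> norm_num
  have h3 : ((jacobiSym ((x + j + 1 : ℕ) : ℤ) m : ℤ) : ℝ) ^ 2 = 1 := by
    have : jacobiSym ((x + j + 1 : ℕ) : ℤ) m ^ 2 = 1 := by
      apply jacobiSym.sq_one
      rw [Int.gcd_natCast_natCast]
      exact h1
    exact_mod_cast this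
  rw [mul_pow, mul_pow, h2, h3]
  ring

theorem var_twist (hG : S_GridQ) (hI : S_InterpU) (hV : S_VarU) (ε : ℝ) (hε : 0 < ε) (hε1 : ε < 1) :
    ∃ c Y₀ : ℝ, 0 < c ∧ c ≤ 1 / 26 ∧ 1 ≤ Y₀ ∧ ∀ (g : ℕ → ℝ) (P : ℕ) (Y : ℝ), (∀ n, g n = 1 ∨ g n = -1) →
      Y₀ ≤ Y → ∃ E : Finset ℕ, (E.card : ℝ) ≤ P * Y ^ (-c) ∧ ∀ m ≤ P, Odd m → m ∉ E →
        ∀ X H : ℝ, Y ≤ X → X ^ 7 ≤ P → (∀ q : ℕ, q.Prime → q ∣ m → 6 * X < q) → 1 ≤ H →
          H ≤ X ^ (1 - ε) →
            |1 / X * (∫ x in X..2 * X, Mf (fm g m) x H ^ 2) - 6 / Real.pi ^ 2 * H| ≤ H * X ^ (-c) := by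
  obtain ⟨κ, hκd⟩ : ∃ κ : ℝ, κ = 6 / Real.pi ^ 2 := ⟨_, rfl⟩
  have hκ : 0 ≤ κ := by rw [hκd]; positivity
  have hκ1 : κ ≤ 1 := by
    rw [hκd]
    have := Real.pi_gt_three
    rw [div_le_one (by positivity)]
    nlinarith
  rw [← hκd]
  obtain ⟨A0, hA0⟩ := exists_nat_ge (30 / ε)
  set A := max A0 13 with hA
  have hA13 : 13 ≤ A := le_max_right _ _
  have hA13R : (13 : ℝ) ≤ A := by exact_mod_cast hA13
  have hAp : (0 : ℝ) < A := by linarith
  have hAε : (15 : ℝ) / A ≤ ε / 2 := by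
    have h1 : 30 / ε ≤ A := hA0.trans (by exact_mod_cast le_max_left A0 13)
    rw [div_le_iff₀ hε] at h1
    rw [div_le_iff₀ hAp]
    linarith
  obtain ⟨j1, C, hC, HI⟩ := hI A hA13
  obtain ⟨j2, HG⟩ := hG A hA13
  set c0 : ℝ := 1 / (2 * (A : ℝ)) with hc0
  have hc00 : 0 < c0 := by positivity
  have hc01 : c0 ≤ 1 / 26 := by
    rw [hc0]
    exact div_le_div_of_nonneg_left (by norm_num) (by norm_num) (by linarith)
  obtain ⟨c1, X1, hc1, hX1, HV⟩ := hV ε c0 (C + 20) hε hc00 (by linarith)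
  -- large `j`
  obtain ⟨j3, hj3⟩ : ∃ j3 : ℕ, ∀ j : ℕ, j3 ≤ j → (j + 2) ^ A ≤ 2 * j ^ A := by
    have t1 : Tendsto (fun j : ℕ => (1 + 2 / (j : ℝ)) ^ A) atTop (nhds ((1 + 0) ^ A)) := by
      have t0 : Tendsto (fun j : ℕ => 2 / (j : ℝ)) atTop (nhds 0) :=
        tendsto_const_nhds.div_atTop tendsto_natCast_atTop_atTop
      exact (tendsto_const_nhds.add t0).pow A
    rw [add_zero, one_pow] at t1
    have t2 : ∀ᶠ j : ℕ in atTop, (j + 2) ^ A ≤ 2 * j ^ A := by
      filter_upwards [t1.eventually_le_const (by norm_num : (1 : ℝ) < 2),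
        eventually_ge_atTop 1] with j hj hj1
      have hj0 : (0 : ℝ) < j := by exact_mod_cast hj1
      have : ((j + 2 : ℕ) : ℝ) = j * (1 + 2 / (j : ℝ)) := by
        push_cast
        field_simp
      have h2 : ((j + 2 : ℕ) : ℝ) ^ A ≤ 2 * (j : ℝ) ^ A := by
        rw [this, mul_pow]
        nlinarith [pow_pos hj0 A]
      exact_mod_cast h2
    exact eventually_atTop.1 t2
  set J0 := max (max j1 j2) (max j3 1) with hJ0
  -- large `Y`
  obtain ⟨Y1, hY1⟩ : ∃ Y1 : ℝ, ∀ Y : ℝ, Y1 ≤ Y → (J0 : ℝ) + 2 ≤ (Y / 4) ^ (1 / (A : ℝ)) ∧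
      64 ≤ Y ^ c0 ∧ 6 ^ 6 ≤ Y := by
    have t0 : Tendsto (fun Y : ℝ => Y / 4) atTop atTop := tendsto_id.atTop_div_const (by norm_num)
    have t1 := ((tendsto_rpow_atTop (by positivity : 0 < 1 / (A : ℝ))).comp t0).eventually_ge_atTop
      ((J0 : ℝ) + 2)
    have t2 := (tendsto_rpow_atTop hc00).eventually_ge_atTop 64
    exact (t1.and (t2.and (eventually_ge_atTop (6 ^ 6)))).exists_forall_of_atTop
  refine ⟨min c1 c0, max (max Y1 X1) 1, lt_min hc1 hc00, (min_le_right _ _).trans hc01,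
    le_max_right _ _, fun g P Y hg hY => ?_⟩
  obtain ⟨y1, y2, y3⟩ := hY1 Y ((le_max_left _ _).trans ((le_max_left _ _).trans hY))
  have hYX1 : X1 ≤ Y := (le_max_right _ _).trans ((le_max_left _ _).trans hY)
  have hY0 : 0 < Y := by linarith
  have hY1' : 1 ≤ Y := by linarith
  set z := (Y / 4) ^ (1 / (A : ℝ)) with hz
  set J := ⌊z⌋₊ with hJ
  have hz0 : 0 < z := by positivity
  have hJz : (J : ℝ) ≤ z := Nat.floor_le hz0.le
  have hJz2 : z < J + 1 := Nat.lt_floor_add_one _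
  have hJJ : J0 ≤ J := by
    have h1 : (J0 : ℝ) < J := by linarith
    have h2 : J0 < J := by exact_mod_cast h1
    exact h2.le
  have hJ1 : (1 : ℝ) ≤ J := by
    have : 1 ≤ J := ((le_max_right _ _).trans (le_max_right _ _)).trans hJJ
    exact_mod_cast this
  have k1 : j1 ≤ J := ((le_max_left _ _).trans (le_max_left _ _)).trans hJJ
  have k2 : j2 ≤ J := ((le_max_right _ _).trans (le_max_left _ _)).trans hJJ
  have k3 : j3 ≤ J := ((le_max_left _ _).trans (le_max_right _ _)).trans hJJ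
  obtain ⟨E, hE, L⟩ := HG g P J hg k2
  refine ⟨E, hE.trans ?_, fun m hmP hmo hmE X H hYX hXP hmq hH1 hH2 => ?_⟩
  · -- the size of the exceptional set
    have e1 : z = Y ^ (1 / (A : ℝ)) / 4 ^ (1 / (A : ℝ)) := by
      rw [hz, Real.div_rpow hY0.le (by norm_num)]
    have e2 : (4 : ℝ) ^ (1 / (A : ℝ)) ≤ 4 := by
      calc (4 : ℝ) ^ (1 / (A : ℝ)) ≤ 4 ^ (1 : ℝ) := by
            refine Real.rpow_le_rpow_of_exponent_le (by norm_num) ?_
            rw [div_le_one hAp]
            linarith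
        _ = 4 := Real.rpow_one _
    have e3 : Y ^ (1 / (A : ℝ)) = Y ^ c0 * Y ^ c0 := by
      rw [← Real.rpow_add hY0]
      congr 1
      rw [hc0]
      field_simp
      ring
    have e4 : Y ^ c0 * Y ^ c0 / 4 ≤ z := by
      rw [e1, e3]
      exact div_le_div_of_nonneg_left (by positivity) (by positivity) e2
    have e5 : z / 2 ≤ J := by linarith
    have hYc : 0 < Y ^ c0 := by positivity
    have e6 : 8 * Y ^ c0 ≤ J := by nlinarith
    calc 8 * (P : ℝ) / J ≤ 8 * P / (8 * Y ^ c0) :=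
          div_le_div_of_nonneg_left (by positivity) (by positivity) e6
      _ = P * Y ^ (-c0) := by
          rw [Real.rpow_neg hY0.le]
          field_simp
      _ ≤ P * Y ^ (-(min c1 c0)) := by
          refine mul_le_mul_of_nonneg_left ?_ (Nat.cast_nonneg _)
          exact Real.rpow_le_rpow_of_exponent_le hY1' (neg_le_neg (min_le_right _ _))
  · have hX1' : 1 ≤ X := hY1'.trans hYX
    have hX0 : 0 < X := by linarith
    have hmain : |1 / X * (∫ x in X..2 * X, Mf (fm g m) x H ^ 2) - κ * H| ≤ H * X ^ (-c1) := by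
      refine HV (fm g m) κ X H hκ hκ1 (hYX1.trans hYX) hH1 hH2 fun N h hN1 hN2 hh => ?_
      have hNR : (1 : ℝ) ≤ N := by linarith
      have hN0 : (0 : ℝ) < N := by linarith
      have hN1' : 1 ≤ N := by exact_mod_cast hNR
      obtain ⟨j, -, hj1, hj2⟩ := Pool.Agent.Q163.GC.exists_root A N (by omega) hN1'
      have hjJ : J ≤ j := by
        have h1 : (Y / 4) ^ (1 / (A : ℝ)) < ((((j + 1 : ℕ) : ℝ)) ^ A) ^ (1 / (A : ℝ)) := by
          refine Real.rpow_lt_rpow (by positivity) ?_ (by positivity)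
          have h2 : (N : ℝ) < ((j + 1 : ℕ) : ℝ) ^ A := by exact_mod_cast hj2
          linarith
        rw [← Real.rpow_natCast, ← Real.rpow_mul (Nat.cast_nonneg _), mul_one_div_cancel hAp.ne',
          Real.rpow_one] at h1
        have h2 : (J : ℝ) < ((j + 1 : ℕ) : ℝ) := by linarith
        have h3 : J < j + 1 := by exact_mod_cast h2
        omega
      have hsz : ((j + 2) ^ A) ^ 6 ≤ P := by
        have h1 : (j + 2) ^ A ≤ 2 * N := (hj3 j (k3.trans hjJ)).trans (Nat.mul_le_mul_left _ hj1)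
        have h2 : (((j + 2) ^ A : ℕ) : ℝ) ≤ 6 * X := by
          have : (((j + 2) ^ A : ℕ) : ℝ) ≤ 2 * N := by exact_mod_cast h1
          linarith
        have h3 : ((((j + 2) ^ A) ^ 6 : ℕ) : ℝ) ≤ P := by
          calc ((((j + 2) ^ A) ^ 6 : ℕ) : ℝ) = (((j + 2) ^ A : ℕ) : ℝ) ^ 6 := by push_cast; ring
            _ ≤ (6 * X) ^ 6 := pow_le_pow_left₀ (Nat.cast_nonneg _) h2 6
            _ = 6 ^ 6 * X ^ 6 := by ring
            _ ≤ X * X ^ 6 := mul_le_mul_of_nonneg_right (by linarith) (by positivity)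
            _ = X ^ 7 := by ring
            _ ≤ P := hXP
        exact_mod_cast h3
      have mono : ∀ a b : ℕ, a ≤ b → (a ^ A) ^ 6 ≤ (b ^ A) ^ 6 := fun a b hab =>
        Nat.pow_le_pow_left (Nat.pow_le_pow_left hab _) _
      have g0 := L m hmP hmo hmE j hjJ ((mono j (j + 2) (by omega)).trans hsz)
      have g1 := L m hmP hmo hmE (j + 1) (by omega) ((mono (j + 1) (j + 2) (by omega)).trans hsz)
      have g2 := L m hmP hmo hmE (j + 2) (by omega) hsz
      have hhN : (h : ℝ) ≤ N := by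
        calc (h : ℝ) ≤ (N : ℝ) ^ (1 - ε / 2) := hh
          _ ≤ (N : ℝ) ^ (1 : ℝ) := Real.rpow_le_rpow_of_exponent_le hNR (by linarith)
          _ = N := Real.rpow_one _
      have b1 := HI (fm g m) (fm_le g hg m) j N h (k1.trans hjJ) hj1 hj2 g0 g1 g2 (by
        have e1 : (N : ℝ) ^ ((15 : ℝ) / A) ≤ (N : ℝ) ^ (ε / 2) :=
          Real.rpow_le_rpow_of_exponent_le hNR hAε
        calc (h : ℝ) * (N : ℝ) ^ ((15 : ℝ) / A) ≤ (N : ℝ) ^ (1 - ε / 2) * (N : ℝ) ^ (ε / 2) :=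
              mul_le_mul hh e1 (by positivity) (by positivity)
          _ = N := by
              rw [← Real.rpow_add hN0]
              norm_num)
      rw [DD_fm g hg m N h (fun n hn1 hn2 => by
        rw [Nat.coprime_iff_gcd_eq_one]
        by_contra hne
        obtain ⟨q, hq, hqd⟩ := Nat.exists_prime_and_dvd hne
        have d1 : q ∣ n := hqd.trans (Nat.gcd_dvd_left _ _)
        have d2 : q ∣ m := hqd.trans (Nat.gcd_dvd_right _ _)
        have h4 := hmq q hq d2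
        have h5 : q ≤ n := Nat.le_of_dvd (by omega) d1
        have h6 : (q : ℝ) ≤ N + h := by exact_mod_cast h5.trans hn2
        linarith)] at b1
      have b2 := Pool.Agent.Q163.GC.DD_mu N h
      rw [← hκd] at b2
      have b3 : Real.sqrt (N + h) ≤ 2 * (N * (N : ℝ) ^ (-c0)) := by
        have e1 : Real.sqrt (N + h) ≤ Real.sqrt (4 * N) := Real.sqrt_le_sqrt (by linarith)
        have e2 : Real.sqrt (4 * N) = 2 * Real.sqrt N := by
          rw [Real.sqrt_mul (by norm_num), show (4 : ℝ) = 2 ^ 2 by norm_num, Real.sqrt_sq (by norm_num)]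
        have e3 : Real.sqrt N ≤ N * (N : ℝ) ^ (-c0) := by
          have e4 : (N : ℝ) * (N : ℝ) ^ (-c0) = (N : ℝ) ^ (1 - c0) := by
            rw [sub_eq_add_neg, Real.rpow_add hN0, Real.rpow_one]
          rw [e4, Real.sqrt_eq_rpow]
          exact Real.rpow_le_rpow_of_exponent_le hNR (by linarith)
        linarith
      have hh0 : (0 : ℝ) ≤ h := Nat.cast_nonneg _
      have b4 : 10 * (h * Real.sqrt (N + h)) ≤ 20 * (h * N) * (N : ℝ) ^ (-c0) := by
        have := mul_le_mul_of_nonneg_left b3 hh0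
        calc 10 * (h * Real.sqrt (N + h)) ≤ 10 * (h * (2 * (N * (N : ℝ) ^ (-c0)))) := by linarith
          _ = 20 * (h * N) * (N : ℝ) ^ (-c0) := by ring
      have b5 : BB (fm g m) N h - κ * (h * N) = (BB (fm g m) N h - DD mu N h) +
          (DD mu N h - κ * (h * N)) := by ring
      rw [b5]
      refine (abs_add_le _ _).trans ?_
      have b6 : (C + 20) * (h * N) * (N : ℝ) ^ (-c0) = C * (h * N) * (N : ℝ) ^ (-c0) +
          20 * (h * N) * (N : ℝ) ^ (-c0) := by ring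
      rw [b6]
      exact add_le_add b1 (b2.trans b4)
    refine hmain.trans ?_
    refine mul_le_mul_of_nonneg_left ?_ (by linarith)
    exact Real.rpow_le_rpow_of_exponent_le hX1' (neg_le_neg (min_le_left _ _))

end Pool.Agent.Q152.QT
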